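import Mathlib
import Pool.Agent.Lib.P0c8ca5V.Defs
import Pool.Agent.Lib.P0c8ca5Bx.Defs
import Pool.Agent.Lib.P0c8ca5.GroupLem

/-!
# P0c8ca5Se: sections whose centre is not contained in the commutator subgroup

* `ic w`: the indicator of the conjugacy class of `w` (values in `ℤ`);
* `psi p m = eE p m - nA p ⊤ m`;
* `Kil p w`: `p * |A|` divides `eE p (ic w)`;
* `Sg A D`: for all `R ≤ E ≤ D`, `E ≤ N(R)`, `R ≠ E` there is `z ∈ E`, central modulo `R`, not in
  `R * [E, E]` (every section `S ≠ 1` of `D` satisfies `Z(S) ⊄ [S, S]`);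
* `SgC p d`: all p-subgroups centralizing `d` satisfy `Sg`.
-/

namespace Pool.Agent.Lib.P0c8ca5.Se

section
variable {A : Type*} [Group A]

open Classical in
/-- the indicator of the class of `w` -/
noncomputable def ic (w : A) : A → ℤ := fun x => if IsConj w x then 1 else 0

/-- the difference of the alternating sum of the pairs and the count of the triples -/
noncomputable def psi (p : ℕ) (m : A → ℤ) : ℤ := eE p m - nA p (⊤ : Subgroup A) m

/-- the alternating sum for the class of `w` vanishes modulo `p * |A|` -/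
def Kil (p : ℕ) (w : A) : Prop := (p : ℤ) * (Nat.card A : ℤ) ∣ eE p (ic w)

/-- every section `≠ 1` of `D` has a central element outside its commutator subgroup -/
def Sg (D : Subgroup A) : Prop :=
  ∀ R E : Subgroup A, R ≤ E → E ≤ D → E ≤ Subgroup.normalizer (R : Set A) → R ≠ E →
    ∃ z ∈ E, (∀ x ∈ E, z * x * z⁻¹ * x⁻¹ ∈ R) ∧ z ∉ R ⊔ ⁅E, E⁆

/-- all p-subgroups centralizing `d` satisfy `Sg` -/
def SgC (p : ℕ) (d : A) : Prop :=
  ∀ P : Subgroup A, IsPGroup p P → (∀ x ∈ P, x * d = d * x) → Sg P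

theorem CF_ic (w : A) : Bx.CF (ic w) := by
  classical
  intro g x
  unfold ic
  have h : IsConj w (g * x * g⁻¹) ↔ IsConj w x := by
    have h1 : IsConj x (g * x * g⁻¹) := isConj_iff.2 ⟨g, rfl⟩
    exact ⟨fun h2 => h2.trans h1.symm, fun h2 => h2.trans h1⟩
  exact if_congr h rfl rfl

end

end Pool.Agent.Lib.P0c8ca5.Se
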