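import Mathlib
import Pool.Agent.Lib.P0c8ca5Se.Defs
import Pool.Agent.Lib.P0c8ca5Ab.Fam

/-!
# Fam: the weights with section-good local p-subgroups

PROOF. Model: P0c8ca5Ab.Fam (`abC_sub`, `abC_mk`, `WFam_ab`). `SgC_sub`: `P ≤ ↥U`, `R ≤ E ≤ P`: take the images in `A` (`Subgroup.map U.subtype`; `⁅E, E⁆` maps to `⁅E.map, E.map⁆`: `Subgroup.map_commutator`; sup: `Subgroup.map_sup`). `SgC_mk`: `P ≤ NQ Q` a p-group centralizing `mk c`, `R ≤ E ≤ P`. Let `E' = pre Q E ⊓ centralizer {c}`, `R' = pre Q R ⊓ centralizer {c}` (subgroups of `A`; `pre`, `mem_pre`,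
`isPGroup_pre` as in `abC_mk`); `E'` is a p-group centralizing `c`, and every element of `E` (of `R`) is the class of an element of `E'` (of `R'`) (`Bx.cent_lift`). `R' ≤ E'`, `E' ≤ N(R')`, `R' ≠ E'`. So there is `z ∈ E'` with `[z, E'] ≤ R'`, `z ∉ R' ⊔ ⁅E', E'⁆`. Its class `z̄ ∈ E` satisfies `[z̄, E] ≤ R`. If `z̄ ∈ R ⊔ ⁅E, E⁆`, then there is `y ∈ R' ⊔ ⁅E', E'⁆` with class `z̄` (the image of
`R' ⊔ ⁅E', E'⁆` under the map from the group `N(Q) ⊓ centralizer {c}` contains `R` and `⁅E, E⁆`), and `z * y⁻¹ ∈ Q`, `z * y⁻¹ ∈ centralizer {c}`, so `z * y⁻¹ ∈ R'` and `z ∈ R' ⊔ ⁅E', E'⁆`, a contradiction.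
`WFam_sg` as `WFam_ab`. `SgC_conj`: if every p-subgroup centralizing `x` has a conjugate centralizing `d`, then `SgC p d → SgC p x` (`Sg (cg g P) → Sg P`: conjugate `R`, `E`).
-/

namespace Pool.Agent.Lib.P0c8ca5.Se

universe u

namespace FamAux

variable {p : ℕ} {A B : Type*} [Group A] [Group B]

theorem le_nz {R E : Subgroup A} (h : ∀ e ∈ E, ∀ r ∈ R, e * r * e⁻¹ ∈ R) :
    E ≤ Subgroup.normalizer (R : Set A) := by
  intro e he
  rw [Subgroup.mem_normalizer_iff]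
  intro r
  constructor
  · exact h e he r
  · intro hr
    have h1 := h e⁻¹ (E.inv_mem he) _ hr
    have h2 : e⁻¹ * (e * r * e⁻¹) * e⁻¹⁻¹ = r := by group
    rwa [h2] at h1

theorem of_nz {R E : Subgroup A} (h : E ≤ Subgroup.normalizer (R : Set A)) {e r : A}
    (he : e ∈ E) (hr : r ∈ R) : e * r * e⁻¹ ∈ R :=
  (Subgroup.mem_normalizer_iff.1 (h he) r).1 hr

theorem sg_map (f : B →* A) (hf : Function.Injective f) {P : Subgroup B}
    (h : Sg (P.map f)) : Sg P := by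
  intro R E hRE hEP hN hne
  have hN' : E.map f ≤ Subgroup.normalizer ((R.map f : Subgroup A) : Set A) := by
    apply le_nz
    rintro _ ⟨e, he, rfl⟩ _ ⟨r, hr, rfl⟩
    exact ⟨e * r * e⁻¹, of_nz hN he hr, by simp only [map_mul, map_inv]⟩
  have hne' : R.map f ≠ E.map f := fun heq => hne (Subgroup.map_injective hf heq)
  obtain ⟨z', hz', h1, h2⟩ := h (R.map f) (E.map f) (Subgroup.map_mono hRE)
    (Subgroup.map_mono hEP) hN' hne'
  obtain ⟨z, hz, rfl⟩ := hz'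
  refine ⟨z, hz, ?_, ?_⟩
  · intro x hx
    have h3 := h1 (f x) ⟨x, hx, rfl⟩
    have h4 : f z * f x * (f z)⁻¹ * (f x)⁻¹ = f (z * x * z⁻¹ * x⁻¹) := by
      simp only [map_mul, map_inv]
    rw [h4] at h3
    exact (Subgroup.mem_map_iff_mem hf).1 h3
  · intro h3
    apply h2
    rw [← Subgroup.map_commutator, ← Subgroup.map_sup]
    exact ⟨z, h3, rfl⟩

theorem SgC_sub {U : Subgroup A} {d : ↥U} (h : SgC p (d : A)) : SgC p d := by
  intro P hP hd
  apply sg_map U.subtype U.subtype_injective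
  apply h _ (hP.map _)
  rintro _ ⟨z, hz, rfl⟩
  exact congrArg Subtype.val (hd z hz)

theorem SgC_mk [Fact p.Prime] [Finite A] {Q : Subgroup A} (hQ : IsPGroup p Q)
    {c : ↥(Subgroup.normalizer (Q : Set A))} (hc : Preg p (c : A)) (h : SgC p (c : A)) :
    SgC p (QuotientGroup.mk c : NQ Q) := by
  intro P hP hd R E hRE hEP hN hne
  let q : ↥(Subgroup.normalizer (Q : Set A)) →* NQ Q := QuotientGroup.mk' _
  let C : Subgroup ↥(Subgroup.normalizer (Q : Set A)) := Subgroup.centralizer {c}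
  have hC : ∀ z : ↥(Subgroup.normalizer (Q : Set A)), z ∈ C ↔ z * c = c * z :=
    fun z => Subgroup.mem_centralizer_singleton_iff
  have hlift : ∀ s ∈ P, ∃ z : ↥(Subgroup.normalizer (Q : Set A)), z ∈ C ∧ q z = s := by
    intro s hs
    obtain ⟨z0, hz0⟩ := QuotientGroup.mk_surjective s
    have h1 : Commute (QuotientGroup.mk z0 : NQ Q) (QuotientGroup.mk c) := by
      rw [hz0]
      exact hd s hs
    obtain ⟨z, hz1, hz2⟩ := Bx.cent_lift hQ hc h1
    exact ⟨z, (hC z).2 (Subtype.ext hz2), hz1.trans hz0⟩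
  have hker : IsPGroup p q.ker := by
    have h1 : q.ker = Q.subgroupOf (Subgroup.normalizer (Q : Set A)) := QuotientGroup.ker_mk' _
    rw [h1]
    exact hQ.comap_subtype
  have mR : ∀ T : Subgroup (NQ Q), T ≤ P → (T.comap q ⊓ C).map q = T := by
    intro T hT
    ext s
    constructor
    · rintro ⟨z, hz, rfl⟩
      exact hz.1
    · intro hs
      obtain ⟨z, hz1, hz2⟩ := hlift s (hT hs)
      refine ⟨z, ⟨?_, hz1⟩, hz2⟩
      show q z ∈ T
      rw [hz2]
      exact hs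
  have hE1 : IsPGroup p (E.comap q ⊓ C : Subgroup _) :=
    ((hP.to_le hEP).comap_of_ker_isPGroup q hker).to_le inf_le_left
  have hSg : Sg (E.comap q ⊓ C : Subgroup _) := by
    apply sg_map (Subgroup.normalizer (Q : Set A)).subtype (Subgroup.subtype_injective _)
    apply h _ (hE1.map _)
    rintro _ ⟨z, hz, rfl⟩
    exact congrArg Subtype.val ((hC z).1 hz.2)
  have hRE1 : (R.comap q ⊓ C : Subgroup _) ≤ E.comap q ⊓ C :=
    inf_le_inf_right _ (Subgroup.comap_mono hRE)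
  have hN1 : (E.comap q ⊓ C : Subgroup _) ≤
      Subgroup.normalizer ((R.comap q ⊓ C : Subgroup _) : Set _) := by
    apply le_nz
    intro e he r hr
    refine ⟨?_, C.mul_mem (C.mul_mem he.2 hr.2) (C.inv_mem he.2)⟩
    show q (e * r * e⁻¹) ∈ R
    rw [map_mul, map_mul, map_inv]
    exact of_nz hN he.1 hr.1
  have hne1 : (R.comap q ⊓ C : Subgroup _) ≠ E.comap q ⊓ C := by
    intro heq
    apply hne
    rw [← mR R (hRE.trans hEP), ← mR E hEP, heq]
  obtain ⟨z, hz, h1, h2⟩ := hSg _ _ hRE1 le_rfl hN1 hne1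
  have hcl : (R.comap q ⊓ C : Subgroup _) ⊔ ⁅(E.comap q ⊓ C : Subgroup _), E.comap q ⊓ C⁆ ≤
      E.comap q ⊓ C := by
    refine sup_le hRE1 ?_
    rw [Subgroup.commutator_le]
    intro a ha b hb
    exact (E.comap q ⊓ C).mul_mem ((E.comap q ⊓ C).mul_mem ((E.comap q ⊓ C).mul_mem ha hb)
      ((E.comap q ⊓ C).inv_mem ha)) ((E.comap q ⊓ C).inv_mem hb)
  refine ⟨q z, hz.1, ?_, ?_⟩
  · intro x hx
    rw [← mR E hEP] at hx
    obtain ⟨x1, hx1, rfl⟩ := hx
    have h3 := (h1 x1 hx1).1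
    have h4 : q (z * x1 * z⁻¹ * x1⁻¹) ∈ R := h3
    rwa [map_mul, map_mul, map_mul, map_inv, map_inv] at h4
  · intro h3
    rw [← mR E hEP, ← mR R (hRE.trans hEP), ← Subgroup.map_commutator, ← Subgroup.map_sup] at h3
    obtain ⟨y, hy, hyz⟩ := h3
    apply h2
    have h5 : z * y⁻¹ ∈ (R.comap q ⊓ C : Subgroup _) := by
      refine ⟨?_, C.mul_mem hz.2 (C.inv_mem (hcl hy).2)⟩
      show q (z * y⁻¹) ∈ R
      rw [map_mul, map_inv, hyz, mul_inv_cancel]
      exact R.one_mem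
    have h6 : z = z * y⁻¹ * y := by group
    rw [h6]
    exact Subgroup.mul_mem _ (Subgroup.mem_sup_left h5) hy

end FamAux

theorem SgC_conj {p : ℕ} {A : Type*} [Group A] (d x : A) (hd : SgC p d) (_hx : Preg p x)
    (h : ∀ Q : Subgroup A, IsPGroup p Q → (∀ g ∈ Q, g * x = x * g) →
      ∃ g : A, ∀ y ∈ cg g Q, y * d = d * y) : SgC p x := by
  intro P hP hx
  obtain ⟨g, hg⟩ := h P hP hx
  apply FamAux.sg_map (MulAut.conj g).toMonoidHom (MulAut.conj g).injective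
  exact hd (cg g P) (hP.map _) hg

theorem WFam_sg (p : ℕ) [Fact p.Prime] :
    WFam.{u} p (fun G _ m => Finite G ∧ IsWt p (⊤ : Subgroup G) m ∧ ∀ d, m d ≠ 0 → SgC p d) where
  wt := fun G _ _ m h => h.2.1
  sub := by
    intro G _ _ m h U
    refine ⟨inferInstance, IsWt_dn U h.2.1, ?_⟩
    intro d hd
    exact FamAux.SgC_sub (h.2.2 (d : G) hd)
  mb := by
    intro G _ _ m h Q hQ
    refine ⟨inferInstance, mb_isWt Q h.2.1, ?_⟩
    intro y hy
    unfold mb at hy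
    obtain ⟨⟨c, hc⟩, hcm⟩ : ∃ c : {c : ↥(Subgroup.normalizer (Q : Set G)) //
        (QuotientGroup.mk c : NQ Q) = y}, m (c : G) ≠ 0 := by
      by_contra hcon
      push Not at hcon
      exact hy (finsum_eq_zero_of_forall_eq_zero hcon)
    have hcm' : m (c : G) ≠ 0 := hcm
    rw [← hc]
    exact FamAux.SgC_mk hQ (h.2.1.reg _ hcm') (h.2.2 _ hcm')

end Pool.Agent.Lib.P0c8ca5.Se
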