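import Mathlib
import Pool.Agent.Lib.P0c8ca5Se.Defs
import Pool.Agent.Lib.P0c8ca5V.TFin
import Pool.Agent.Lib.P0c8ca5V.CA
import Pool.Agent.Lib.P0c8ca5V.CC
import Pool.Agent.Lib.P0c8ca5V.QCor
import Pool.Agent.Lib.P0c8ca5Bx.ABa

/-!
# Gen: the relations of P0c8ca5V for all class functions

PROOF. The theorems `eE_eL` (V.CA), `nL_quo` (V.Quo), `eL_quo`, `nL_decomp` (V.QCor), `CCAux.diff_eq`, `CCAux.FF_cg` (V.CC), `Lam_zel`, `mb_isWt` are stated with `hm : IsWt p ⊤ m`, but their proofs use only `hm.conj` (`nL_quo` uses nothing). Copy the proofs (into an auxiliary namespace `GenAux`) with `hm : CF m` or without hypothesis. The first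
component of the proof of `mb_isWt` is `CF_mb`. `eE_dvd` for class functions is `eE_dvd_cf` (Bx.ABa); `nA_dvd_cf`: `nA_trE` (V.TCnt, class functions).
-/

namespace Pool.Agent.Lib.P0c8ca5.Se

open MonoidAlgebra Bx

section
variable {p : ℕ} [Fact p.Prime] {A : Type*} [Group A] [Finite A]

open QuoAux in
theorem CF_mb (Q : Subgroup A) {m : A → ℤ} (hm : CF m) : CF (mb Q m) := by
  classical
  have := Fintype.ofFinite A
  intro h y
  obtain ⟨g, rfl⟩ := pim_surj Q h
  rw [mb_sum, mb_sum]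
  symm
  refine Fintype.sum_equiv (MulAut.conj g).toEquiv _ _ (fun c => ?_)
  change _ = if pim Q (g * c * g⁻¹) = _ then m ((g : A) * c * (g : A)⁻¹) else 0
  rw [hm]
  by_cases h1 : pim Q c = y
  · rw [if_pos h1, if_pos (by rw [map_mul, map_mul, map_inv, h1])]
  · rw [if_neg h1, if_neg]
    intro h2
    rw [map_mul, map_mul, map_inv] at h2
    exact h1 (mul_left_cancel (mul_right_cancel h2))

namespace GenAux

open QuoAux

theorem nL_quo_cf {Q H : Subgroup A} (hQ : IsPGroup p Q) (hQH : Q ≤ H)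
    (hH : H ≤ Subgroup.normalizer (Q : Set A)) {m : A → ℤ} :
    (Nat.card Q : ℤ) * nL p (sec H Q) (mb Q m) = nL p H m := by
  classical
  have := Fintype.ofFinite A
  have := Fintype.ofFinite (NQ Q)
  have h1 := fib_sum (pim Q) (sec H Q)
    (fun x c => Preg p x.1 ∧ pr p (c * x.1) = x.2 * x.1 * x.2⁻¹)
    (fun X C => Preg p X.1 ∧ pr p (C * X.1) = X.2 * X.1 * X.2⁻¹) (Nat.card (pim Q).ker : ℤ)
    (fun c X => by
      refine Eq.trans (Finset.sum_congr rfl (fun x _ => ite_c Iff.rfl rfl rfl))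
        ((cntL (pim Q) (pim_surj Q) (pim_ker_p hQ) c X).trans (ite_c Iff.rfl rfl rfl)))
    (fun c => m c)
  rw [pim_ker_card] at h1
  unfold nL
  rw [sum_restr (N := Subgroup.normalizer (Q : Set A)) (fun t : A × A × A =>
    if (t.1 ∈ H ∧ t.2.1 ∈ H ∧ t.2.2 ∈ H) ∧ Preg p t.1 ∧
      pr p (t.2.2 * t.1) = t.2.1 * t.1 * t.2.1⁻¹ then m t.2.2 else 0)]
  · rw [finsum_eq_sum_of_fintype]
    simp only [mb_sum]
    refine Eq.trans (congrArg _ (Finset.sum_congr rfl (fun T _ => ite_c Iff.rfl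
      (Finset.sum_congr rfl (fun c _ => ite_c Iff.rfl rfl rfl)) rfl)))
      (h1.symm.trans (Finset.sum_congr rfl (fun t _ => ite_c ?_ rfl rfl)))
    rw [mem_iff hQH, mem_iff hQH, mem_iff hQH]
    refine and_congr Iff.rfl (and_congr (preg_coe' t.1).symm ?_)
    rw [← Subgroup.coe_mul, pr_coe']
    rw [← Subgroup.coe_mul, ← Subgroup.coe_inv, ← Subgroup.coe_mul]
    exact (SetLike.coe_eq_coe).symm
  · intro t ht
    rw [if_neg]
    rintro ⟨⟨h2, h3, h4⟩, -⟩
    exact ht ⟨hH h2, hH h3, hH h4⟩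

end GenAux

namespace GenAux

open QCorAux in
open Classical in
theorem eL_quo_cf {Q : Subgroup A} (hQ : IsPGroup p Q) {m : A → ℤ} :
    (Nat.card Q : ℤ) * eL p (mb Q m)
      = ∑ᶠ τ : Finset (Subgroup A),
          (if IsCh p τ ∧ (∀ P ∈ τ, Q < P ∧ P ≤ Subgroup.normalizer (Q : Set A))
            then (-1) ^ τ.card * nL p (Subgroup.normalizer (Q : Set A) ⊓ sN τ) m else 0) := by
  have hF1 : Fintype (Subgroup A) := Fintype.ofFinite _
  have hF2 : Fintype (Subgroup (NQ Q)) := Fintype.ofFinite _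
  have eL' : eL p (mb Q m) = ∑ σ ∈ Finset.univ.filter
      (fun σ : Finset (Subgroup (NQ Q)) => IsCh p σ), (-1) ^ σ.card * nL p (sN σ) (mb Q m) := by
    unfold eL chS
    rw [finsum_eq_sum_of_fintype, Finset.sum_filter]
  rw [eL', Finset.mul_sum, finsum_eq_sum_of_fintype]
  refine Eq.trans (Eq.symm ?_) ((Finset.sum_filter (fun τ : Finset (Subgroup A) => Up p Q τ)
    (fun τ => (-1) ^ τ.card * nL p (Subgroup.normalizer (Q : Set A) ⊓ sN τ) m)).trans
    (Finset.sum_congr rfl fun τ _ => ?_))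
  swap
  · by_cases h : Up p Q τ
    · rw [if_pos h]
      exact (if_pos h).symm
    · rw [if_neg h]
      exact (if_neg h).symm
  refine Finset.sum_nbij' (fun τ => τ.image fun P => sec P Q) (fun σ => σ.image (pre Q))
    ?_ ?_ ?_ ?_ ?_
  · intro τ hτ
    exact Finset.mem_filter.2 ⟨Finset.mem_univ _, isCh_sec (Finset.mem_filter.1 hτ).2⟩
  · intro σ hσ
    exact Finset.mem_filter.2 ⟨Finset.mem_univ _, up_pre hQ (Finset.mem_filter.1 hσ).2⟩
  · intro τ hτ
    exact image_pre_sec (p := p) (Finset.mem_filter.1 hτ).2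
  · intro σ _
    exact image_sec_pre σ
  · intro τ hτ
    have h : Up p Q τ := (Finset.mem_filter.1 hτ).2
    have hQ' : Q ≤ Subgroup.normalizer (Q : Set A) ⊓ sN τ := by
      refine le_inf Subgroup.le_normalizer ?_
      intro y hy
      exact NTogAux.mem_sN.2 fun P hP => Subgroup.le_normalizer ((h.2 P hP).1.le hy)
    have h1 := nL_quo_cf (m := m) hQ hQ' inf_le_left
    have h2 := sN_image h
    have h3 := card_image_sec h
    rw [h2, h3, ← h1]
    ring

open QCorAux in
open Classical in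
theorem nL_decomp_cf {m : A → ℤ}  :
    nL p (⊤ : Subgroup A) m
      = ∑ᶠ Q : Subgroup A, (if IsPGroup p Q then (Nat.card Q : ℤ) * eL p (mb Q m) else 0) := by
  have hF1 : Fintype (Subgroup A) := Fintype.ofFinite _
  rw [← pairs_sum (p := p) (fun U : Subgroup A => nL p U m), finsum_eq_sum_of_fintype,
    finsum_eq_sum_of_fintype, Fintype.sum_prod_type]
  refine Finset.sum_congr rfl fun Q _ => ?_
  by_cases hQ : IsPGroup p Q
  · rw [if_pos hQ, eL_quo_cf hQ, finsum_eq_sum_of_fintype]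
    refine Finset.sum_congr rfl fun τ _ => ?_
    by_cases h : IsCh p τ ∧ (∀ P ∈ τ, Q < P ∧ P ≤ Subgroup.normalizer (Q : Set A))
    · rw [if_pos h]
      exact if_pos ⟨hQ, h.1, h.2⟩
    · rw [if_neg h]
      exact if_neg fun h' => h ⟨h'.2.1, h'.2.2⟩
  · rw [if_neg hQ]
    refine Finset.sum_eq_zero fun τ _ => ?_
    exact if_neg fun h' => hQ h'.1

end GenAux

open CAAux in
theorem eE_eL_cf {m : A → ℤ} (hm : CF m) :
    (p : ℤ) * (Nat.card A : ℤ) ∣ eE p m - eL p m := by
  classical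
  have := Fintype.ofFinite A
  have hc : ∀ g x, m (g * x * g⁻¹) = m x := hm
  have h1 : (p : ℤ) * (Nat.card A : ℤ) ∣ chS p (fun U => nE U m - sL p m U) := by
    refine chS_dvd _ (fun g U => ?_) (p : ℤ) (fun σ _ => ?_)
    · rw [nE_conj _ _ (hc g), sL_conj hc]
    · exact nE_nL (sN σ) (fun h _ x => hc h x)
  have h2 : chS p (fun U => nE U m - sL p m U) = eE p m - chS p (fun U => sL p m U) := by
    unfold eE chS
    rw [← finsum_sub_distrib (Set.toFinite _) (Set.toFinite _)]
    refine finsum_congr fun σ => ?_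
    by_cases h : IsCh p σ
    · rw [if_pos h, if_pos h, if_pos h]
      ring
    · rw [if_neg h, if_neg h, if_neg h, sub_zero]
  have h3 : chS p (fun U => sL p m U) = eL p m := by
    have h4 : chS p (fun U => sL p m U) = ∑ᶠ u : A, ∑ᶠ σ : Finset (Subgroup A),
        (if Pel p u then (if IsCh p σ ∧ u ∈ sN σ then (-1) ^ σ.card *
          nL p (Subgroup.centralizer ({u} : Set A) ⊓ sN σ) m else 0) else 0) := by
      unfold chS sL
      rw [finsum_eq_sum_of_fintype, finsum_eq_sum_of_fintype]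
      have h5 : ∀ σ : Finset (Subgroup A), (if IsCh p σ then (-1 : ℤ) ^ σ.card *
          (∑ᶠ u : A, (if u ∈ sN σ ∧ Pel p u then
            nL p (sN σ ⊓ Subgroup.centralizer ({u} : Set A)) m else 0)) else 0)
          = ∑ u : A, (if Pel p u then (if IsCh p σ ∧ u ∈ sN σ then (-1) ^ σ.card *
          nL p (Subgroup.centralizer ({u} : Set A) ⊓ sN σ) m else 0) else 0) := by
        intro σ
        by_cases h : IsCh p σ
        · rw [if_pos h, finsum_eq_sum_of_fintype, Finset.mul_sum]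
          refine Finset.sum_congr rfl fun u _ => ?_
          by_cases hu : u ∈ sN σ
          · by_cases hp : Pel p u
            · rw [if_pos ⟨hu, hp⟩, if_pos hp, if_pos ⟨h, hu⟩, inf_comm]
            · rw [if_neg (fun h' => hp h'.2), if_neg hp, mul_zero]
          · rw [if_neg (fun h' => hu h'.1), mul_zero]
            split_ifs with h6 h7
            · exact absurd h7.2 hu
            · rfl
            · rfl
        · rw [if_neg h]
          symm
          refine Finset.sum_eq_zero fun u _ => ?_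
          split_ifs with h6 h7
          · exact absurd h7.1 h
          · rfl
          · rfl
      rw [Finset.sum_congr rfl fun σ _ => h5 σ, Finset.sum_comm]
      refine Finset.sum_congr rfl fun u _ => ?_
      rw [finsum_eq_sum_of_fintype]
    rw [h4, finsum_eq_single _ (1 : A)]
    · unfold eL chS
      refine finsum_congr fun σ => ?_
      have hp1 : Pel p (1 : A) := ⟨0, one_pow _⟩
      rw [if_pos hp1]
      have h6 : Subgroup.centralizer ({(1 : A)} : Set A) ⊓ sN σ = sN σ := by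
        rw [inf_eq_right]
        intro x _
        rw [Subgroup.mem_centralizer_singleton_iff, mul_one, one_mul]
      by_cases h : IsCh p σ
      · rw [if_pos ⟨h, Subgroup.one_mem _⟩, if_pos h, h6]
      · rw [if_neg (fun h' => h h'.1), if_neg h]
    · intro u hu
      by_cases hp : Pel p u
      · refine Eq.trans ?_ (toggle (Subgroup.zpowers u) (Subgroup.centralizer ({u} : Set A))
          (isP_zpowers hp) (fun h => hu (Subgroup.zpowers_eq_bot.1 h)) (cent_le u)
          (fun V => nL p V m))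
        refine finsum_congr fun σ => ?_
        rw [if_pos hp]
        have h7 : (IsCh p σ ∧ u ∈ sN σ) ↔ (IsCh p σ ∧ Subgroup.zpowers u ≤ sN σ) := by
          rw [Subgroup.zpowers_le]
        by_cases h : IsCh p σ ∧ u ∈ sN σ
        · rw [if_pos h, if_pos (h7.1 h)]
        · rw [if_neg h, if_neg (fun h' => h (h7.2 h'))]
      · simp only [if_neg hp, finsum_zero]
  rw [← h3, ← h2]
  exact h1

theorem FF_cg_cf {m : A → ℤ} (hm : CF m) (g : A) (U : Subgroup A) :
    CCAux.FF p m (cg g U) = CCAux.FF p m U := by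
  classical
  have hm' : ∀ x, m (g * x * g⁻¹) = m x := fun x => hm g x
  unfold CCAux.FF
  rw [CCAux.cg_card, CCAux.eL_cg g U hm', CCAux.nA_cg g U hm']
  exact if_congr (CCAux.cg_isPGroup g U) rfl rfl

theorem diff_eq_cf {m : A → ℤ} (_hm : CF m) :
    nL p (⊤ : Subgroup A) m - wS p m = ∑ᶠ Q : Subgroup A, CCAux.FF p m Q := by
  classical
  rw [GenAux.nL_decomp_cf (p := p) (m := m)]
  unfold wS
  rw [← finsum_sub_distrib (Set.toFinite _) (Set.toFinite _)]
  refine finsum_congr fun Q => ?_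
  unfold CCAux.FF
  split_ifs
  · ring
  · ring

theorem nA_dvd_cf {m : A → ℤ} (hm : CF m) : (Nat.card A : ℤ) ∣ nA p (⊤ : Subgroup A) m := by
  cases nonempty_fintype A
  obtain ⟨t, h1, _⟩ := nA_trE (k := AlgebraicClosure (ZMod p)) (p := p) hm
  exact ⟨t, h1⟩

theorem FF_bot {m : A → ℤ} :
    CCAux.FF p m (⊥ : Subgroup A) = eL p m - nA p (⊤ : Subgroup A) m := by
  classical
  unfold CCAux.FF
  have hb : IsPGroup p (⊥ : Subgroup A) := IsPGroup.of_bot
  have h1 : eL p (mb (⊥ : Subgroup A) m) = eL p m := by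
    rw [CCAux.eL_map (CCAux.eNQ (A := A))]
    congr 1
    funext y
    exact CCAux.mb_eNQ m y
  have h2 : nA p (⊤ : Subgroup (NQ (⊥ : Subgroup A))) (mb (⊥ : Subgroup A) m)
      = nA p (⊤ : Subgroup A) m := by
    rw [CCAux.nA_top_map (CCAux.eNQ (A := A))]
    congr 1
    funext y
    exact CCAux.mb_eNQ m y
  rw [if_pos hb, h1, h2, Subgroup.card_bot, Nat.cast_one, one_mul]

end

open TFinAux in
theorem Lam_zel_cf {p : ℕ} {k : Type*} [Field k] {A : Type*} [Group A] [Fintype A]
    [Fact p.Prime] [CharP k p] [IsAlgClosed k] {m : A → ℤ} (hm : CF m) :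
    ∃ t : ℤ, nL p (⊤ : Subgroup A) m - wS p m = (Nat.card A : ℤ) * t ∧
      (t : k) = Lam p (zel k m) := by
  classical
  letI : Fintype (Subgroup A) := Fintype.ofFinite _
  let D : Finset (Subgroup A) := Finset.univ.filter (fun Q : Subgroup A => IsPGroup p Q)
  obtain ⟨t₀, ht₀, ht₀'⟩ := nL_trL (p := p) (k := k) (⊤ : Subgroup A) (fun h _ x => hm h x)
  have hQ : ∀ Q : Subgroup A, ∃ t : ℤ, nA p (⊤ : Subgroup (NQ Q)) (mb Q m)
      = (Nat.card (NQ Q) : ℤ) * t ∧ (t : k) = WQ p Q (zel k m) := by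
    intro Q
    letI : Fintype (NQ Q) := Fintype.ofFinite _
    have hmb := CF_mb Q hm
    obtain ⟨t, h1, h2⟩ := nA_trE (p := p) (k := k) (A := NQ Q) (m := mb Q m)
      (fun h x => hmb h x)
    refine ⟨t, h1, ?_⟩
    rw [h2]
    unfold WQ
    rw [proj_zel]
  choose w hw1 hw2 using hQ
  have hwc : ∀ T ∈ D, ∀ h ∈ (⊤ : Subgroup A), w (cg h T) = w T := by
    intro T _ h _
    have h1 := CCAux.nA_cg (p := p) h T (m := m)
      (fun x => hm h x)
    rw [hw1, hw1] at h1
    have h2 : Nat.card (NQ (cg h T)) = Nat.card (NQ T) := by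
      have e1 := CCAux.card_NQ (cg h T)
      have e2 := CCAux.card_NQ T
      rw [← cg_normalizer, card_cg, card_cg, ← e2] at e1
      exact Nat.eq_of_mul_eq_mul_right Nat.card_pos e1
    rw [h2] at h1
    have hpos : (Nat.card (NQ T) : ℤ) ≠ 0 := by
      exact_mod_cast (Nat.card_pos (α := NQ T)).ne'
    exact mul_left_cancel₀ hpos h1
  have h3 := sum_crepZ (⊤ : Subgroup A) D
    (fun T hT h _ => by
      rw [Finset.mem_filter] at hT ⊢
      exact ⟨Finset.mem_univ _, isPGroup_cg hT.2⟩) w hwc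
  have hcard : (Nat.card (⊤ : Subgroup A)) = Nat.card A :=
    Nat.card_congr Subgroup.topEquiv.toEquiv
  have h4 : wS p m = (Nat.card A : ℤ) * ∑ T ∈ TT p A, w T := by
    have h5 : TT p A = D.filter (fun Q => crep ⊤ Q = Q) := rfl
    rw [h5, ← hcard, ← h3]
    unfold wS
    rw [finsum_eq_sum_of_fintype, ← Finset.sum_filter]
    refine Finset.sum_congr rfl (fun Q _ => ?_)
    rw [hw1, top_inf_eq, ← CCAux.card_NQ Q]
    push_cast
    ring
  refine ⟨t₀ - ∑ T ∈ TT p A, w T, ?_, ?_⟩
  · rw [ht₀, h4, hcard]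
    ring
  · unfold Lam
    push_cast
    rw [ht₀']
    congr 1
    exact Finset.sum_congr rfl (fun Q _ => hw2 Q)

end Pool.Agent.Lib.P0c8ca5.Se
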