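import Mathlib
import Pool.Agent.Lib.P0c8ca5Se.Gen

/-!
# Lin: `psi` of a class function as a sum over the classes

PROOF. `psi p` is additive and homogeneous (`eE`, `chS`, `nE`, `nA` are linear in `m`: `finsum_eq_sum_of_fintype`, `Finset.mul_sum`). `|A|` divides `psi p (ic d)` (`eE_dvd_cf`, `nA_dvd_cf`, `CF_ic`). `m = ∑ d ∈ T, m d * ic d`, `T` representatives of the classes (for instance `∑ over K : ConjClasses A`, `m (Quotient.out K) * ic (Quotient.out K)`). Every term `m d * psi p (ic d)` is
divisible by `p * |A|`: either `p ∣ m d` and `|A| ∣ psi p (ic d)`, or the hypothesis.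
-/

namespace Pool.Agent.Lib.P0c8ca5.Se

open Bx

namespace LinAux

variable {A : Type*} [Group A] [Finite A]

theorem nE_add (H : Subgroup A) (m m' : A → ℤ) :
    nE H (fun x => m x + m' x) = nE H m + nE H m' := by
  classical
  unfold nE
  rw [← finsum_add_distrib (Set.toFinite _) (Set.toFinite _)]
  refine finsum_congr fun t => ?_
  split_ifs <;> simp

theorem nE_mul (H : Subgroup A) (c : ℤ) (m : A → ℤ) :
    nE H (fun x => c * m x) = c * nE H m := by
  classical
  unfold nE
  rw [mul_finsum]
  refine finsum_congr fun t => ?_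
  split_ifs <;> simp

theorem nA_add (p : ℕ) (H : Subgroup A) (m m' : A → ℤ) :
    nA p H (fun x => m x + m' x) = nA p H m + nA p H m' := by
  classical
  unfold nA
  rw [← finsum_add_distrib (Set.toFinite _) (Set.toFinite _)]
  refine finsum_congr fun t => ?_
  split_ifs <;> simp

theorem nA_mul (p : ℕ) (H : Subgroup A) (c : ℤ) (m : A → ℤ) :
    nA p H (fun x => c * m x) = c * nA p H m := by
  classical
  unfold nA
  rw [mul_finsum]
  refine finsum_congr fun t => ?_
  split_ifs <;> simp

theorem chS_add (p : ℕ) (F G : Subgroup A → ℤ) :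
    chS p (fun U => F U + G U) = chS p F + chS p G := by
  classical
  unfold chS
  rw [← finsum_add_distrib (Set.toFinite _) (Set.toFinite _)]
  refine finsum_congr fun t => ?_
  split_ifs
  · ring
  · simp

theorem chS_mul (p : ℕ) (c : ℤ) (F : Subgroup A → ℤ) :
    chS p (fun U => c * F U) = c * chS p F := by
  classical
  unfold chS
  symm
  refine (mul_finsum _ c).trans ?_
  refine finsum_congr fun t => ?_
  split_ifs
  · ring
  · simp

theorem psi_add (p : ℕ) (m m' : A → ℤ) :
    psi p (fun x => m x + m' x) = psi p m + psi p m' := by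
  unfold psi eE
  rw [nA_add]
  have : (fun U : Subgroup A => nE U (fun x => m x + m' x)) = fun U => nE U m + nE U m' :=
    funext fun U => nE_add U m m'
  rw [this, chS_add]
  ring

theorem psi_mul (p : ℕ) (c : ℤ) (m : A → ℤ) :
    psi p (fun x => c * m x) = c * psi p m := by
  unfold psi eE
  rw [nA_mul]
  have : (fun U : Subgroup A => nE U (fun x => c * m x)) = fun U => c * nE U m :=
    funext fun U => nE_mul U c m
  rw [this, chS_mul]
  ring

theorem psi_sum (p : ℕ) {ι : Type*} (s : Finset ι) (c : ι → ℤ) (f : ι → A → ℤ) :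
    psi p (fun x => ∑ i ∈ s, c i * f i x) = ∑ i ∈ s, c i * psi p (f i) := by
  classical
  induction s using Finset.induction_on with
  | empty =>
    simp only [Finset.sum_empty]
    have := psi_mul p 0 (fun _ : A => (0 : ℤ))
    simpa using this
  | insert a s ha ih =>
    rw [Finset.sum_insert ha, ← ih, ← psi_mul, ← psi_add]
    congr 1
    funext x
    rw [Finset.sum_insert ha]

theorem expand (m : A → ℤ) (hm : CF m) [Fintype (ConjClasses A)] :
    m = fun x => ∑ K : ConjClasses A, m (Quotient.out K) * ic (Quotient.out K) x := by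
  classical
  funext x
  have hout : ∀ K : ConjClasses A, ConjClasses.mk (Quotient.out K) = K := fun K => Quotient.out_eq K
  rw [Finset.sum_eq_single (ConjClasses.mk x)]
  · have h1 : IsConj (Quotient.out (ConjClasses.mk x)) x :=
      ConjClasses.mk_eq_mk_iff_isConj.1 (hout _)
    have h2 : ic (Quotient.out (ConjClasses.mk x)) x = 1 := if_pos h1
    rw [h2, mul_one]
    obtain ⟨g, hg⟩ := isConj_iff.1 h1
    have h3 : m (g * Quotient.out (ConjClasses.mk x) * g⁻¹)
        = m (Quotient.out (ConjClasses.mk x)) := hm _ _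
    rw [hg] at h3
    exact h3
  · intro K _ hK
    have h2 : ic (Quotient.out K) x = 0 := by
      refine if_neg fun h => hK ?_
      rw [← hout K]
      exact ConjClasses.mk_eq_mk_iff_isConj.2 h
    rw [h2, mul_zero]
  · intro h
    exact absurd (Finset.mem_univ _) h

end LinAux

theorem psi_lin {p : ℕ} [Fact p.Prime] {A : Type*} [Group A] [Finite A] {m : A → ℤ} (hm : CF m)
    (h : ∀ d : A, ¬ (p : ℤ) ∣ m d → (p : ℤ) * (Nat.card A : ℤ) ∣ psi p (ic d)) :
    (p : ℤ) * (Nat.card A : ℤ) ∣ psi p m := by
  classical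
  have : Finite (ConjClasses A) := Quotient.finite _
  cases nonempty_fintype (ConjClasses A)
  rw [LinAux.expand m hm, LinAux.psi_sum]
  refine Finset.dvd_sum fun K _ => ?_
  by_cases hd : (p : ℤ) ∣ m (Quotient.out K)
  · have h1 : (Nat.card A : ℤ) ∣ psi p (ic (Quotient.out K)) :=
      dvd_sub (eE_dvd_cf (CF_ic _)) (nA_dvd_cf (CF_ic _))
    exact mul_dvd_mul hd h1
  · exact Dvd.dvd.mul_left (h _ hd) _

theorem psi_comb {p : ℕ} {A : Type*} [Group A] [Finite A] (m m' : A → ℤ) (c : ℤ) :
    psi p (fun x => m x - c * m' x) = psi p m - c * psi p m' := by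
  have h1 : (fun x => m x - c * m' x) = fun x => m x + (-c) * m' x := by
    funext x
    ring
  rw [h1, LinAux.psi_add, LinAux.psi_mul]
  ring

end Pool.Agent.Lib.P0c8ca5.Se
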