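import Mathlib
import Pool.Agent.Lib.P0c8ca5Se.Defs
import Pool.Agent.Lib.P0c8ca5V.TDefs
import Pool.Agent.Lib.P0c8ca5.Sect
import Pool.Agent.Lib.P0c8ca5Bw.NilB

/-!
# PrA: the projection of class sums to `N(D)/D`

PROOF. `proj_zel_cent`: `coeff_proj` (P0c8ca5.Sect); `D` acts by conjugation on the `x` with `n⁻¹ * x ∈ D`, the function `f` is constant on the orbits, the fixed points are the `x ∈ C(D)` (`sum_eq_sum_fixed` of P0c8ca5.Basic; this is the argument of `hasBr_of_proj`, P0c8ca5.Official, and `proj_res`, P0c8ca5Bw.NilB: `proj D (resS C(D) z) = proj D z` for `z` fixed by `D`, which gives the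
theorem at once). `proj_cj`: `z` invariant: the coefficient of `proj (cg g D) z` at the class of `g * n * g⁻¹` is that of `proj D z` at the class of `n` (`coeff_proj`, substitution `x ↦ g * x * g⁻¹`).
-/

namespace Pool.Agent.Lib.P0c8ca5.Se

open MonoidAlgebra Bx

variable {p : ℕ} [Fact p.Prime] {k : Type*} [Field k] [CharP k p] {A : Type*} [Group A] [Fintype A]

open Classical in
theorem proj_zel_cent {D : Subgroup A} (hD : IsPGroup p D) {f : A → ℤ} (hf : CF f) {n : A}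
    (hn : n ∈ Subgroup.normalizer (D : Set A)) :
    (proj D (zel k f)).coeff (qm D n hn)
      = ∑ x : A, if n⁻¹ * x ∈ D ∧ x ∈ Subgroup.centralizer (D : Set A) then ((f x : ℤ) : k) else 0 := by
  have hn' := Subgroup.mem_normalizer_iff.1 hn
  rw [coeff_proj]
  have h1 := sum_conj_eq (p := p) hD (fun x => if n⁻¹ * x ∈ D then (zel k f).coeff x else 0) ?_
    (Finset.univ.filter (fun x => x ∈ Subgroup.centralizer (D : Set A))) (fun x => by simp)
  · refine Eq.trans h1 ?_
    rw [Finset.sum_filter]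
    refine Finset.sum_congr rfl fun x _ => ?_
    rw [zel_coeff]
    by_cases hx : x ∈ Subgroup.centralizer (D : Set A)
    · by_cases hx2 : n⁻¹ * x ∈ D
      · rw [if_pos hx, if_pos hx2, if_pos ⟨hx2, hx⟩]
      · rw [if_pos hx, if_neg hx2, if_neg (fun h => hx2 h.1)]
    · rw [if_neg hx, if_neg (fun h => hx h.2)]
  · intro d hd x
    have h5 : n⁻¹ * d * n ∈ D := by
      apply (hn' _).2
      have e2 : n * (n⁻¹ * d * n) * n⁻¹ = d := by group
      rw [e2]; exact hd
    have hcond : n⁻¹ * (d * x * d⁻¹) ∈ D ↔ n⁻¹ * x ∈ D := by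
      have e1 : n⁻¹ * (d * x * d⁻¹) = (n⁻¹ * d * n) * (n⁻¹ * x) * d⁻¹ := by group
      rw [e1, D.mul_mem_cancel_right (D.inv_mem hd), D.mul_mem_cancel_left h5]
    simp only [hcond, zel_coeff, hf d x]

theorem proj_cj {D : Subgroup A} {z : MonoidAlgebra k A} (hz : z ∈ fixAlg k (⊤ : Subgroup A) ⊤)
    (g : A) (h : proj D z = 0) : proj (cg g D) z = 0 := by
  classical
  ext w
  obtain ⟨n', hn', rfl⟩ := qm_surj w
  rw [coeff_proj]
  have hzI := (mem_fixAlg.1 hz).2
  have hn : g⁻¹ * n' * g ∈ Subgroup.normalizer (D : Set A) := by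
    rw [Subgroup.mem_normalizer_iff]
    intro x
    have h1 := (Subgroup.mem_normalizer_iff.1 hn') (g * x * g⁻¹)
    have e1 : g⁻¹ * (g * x * g⁻¹) * g = x := by group
    have e2 : g⁻¹ * (n' * (g * x * g⁻¹) * n'⁻¹) * g = g⁻¹ * n' * g * x * (g⁻¹ * n' * g)⁻¹ := by
      group
    rw [mem_cg, mem_cg, e1, e2] at h1
    exact h1
  have h2 : (proj D z).coeff (qm D (g⁻¹ * n' * g) hn) = 0 := by rw [h]; rfl
  rw [coeff_proj] at h2
  have h3 : ∑ x : A, (if n'⁻¹ * x ∈ cg g D then z.coeff x else 0)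
      = ∑ x : A, (if (g⁻¹ * n' * g)⁻¹ * x ∈ D then z.coeff x else 0) := by
    refine (Fintype.sum_equiv (MulAut.conj g).toEquiv _ _ fun x => ?_).symm
    have e1 : (MulAut.conj g).toEquiv x = g * x * g⁻¹ := rfl
    have e2 : g⁻¹ * (n'⁻¹ * (g * x * g⁻¹)) * g = (g⁻¹ * n' * g)⁻¹ * x := by group
    rw [e1, hzI g (Subgroup.mem_top g) x]
    simp only [mem_cg, e2]
  rw [h3, h2]
  rfl

end Pool.Agent.Lib.P0c8ca5.Se
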