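import Mathlib
import Pool.Agent.Lib.P0c8ca5Se.PrA

/-!
# PrB: the projections of the classes of `d` and `u * d` are proportional

PROOF. Let `w = u * d`, `pr p w = d` (`u` a p-element, `d` p-regular, commuting), `C(w) ≤ C(d)` (`d` is a power of `w`), `D ≤ C(w)`, and `D` is a Sylow p-subgroup of `C(d)`, hence of `C(w)`.
(1) If `x ∈ C(D)` is conjugate to `w`, then `x = n * w * n⁻¹` with `n ∈ N(D)`: if `x = g * w * g⁻¹`, then `D` and `cg g D` are Sylow p-subgroups of `C(x)` (same order), so `cg (h * g) D = D` for some `h ∈ C(x)`. The same for `d`.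
(2) If `x, x' ∈ C(D)` are p-regular and `n⁻¹ * x`, `n⁻¹ * x' ∈ D`, then `x = x'`: `x⁻¹ * x' ∈ D ∩ C(D)` commutes with `x` (as `x ∈ C(D)`), so it commutes with `x'` too and is p-regular and a p-element.
(3) So (`proj_zel_cent`) the coefficient of `proj D (zel k (ic d))` at the class of `n` is `1` if there is `n' ∈ N(D)` with `n⁻¹ * (n' * d * n'⁻¹) ∈ D` and `0` otherwise. The coefficient of `proj D (zel k (ic w))` is the number of `x ∈ C(D)` conjugate to `w` with `n⁻¹ * x ∈ D`; the p-regular part of such an `x` is in `C(D)`, conjugate to `d`, and in `n D` (the p-part of `x` is `n' * u * n'⁻¹ ∈ D`), so it is the unique element `d'` of (2)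
if there is one, else there is no `x`. If `d' = n' * d * n'⁻¹`, `n' ∈ N(D)`: the `x` are the `n'' * w * n''⁻¹`, `n'' ∈ N(D)`, `n'' * d * n''⁻¹ = d'`: conjugation with `n'⁻¹` gives the orbit of `w` under `N(D) ∩ C(d)`; its order `c` is the index of `N(D) ∩ C(w)` in `N(D) ∩ C(d)`. It does not depend on `n`, and `p` does not divide it: `D ≤ N(D) ∩ C(w)`, and `p` does not divide `|C(d) : D|` (`hD.ndvd`).
-/

namespace Pool.Agent.Lib.P0c8ca5.Se

open MonoidAlgebra Bx

namespace PrBAux

section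
variable {p : ℕ} [Fact p.Prime] {A : Type*} [Group A]

theorem mem_cent1 {d x : A} : x ∈ Subgroup.centralizer ({d} : Set A) ↔ d * x = x * d := by
  rw [Subgroup.mem_centralizer_iff]
  simp

/-- an element commuting with `u * d` commutes with `d` -/
theorem cent_le {d u : A} (hd : Preg p d) (hu : ∃ N : ℕ, u ^ p ^ N = 1) (hc : u * d = d * u) :
    Subgroup.centralizer ({u * d} : Set A) ≤ Subgroup.centralizer ({d} : Set A) := by
  intro g hg
  rw [mem_cent1] at hg ⊢
  obtain ⟨N, hN⟩ := hu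
  have h1 : Commute (u * d) g := hg
  have h2 : Commute ((u * d) ^ p ^ N) g := h1.pow_left _
  rw [(show Commute u d from hc).mul_pow, hN, one_mul] at h2
  have hcop : Nat.Coprime (p ^ N) (orderOf d) :=
    Nat.Coprime.pow_left N (((Fact.out : p.Prime).coprime_iff_not_dvd).2 hd)
  obtain ⟨m, hm⟩ := exists_pow_eq_self_of_coprime hcop
  have h3 : Commute ((d ^ p ^ N) ^ m) g := h2.pow_left m
  rw [hm] at h3
  exact h3

/-- the centralizer is invariant under the normalizer -/
theorem conj_cent {D : Subgroup A} {g x : A} (hg : g ∈ Subgroup.normalizer (D : Set A))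
    (hx : x ∈ Subgroup.centralizer (D : Set A)) : g * x * g⁻¹ ∈ Subgroup.centralizer (D : Set A) := by
  rw [Subgroup.mem_centralizer_iff] at hx ⊢
  intro y hy
  have h1 : g⁻¹ * y * g ∈ (D : Set A) := by
    have h2 := (Subgroup.mem_normalizer_iff.1 (Subgroup.inv_mem _ hg) y).1 hy
    rw [inv_inv] at h2
    exact h2
  have h3 := hx _ h1
  calc y * (g * x * g⁻¹) = g * (g⁻¹ * y * g * x) * g⁻¹ := by group
    _ = g * (x * (g⁻¹ * y * g)) * g⁻¹ := by rw [h3]
    _ = g * x * g⁻¹ * y := by group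

theorem conj_D {D : Subgroup A} {g x : A} (hg : g ∈ Subgroup.normalizer (D : Set A))
    (hx : x ∈ D) : g * x * g⁻¹ ∈ D := (Subgroup.mem_normalizer_iff.1 hg x).1 hx

/-- fusion in `C(D)` is controlled by `N(D)` -/
theorem fuse [Finite A] {v x : A} {D : Subgroup A}
    (hD : IsSyl p (Subgroup.centralizer ({v} : Set A)) D)
    (hx : x ∈ Subgroup.centralizer (D : Set A)) (h : IsConj v x) :
    ∃ n ∈ Subgroup.normalizer (D : Set A), n * v * n⁻¹ = x := by
  obtain ⟨g, hg⟩ := isConj_iff.1 h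
  have h1 : cg g⁻¹ D ≤ Subgroup.centralizer ({v} : Set A) := by
    intro y hy
    rw [mem_cg, inv_inv] at hy
    rw [mem_cent1]
    have h2 := (Subgroup.mem_centralizer_iff.1 hx) _ hy
    have h3 : v = g⁻¹ * x * g := by rw [← hg]; group
    rw [h3]
    calc g⁻¹ * x * g * y = g⁻¹ * (x * (g * y * g⁻¹)) * g := by group
      _ = g⁻¹ * (g * y * g⁻¹ * x) * g := by rw [h2]
      _ = y * (g⁻¹ * x * g) := by group
  obtain ⟨c, hc, hle⟩ := hD.conj _ h1 (isPGroup_cg hD.isPGroup)
  have h4 : cg g⁻¹ D = cg c D := eq_of_le_of_card hle (by rw [card_cg, card_cg])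
  refine ⟨g * c, ?_, ?_⟩
  · rw [← cg_eq_self_iff, ← cg_cg, ← h4, cg_cg, mul_inv_cancel, cg_one]
  · rw [mem_cent1] at hc
    calc g * c * v * (g * c)⁻¹ = g * (c * v) * c⁻¹ * g⁻¹ := by group
      _ = g * (v * c) * c⁻¹ * g⁻¹ := by rw [hc]
      _ = g * v * g⁻¹ := by group
      _ = x := hg

/-- `D` is also a Sylow subgroup of the centralizer of `u * d` -/
theorem syl_w [Finite A] {d u : A} (hd : Preg p d) {D : Subgroup A}
    (hD : IsSyl p (Subgroup.centralizer ({d} : Set A)) D) (hu : u ∈ D)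
    (hc : ∀ x ∈ D, x * u = u * x) :
    IsSyl p (Subgroup.centralizer ({u * d} : Set A)) D := by
  have hud : u * d = d * u := (mem_cent1.1 (hD.le hu)).symm
  have hpu : ∃ N : ℕ, u ^ p ^ N = 1 := by
    obtain ⟨N, hN⟩ := hD.isPGroup ⟨u, hu⟩
    exact ⟨N, by simpa using congrArg Subtype.val hN⟩
  obtain ⟨P, hP⟩ := exists_isSyl (p := p) (Subgroup.centralizer ({u * d} : Set A))
  refine hP.of_card ?_ hD.isPGroup (hD.card_le (hP.le.trans (cent_le hd hpu hud)) hP.isPGroup)
  intro x hx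
  rw [mem_cent1]
  have h1 := mem_cent1.1 (hD.le hx)
  calc u * d * x = u * (d * x) := by group
    _ = u * (x * d) := by rw [h1]
    _ = u * x * d := by group
    _ = x * u * d := by rw [hc x hx]
    _ = x * (u * d) := by group

/-- two p-regular elements of `C(D)` in the same coset of `D` are equal -/
theorem uniq {D : Subgroup A} (hD : IsPGroup p D) {n x x' : A}
    (hx : x ∈ Subgroup.centralizer (D : Set A)) (hr : Preg p x) (hr' : Preg p x')
    (h : n⁻¹ * x ∈ D) (h' : n⁻¹ * x' ∈ D) : x = x' := by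
  have hy : x⁻¹ * x' ∈ D := by
    have h1 := D.mul_mem (D.inv_mem h) h'
    have e : (n⁻¹ * x)⁻¹ * (n⁻¹ * x') = x⁻¹ * x' := by group
    rwa [e] at h1
  have hcm : x⁻¹ * x' * x = x * (x⁻¹ * x') := (Subgroup.mem_centralizer_iff.1 hx) _ hy
  have hcm2 : Commute x⁻¹ x' := by
    have h1 : x' * x = x * x' := by
      calc x' * x = x * (x⁻¹ * x' * x) := by group
        _ = x * (x * (x⁻¹ * x')) := by rw [hcm]
        _ = x * x' := by group
    exact (show Commute x x' from h1.symm).inv_left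
  have h1 : (x⁻¹ * x') ^ (orderOf x * orderOf x') = 1 := by
    rw [hcm2.mul_pow, inv_pow, pow_mul, pow_orderOf_eq_one, one_pow, inv_one, one_mul,
      mul_comm (orderOf x), pow_mul, pow_orderOf_eq_one, one_pow]
  obtain ⟨N, hN⟩ := hD ⟨_, hy⟩
  have hN' : (x⁻¹ * x') ^ p ^ N = 1 := by simpa using congrArg Subtype.val hN
  have hp : p.Prime := Fact.out
  have hcop : Nat.Coprime (p ^ N) (orderOf x * orderOf x') := by
    refine Nat.Coprime.pow_left N ((hp.coprime_iff_not_dvd).2 ?_)
    intro h2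
    rcases hp.dvd_mul.1 h2 with h2 | h2
    · exact hr h2
    · exact hr' h2
  have h3 : orderOf (x⁻¹ * x') ∣ 1 := by
    rw [← Nat.Coprime.gcd_eq_one hcop]
    exact Nat.dvd_gcd (orderOf_dvd_of_pow_eq_one hN') (orderOf_dvd_of_pow_eq_one h1)
  have h4 : x⁻¹ * x' = 1 := orderOf_eq_one_iff.1 (Nat.dvd_one.1 h3)
  exact inv_mul_eq_one.1 h4

/-- the conjugates of `w` under `H` -/
theorem orb_card [Finite A] (H : Subgroup A) (w : A) :
    ({x | ∃ h ∈ H, h * w * h⁻¹ = x} : Set A).ncard =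
      (H ⊓ Subgroup.centralizer ({w} : Set A)).relIndex H := by
  let _ : MulAction ↥H A := MulAction.compHom A ((MulAut.conj : A →* MulAut A).comp H.subtype)
  have hs : ∀ (h : ↥H) (x : A), h • x = (h : A) * x * (h : A)⁻¹ := fun h x => rfl
  have h1 := MulAction.index_stabilizer ↥H w
  have h2 : MulAction.stabilizer ↥H w =
      (H ⊓ Subgroup.centralizer ({w} : Set A)).subgroupOf H := by
    ext h
    rw [MulAction.mem_stabilizer_iff, hs, Subgroup.mem_subgroupOf, Subgroup.mem_inf, mem_cent1,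
      mul_inv_eq_iff_eq_mul]
    exact ⟨fun h3 => ⟨h.2, h3.symm⟩, fun h3 => h3.2.symm⟩
  have h3 : (MulAction.orbit ↥H w) = ({x | ∃ h ∈ H, h * w * h⁻¹ = x} : Set A) := by
    ext x
    constructor
    · rintro ⟨h, rfl⟩
      exact ⟨h, h.2, rfl⟩
    · rintro ⟨h, hh, rfl⟩
      exact ⟨⟨h, hh⟩, rfl⟩
  rw [← h3, ← h1, h2]
  rfl

end

end PrBAux

open PrBAux

theorem proj_prop {p : ℕ} [Fact p.Prime] {k : Type*} [Field k] [CharP k p] {A : Type*} [Group A]
    [Fintype A] {d u : A} (hd : Preg p d) {D : Subgroup A}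
    (hD : IsSyl p (Subgroup.centralizer ({d} : Set A)) D) (hu : u ∈ D)
    (hc : ∀ x ∈ D, x * u = u * x) :
    ∃ c : ℕ, ¬ p ∣ c ∧ proj D (zel k (ic (u * d))) = (c : k) • proj D (zel k (ic d)) := by
  classical
  have hud : u * d = d * u := (mem_cent1.1 (hD.le hu)).symm
  have hDw := syl_w hd hD hu hc
  -- elements of `C(D)`
  have hdC : d ∈ Subgroup.centralizer (D : Set A) := by
    rw [Subgroup.mem_centralizer_iff]
    intro y hy
    exact (mem_cent1.1 (hD.le hy)).symm
  have huC : u ∈ Subgroup.centralizer (D : Set A) := by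
    rw [Subgroup.mem_centralizer_iff]
    intro y hy
    exact hc y hy
  have hwC : u * d ∈ Subgroup.centralizer (D : Set A) := Subgroup.mul_mem _ huC hdC
  -- the number `c`
  set H : Subgroup A := Subgroup.normalizer (D : Set A) ⊓ Subgroup.centralizer ({d} : Set A)
    with hH
  let O : Finset A := Finset.univ.filter fun x => ∃ h ∈ H, h * (u * d) * h⁻¹ = x
  have hO : ∀ x, x ∈ O ↔ ∃ h ∈ H, h * (u * d) * h⁻¹ = x := fun x => by
    simp only [O, Finset.mem_filter, Finset.mem_univ, true_and]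
  have hOc : O.card = (H ⊓ Subgroup.centralizer ({u * d} : Set A)).relIndex H := by
    rw [← orb_card H (u * d), ← Set.ncard_coe_finset]
    congr 1
    ext x
    exact hO x
  have hDH : D ≤ H := le_inf Subgroup.le_normalizer hD.le
  have hpc : ¬ p ∣ O.card := by
    rw [hOc]
    intro h
    apply hD.ndvd
    rw [← Subgroup.relIndex_mul_relIndex D H (Subgroup.centralizer ({d} : Set A)) hDH inf_le_right]
    refine Dvd.dvd.mul_right (h.trans ?_) _
    rw [← Subgroup.relIndex_mul_relIndex D (H ⊓ Subgroup.centralizer ({u * d} : Set A)) H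
      (le_inf hDH hDw.le) inf_le_left]
    exact Dvd.intro_left _ rfl
  -- the sets of the elements counted
  let S : A → A → Finset A := fun v n =>
    Finset.univ.filter fun x => (n⁻¹ * x ∈ D ∧ x ∈ Subgroup.centralizer (D : Set A)) ∧ IsConj v x
  have hS : ∀ v n x, x ∈ S v n ↔
      (n⁻¹ * x ∈ D ∧ x ∈ Subgroup.centralizer (D : Set A)) ∧ IsConj v x := fun v n x => by
    simp only [S, Finset.mem_filter, Finset.mem_univ, true_and]
  have hco : ∀ (v : A) {n : A} (hn : n ∈ Subgroup.normalizer (D : Set A)),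
      (proj D (zel k (ic v))).coeff (qm D n hn) = ((S v n).card : k) := by
    intro v n hn
    rw [proj_zel_cent hD.isPGroup (CF_ic v) hn, Finset.card_filter, Nat.cast_sum]
    refine Finset.sum_congr rfl fun x _ => ?_
    by_cases h1 : n⁻¹ * x ∈ D ∧ x ∈ Subgroup.centralizer (D : Set A)
    · rw [if_pos h1]
      by_cases h2 : IsConj v x
      · rw [if_pos ⟨h1, h2⟩]
        unfold ic
        rw [if_pos h2]
        simp
      · rw [if_neg fun h => h2 h.2]
        unfold ic
        rw [if_neg h2]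
        simp
    · rw [if_neg h1, if_neg fun h => h1 h.1]
      simp
  -- from `w` to `d`
  have hwd : ∀ n x g, g ∈ Subgroup.normalizer (D : Set A) → g * (u * d) * g⁻¹ = x →
      n⁻¹ * x ∈ D → g * d * g⁻¹ ∈ S d n := by
    intro n x g hg hx hn
    rw [hS]
    refine ⟨⟨?_, conj_cent hg hdC⟩, isConj_iff.2 ⟨g, rfl⟩⟩
    have h1 := D.mul_mem hn (D.inv_mem (conj_D hg hu))
    have e : n⁻¹ * x * (g * u * g⁻¹)⁻¹ = n⁻¹ * (g * d * g⁻¹) := by
      rw [← hx, hud]
      group
    rwa [e] at h1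
  have hreg : ∀ n x, x ∈ S d n → Preg p x := by
    intro n x hx
    obtain ⟨g, hg⟩ := isConj_iff.1 ((hS d n x).1 hx).2
    rw [← hg]
    unfold Preg at hd ⊢
    have h1 := MulEquiv.orderOf_eq (MulAut.conj g) d
    rw [MulAut.conj_apply] at h1
    rwa [h1]
  have huniq : ∀ n x x', x ∈ S d n → x' ∈ S d n → x = x' := by
    intro n x x' hx hx'
    have h1 := (hS d n x).1 hx
    have h2 := (hS d n x').1 hx'
    exact uniq hD.isPGroup h1.1.2 (hreg n x hx) (hreg n x' hx') h1.1.1 h2.1.1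
  have key : ∀ n, (S (u * d) n).card = O.card * (S d n).card := by
    intro n
    rcases Finset.eq_empty_or_nonempty (S d n) with hem | ⟨d', hd'⟩
    · rw [hem, Finset.card_empty, mul_zero, Finset.card_eq_zero, Finset.eq_empty_iff_forall_notMem]
      intro x hx
      have h1 := (hS (u * d) n x).1 hx
      obtain ⟨g, hg, hgx⟩ := fuse hDw h1.1.2 h1.2
      have h2 := hwd n x g hg hgx h1.1.1
      rw [hem] at h2
      exact absurd h2 (Finset.notMem_empty _)
    · have h1 : (S d n).card = 1 := by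
        rw [Finset.card_eq_one]
        refine ⟨d', ?_⟩
        ext x
        rw [Finset.mem_singleton]
        exact ⟨fun hx => huniq n x d' hx hd', fun hx => by rw [hx]; exact hd'⟩
      rw [h1, mul_one]
      have hd2 := (hS d n d').1 hd'
      obtain ⟨g0, hg0, hgd⟩ := fuse hD hd2.1.2 hd2.2
      symm
      refine Finset.card_bij (fun y _ => g0 * y * g0⁻¹) ?_ ?_ ?_
      · intro y hy
        obtain ⟨h, hh, rfl⟩ := (hO y).1 hy
        have hhN : h ∈ Subgroup.normalizer (D : Set A) := (Subgroup.mem_inf.1 hh).1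
        have hhC := mem_cent1.1 (Subgroup.mem_inf.1 hh).2
        have hghN : g0 * h ∈ Subgroup.normalizer (D : Set A) := Subgroup.mul_mem _ hg0 hhN
        have e1 : g0 * (h * (u * d) * h⁻¹) * g0⁻¹ = g0 * h * (u * d) * (g0 * h)⁻¹ := by group
        rw [hS, e1]
        refine ⟨⟨?_, conj_cent hghN hwC⟩, isConj_iff.2 ⟨g0 * h, rfl⟩⟩
        have h3 : h * d * h⁻¹ = d := by
          rw [← hhC]
          group
        have e2 : n⁻¹ * (g0 * h * (u * d) * (g0 * h)⁻¹) =
            n⁻¹ * d' * (g0 * h * u * (g0 * h)⁻¹) := by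
          rw [← hgd, hud]
          calc n⁻¹ * (g0 * h * (d * u) * (g0 * h)⁻¹)
              = n⁻¹ * (g0 * (h * d * h⁻¹) * g0⁻¹) * (g0 * h * u * (g0 * h)⁻¹) := by group
            _ = n⁻¹ * (g0 * d * g0⁻¹) * (g0 * h * u * (g0 * h)⁻¹) := by rw [h3]
        rw [e2]
        exact D.mul_mem hd2.1.1 (conj_D hghN hu)
      · intro y _ y' _ h
        exact mul_left_cancel (mul_right_cancel h)
      · intro x hx
        have h3 := (hS (u * d) n x).1 hx
        obtain ⟨g, hg, hgx⟩ := fuse hDw h3.1.2 h3.2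
        have h4 := huniq n _ _ (hwd n x g hg hgx h3.1.1) hd'
        refine ⟨g0⁻¹ * x * g0, ?_, by group⟩
        rw [hO]
        refine ⟨g0⁻¹ * g, ?_, ?_⟩
        · rw [hH, Subgroup.mem_inf]
          refine ⟨Subgroup.mul_mem _ (Subgroup.inv_mem _ hg0) hg, ?_⟩
          rw [mem_cent1]
          rw [← hgd] at h4
          calc d * (g0⁻¹ * g) = g0⁻¹ * (g0 * d * g0⁻¹) * g := by group
            _ = g0⁻¹ * (g * d * g⁻¹) * g := by rw [h4]
            _ = g0⁻¹ * g * d := by group
        · rw [← hgx]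
          group
  refine ⟨O.card, hpc, ?_⟩
  ext q
  obtain ⟨n, hn, rfl⟩ := qm_surj q
  rw [MonoidAlgebra.coeff_smul, Finsupp.smul_apply, hco, hco, key n, Nat.cast_mul, smul_eq_mul]

end Pool.Agent.Lib.P0c8ca5.Se
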