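import Mathlib
import Pool.Agent.Lib.P0c8ca5V.TFin

/-!
# Lf: the functional `Lam` and p-th powers

PROOF. `z = ∑ b, z * b` over the blocks (`WSumAux.sum_blocks` as in `Lam_of_blk`, V.TFin), `z * b = c_b • b + w_b`, `w_b` central nilpotent (`blk_scalar`). `z ^ p = ∑ b, (z * b) ^ p` (`(z * b) * (z * b') = 0` for different blocks; or `z ^ p = ∑ b, z ^ p * b`, `z ^ p * b = (z * b) ^ p`), `(z * b) ^ p = c_b ^ p • b + w_b ^ p` (commuting elements in characteristic
`p`: `Commute.add_pow_char..`/`add_pow_char_of_commute`). `Lam_add`, `Lam_sum`, `Lam_smul`, `Lam_nilp`: `Lam (z ^ p) = ∑ c_b ^ p * Lam b`, `Lam b = (gp p b : k)` (`Lam_blk`), and `(gp p b : k) ^ p = (gp p b : k)`; `sum_pow_char`/`add_pow_char`: this is `(∑ c_b * Lam b) ^ p = (Lam z) ^ p`.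
-/

namespace Pool.Agent.Lib.P0c8ca5.Se

open MonoidAlgebra TFinAux

namespace LfAux

theorem b_pow {R : Type*} [Monoid R] {b : R} (h : b * b = b) {n : ℕ} (hn : n ≠ 0) :
    b ^ n = b := by
  induction n with
  | zero => exact absurd rfl hn
  | succ n ih =>
    by_cases h0 : n = 0
    · rw [h0, zero_add, pow_one]
    · rw [pow_succ, ih h0, h]

theorem int_pow {p : ℕ} {k : Type*} [Field k] [Fact p.Prime] [CharP k p] (n : ℤ) :
    (n : k) ^ p = (n : k) := by
  haveI : ExpChar k p := ExpChar.prime (Fact.out : p.Prime)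
  have h := map_intCast (frobenius k p) n
  rwa [frobenius_def] at h

theorem pow_blk {p : ℕ} {k : Type*} [Field k] {A : Type*} [Group A] [Fintype A]
    [Fact p.Prime] [CharP k p] [IsAlgClosed k] {z b : MonoidAlgebra k A}
    (hz : z ∈ fixAlg k (⊤ : Subgroup A) ⊤) (hb : IsBlock (⊤ : Subgroup A) b) :
    Lam p (z ^ p * b) = (Lam p (z * b)) ^ p := by
  have hp : p.Prime := Fact.out
  obtain ⟨c, w, hw1, hw2, hw3⟩ := blk_scalar hb hz
  have hchar : CharP (MonoidAlgebra k A) p :=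
    charP_of_injective_algebraMap (algebraMap k (MonoidAlgebra k A)).injective p
  have hzb : Commute z b := commute_of (mem_fixAlg.1 hz).1 (mem_fixAlg.1 hb.mem).2
  have hbw : Commute b w := commute_of (mem_fixAlg.1 hb.mem).1 (mem_fixAlg.1 hw1).2
  have hcbw : Commute (c • b) w := hbw.smul_left c
  have h1 : z ^ p * b = c ^ p • b + w ^ p := by
    calc z ^ p * b = z ^ p * b ^ p := by rw [b_pow hb.idem hp.ne_zero]
      _ = (z * b) ^ p := (hzb.mul_pow p).symm
      _ = (c • b + w) ^ p := by rw [hw3]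
      _ = (c • b) ^ p + w ^ p := add_pow_char_of_commute p hcbw
      _ = c ^ p • b + w ^ p := by rw [smul_pow, b_pow hb.idem hp.ne_zero]
  have hwp : w ^ p ∈ fixAlg k (⊤ : Subgroup A) ⊤ := (fixAlg k (⊤ : Subgroup A) ⊤).pow_mem hw1 p
  have hwn : IsNilpotent (w ^ p) := by
    obtain ⟨n, hn⟩ := hw2
    exact ⟨n, by rw [← pow_mul, mul_comm, pow_mul, hn, zero_pow hp.ne_zero]⟩
  rw [h1, hw3, Lam_add, Lam_smul, Lam_nilp hwp hwn, add_zero, Lam_add, Lam_smul,
    Lam_nilp hw1 hw2, add_zero, mul_pow, Lam_blk hb, int_pow]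

end LfAux

open LfAux

theorem Lam_pow {p : ℕ} {k : Type*} [Field k] {A : Type*} [Group A] [Fintype A]
    [Fact p.Prime] [CharP k p] [IsAlgClosed k] {z : MonoidAlgebra k A}
    (hz : z ∈ fixAlg k (⊤ : Subgroup A) ⊤) : Lam p (z ^ p) = (Lam p z) ^ p := by
  classical
  haveI : ExpChar k p := ExpChar.prime (Fact.out : p.Prime)
  let Bl : Finset (MonoidAlgebra k A) := (finite_isBlock (k := k) (⊤ : Subgroup A)).toFinset
  have hBl : ∀ b, b ∈ Bl ↔ IsBlock (⊤ : Subgroup A) b ∧ b * 1 ≠ 0 := by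
    intro b
    rw [Set.Finite.mem_toFinset, mul_one]
    exact ⟨fun hb => ⟨hb, IsBlock.ne_zero hb⟩, fun hb => hb.1⟩
  have h1 := WSumAux.sum_blocks (p := p) (fixAlg k (⊤ : Subgroup A) ⊤).one_mem (one_mul 1) Bl hBl
  have h2 : ∀ y : MonoidAlgebra k A, y = ∑ b ∈ Bl, y * b := by
    intro y
    rw [← Finset.mul_sum, h1, mul_one]
  have h3 : ∀ y : MonoidAlgebra k A, Lam p y = ∑ b ∈ Bl, Lam p (y * b) := by
    intro y
    rw [← Lam_sum, ← h2 y]
  rw [h3 (z ^ p), h3 z, sum_pow_char]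
  exact Finset.sum_congr rfl fun b hb => pow_blk hz ((hBl b).1 hb).1

end Pool.Agent.Lib.P0c8ca5.Se
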