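import Mathlib
import Pool.Agent.Lib.P0c8ca5Se.Gen
import Pool.Agent.Lib.P0c8ca5Se.Lf
import Pool.Agent.Lib.P0c8ca5Gs.Cv
import Pool.Agent.Lib.P0c8ca5V.RelW

/-!
# Psi: the functional `psi` and p-th powers

PROOF of `psi_step`. Strong induction on `n` (model: `RelWAux.forthW`, V.RelW). Let `F Q = FF p m' Q - FF p m Q`. By `diff_eq_cf` the sum of all `F Q` is `(nL - wS)(m') - (nL - wS)(m) = |G| * (t' - t)` (`Lam_zel_cf`), and `(t' : k) = Lam (z ^ p + w) = (Lam z) ^ p + 0 = (t : k) ^ p = (t : k)` (`z = zel k m`; `Lam_add`, `Lam_nilp`, `Lam_pow`;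
`(t : k) ^ p = t`), so `p ∣ t' - t` (`CharP.intCast_eq_zero_iff`). For `Q ≠ ⊥` a p-subgroup the induction hypothesis for `NQ Q` (`CCAux.card_NQ_lt`), `mb Q m`, `mb Q m'` (`CF_mb`): `zel k (mb Q m') = proj Q (zel k m') = (proj Q z) ^ p + proj Q w` (`proj_zel` of V.TCnt, `TFinAux.proj_pow`, `proj_add`), `proj Q w` is in
`fixAlg` (`TFinAux.proj_mem`) and nilpotent (`TFinAux.proj_pow`). `sub_dvd` (V.ChOrb) with `FF_cg_cf` and the argument of `CCAux.FF_dvd` for the sum over `Q ≠ ⊥`. The rest is the term `Q = ⊥` (`FF_bot`).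

PROOF of `psi_pow`. One step: `m' = Gs.cvP m p`, `Gs.zel_cvP`, `Gs.CF_cvP`, `w = 0`, and `psi p m = (eE p m - eL p m) + (eL p m - nA p ⊤ m)` with `eE_eL_cf`. Then induction on `n`.
-/

namespace Pool.Agent.Lib.P0c8ca5.Se

open MonoidAlgebra Bx

universe u v

namespace PsiAux

theorem int_pow_char (p : ℕ) [Fact p.Prime] (k : Type*) [Field k] [CharP k p] (t : ℤ) :
    (t : k) ^ p = (t : k) := by
  have h1 : ((t : ℤ) : ZMod p) ^ p = (t : ZMod p) := ZMod.pow_card _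
  have h2 : (((t : ℤ) : ZMod p) ^ p - (t : ZMod p)) = 0 := by rw [h1, sub_self]
  have h3 : ((t ^ p - t : ℤ) : ZMod p) = 0 := by push_cast; exact h2
  have h4 : (p : ℤ) ∣ t ^ p - t := (ZMod.intCast_zmod_eq_zero_iff_dvd _ p).1 h3
  have h5 : ((t ^ p - t : ℤ) : k) = 0 := (CharP.intCast_eq_zero_iff k p _).2 h4
  push_cast at h5
  exact sub_eq_zero.1 h5

/-- the value of `Lam` of `z ^ p + w` -/
theorem dvd_top {p : ℕ} [Fact p.Prime] (k : Type v) [Field k] [IsAlgClosed k] [CharP k p]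
    {G : Type u} [Group G] [Finite G] {m m' : G → ℤ} (hm : CF m) (hm' : CF m')
    {w : MonoidAlgebra k G} (hw : w ∈ fixAlg k (⊤ : Subgroup G) ⊤) (hwn : IsNilpotent w)
    (e : zel k m' = (zel k m) ^ p + w) :
    (p : ℤ) * (Nat.card G : ℤ) ∣ (nL p (⊤ : Subgroup G) m' - wS p m')
      - (nL p (⊤ : Subgroup G) m - wS p m) := by
  have hF : Fintype G := Fintype.ofFinite G
  obtain ⟨t, ht1, ht2⟩ := Lam_zel_cf (p := p) (k := k) hm
  obtain ⟨t', ht1', ht2'⟩ := Lam_zel_cf (p := p) (k := k) hm'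
  have hz : zel k m ∈ fixAlg k (⊤ : Subgroup G) ⊤ := zel_mem hm
  have h1 : (t' : k) = (t : k) := by
    rw [ht2', e, TFinAux.Lam_add, TFinAux.Lam_nilp hw hwn, add_zero, Lam_pow hz, ← ht2,
      int_pow_char]
  have h2 : ((t' - t : ℤ) : k) = 0 := by
    push_cast
    rw [h1, sub_self]
  obtain ⟨c, hc⟩ := (CharP.intCast_eq_zero_iff k p _).1 h2
  refine ⟨c, ?_⟩
  rw [ht1', ht1, ← mul_sub, hc]
  ring

open Classical in
theorem FF_diff_dvd {p : ℕ} {G : Type u} [Group G] [Finite G] {m m' : G → ℤ} (Q : Subgroup G)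
    (h : IsPGroup p Q → (p : ℤ) * (Nat.card (NQ Q) : ℤ) ∣
      (eL p (mb Q m') - nA p (⊤ : Subgroup (NQ Q)) (mb Q m'))
        - (eL p (mb Q m) - nA p (⊤ : Subgroup (NQ Q)) (mb Q m))) :
    (p : ℤ) * (Nat.card ↥(Subgroup.normalizer (Q : Set G)) : ℤ) ∣
      CCAux.FF p m' Q - CCAux.FF p m Q := by
  unfold CCAux.FF
  split_ifs with hQ
  · obtain ⟨c, hc⟩ := h hQ
    refine ⟨c, ?_⟩
    rw [← mul_sub, hc, ← CCAux.card_NQ Q]
    push_cast
    ring
  · simp

end PsiAux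

open PsiAux

theorem psi_step {p : ℕ} [Fact p.Prime] {k : Type v} [Field k] [IsAlgClosed k] [CharP k p] :
    ∀ (n : ℕ) (G : Type u) [Group G] [Finite G], Nat.card G = n → ∀ m m' : G → ℤ, CF m → CF m' →
      (∃ w ∈ fixAlg k (⊤ : Subgroup G) ⊤, IsNilpotent w ∧ zel k m' = (zel k m) ^ p + w) →
      (p : ℤ) * (Nat.card G : ℤ) ∣ (eL p m' - nA p (⊤ : Subgroup G) m')
        - (eL p m - nA p (⊤ : Subgroup G) m) := by
  classical
  intro n
  induction n using Nat.strong_induction_on with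
  | _ n ih =>
    intro G _ _ hn m m' hm hm' hw
    obtain ⟨w, hw1, hw2, hw3⟩ := hw
    have h1 := dvd_top k hm hm' hw1 hw2 hw3
    rw [diff_eq_cf hm, diff_eq_cf hm', ← finsum_sub_distrib (Set.toFinite _) (Set.toFinite _)]
      at h1
    have h2 : (p : ℤ) * (Nat.card G : ℤ) ∣
        ∑ᶠ Q : Subgroup G, (if Q = ⊥ then 0 else CCAux.FF p m' Q - CCAux.FF p m Q) := by
      refine sub_dvd (fun Q => if Q = ⊥ then 0 else CCAux.FF p m' Q - CCAux.FF p m Q)
        (fun g U => ?_) (p : ℤ) fun U => ?_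
      · rw [FF_cg_cf hm g U, FF_cg_cf hm' g U]
        exact if_congr (CCAux.cg_bot_iff g U) rfl rfl
      · split_ifs with hU
        · exact dvd_zero _
        · refine FF_diff_dvd U fun hUp => ?_
          refine ih (Nat.card (NQ U)) (hn ▸ CCAux.card_NQ_lt hU) (NQ U) rfl (mb U m) (mb U m')
            (CF_mb U hm) (CF_mb U hm') ?_
          have hz : zel k m ∈ fixAlg k (⊤ : Subgroup G) ⊤ := zel_mem hm
          have hF : Fintype G := Fintype.ofFinite G
          refine ⟨proj U w, TFinAux.proj_mem hw1, ?_, ?_⟩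
          · obtain ⟨j, hj⟩ := hw2
            refine ⟨j, ?_⟩
            have hproj0 : proj U (0 : MonoidAlgebra k G) = 0 := by
              rw [← zero_smul k (0 : MonoidAlgebra k G), proj_smul, zero_smul]
            rw [← TFinAux.proj_pow hUp hw1, hj, hproj0]
          · rw [← proj_zel, ← proj_zel, ← TFinAux.proj_pow hUp hz, ← proj_add, hw3]
    have h3 : ∑ᶠ Q : Subgroup G, (CCAux.FF p m' Q - CCAux.FF p m Q) =
        (CCAux.FF p m' ⊥ - CCAux.FF p m ⊥)
          + ∑ᶠ Q : Subgroup G, (if Q = ⊥ then 0 else CCAux.FF p m' Q - CCAux.FF p m Q) := by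
      have h4 : ∑ᶠ Q : Subgroup G, (if Q = ⊥ then CCAux.FF p m' Q - CCAux.FF p m Q else 0)
          = CCAux.FF p m' ⊥ - CCAux.FF p m ⊥ := by
        rw [finsum_eq_single _ (⊥ : Subgroup G) (fun Q hQ => by simp [hQ])]
        simp
      rw [← h4, ← finsum_add_distrib (Set.toFinite _) (Set.toFinite _)]
      refine finsum_congr fun Q => ?_
      split_ifs <;> ring
    rw [h3] at h1
    have h5 := (dvd_add_left h2).1 h1
    rwa [FF_bot, FF_bot] at h5

theorem psi_pow {p : ℕ} [Fact p.Prime] {k : Type v} [Field k] [IsAlgClosed k] [CharP k p]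
    {G : Type u} [Group G] [Finite G] {m : G → ℤ} (hm : CF m) (n : ℕ) :
    ∃ m' : G → ℤ, CF m' ∧ zel k m' = (zel k m) ^ (p ^ n) ∧
      (p : ℤ) * (Nat.card G : ℤ) ∣ psi p m' - psi p m := by
  induction n with
  | zero => exact ⟨m, hm, by rw [pow_zero, pow_one], by rw [sub_self]; exact dvd_zero _⟩
  | succ n ih =>
    obtain ⟨m', h1, h2, h3⟩ := ih
    have hc : CF (Gs.cvP m' p) := Gs.CF_cvP h1 p
    have hz : zel k (Gs.cvP m' p) = (zel k m') ^ p := Gs.zel_cvP k m' p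
    refine ⟨Gs.cvP m' p, hc, ?_, ?_⟩
    · rw [hz, h2, ← pow_mul, ← pow_succ]
    · have h4 := psi_step (p := p) (k := k) (Nat.card G) G rfl m' (Gs.cvP m' p) h1 hc
        ⟨0, Subalgebra.zero_mem _, IsNilpotent.zero, by rw [hz, add_zero]⟩
      have h5 := eE_eL_cf (p := p) h1
      have h6 := eE_eL_cf (p := p) hc
      have h7 : psi p (Gs.cvP m' p) - psi p m
          = (eE p (Gs.cvP m' p) - eL p (Gs.cvP m' p))
            + ((eL p (Gs.cvP m' p) - nA p (⊤ : Subgroup G) (Gs.cvP m' p))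
              - (eL p m' - nA p (⊤ : Subgroup G) m'))
            - (eE p m' - eL p m') + (psi p m' - psi p m) := by
        unfold psi
        ring
      rw [h7]
      exact dvd_add (dvd_sub (dvd_add h6 h4) h5) h3

end Pool.Agent.Lib.P0c8ca5.Se
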