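import Mathlib
import Pool.Agent.Lib.P0c8ca5Se.Defs
import Pool.Agent.Lib.P0c8ca5Gs.Sx

/-!
# Sing: the count of the triples for functions vanishing on the p-regular elements

PROOF. `nA_trE` (V.TCnt, class functions) with `k = AlgebraicClosure (ZMod p)`: `nA p ⊤ m = |A| * t`, `(t : k) = trE k ⊤ (hpe p k A * zel k m)`; by `trE_sec1` (Gs.Sx) this is `trE` of `sec1 p (zel k m)`, whose coefficients are `0` or `m (pr p y) = 0` (`preg_pr`), so `t = 0` in `k` (`trE` of zero is zero: unfold `trE`), `p ∣ t`.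
-/

namespace Pool.Agent.Lib.P0c8ca5.Se

open MonoidAlgebra Bx

theorem nA_sing {p : ℕ} [Fact p.Prime] {A : Type*} [Group A] [Finite A] {m : A → ℤ} (hm : CF m)
    (h : ∀ x, Preg p x → m x = 0) :
    (p : ℤ) * (Nat.card A : ℤ) ∣ nA p (⊤ : Subgroup A) m := by
  classical
  cases nonempty_fintype A
  obtain ⟨t, h1, h2⟩ := nA_trE (k := AlgebraicClosure (ZMod p)) (p := p) hm
  have h5 := Gs.SxAux.trE_sec1 (p := p) (k := AlgebraicClosure (ZMod p)) (z := zel _ m)
    (zel_mem hm)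
  have h0 : Gs.SxAux.sec1 p (zel (AlgebraicClosure (ZMod p)) m) = 0 := by
    ext y
    rw [Gs.SxAux.sec1_coeff, zel_coeff, h _ (preg_pr y), Int.cast_zero, ite_self]
    rfl
  have h6 : ((t : ℤ) : AlgebraicClosure (ZMod p)) = 0 := by
    rw [h2, h5, h0]
    unfold trE
    simp
  have h7 : (p : ℤ) ∣ t := (CharP.intCast_eq_zero_iff (AlgebraicClosure (ZMod p)) p _).1 h6
  obtain ⟨c, hc'⟩ := h7
  rw [h1, hc']
  exact ⟨c, by ring⟩

end Pool.Agent.Lib.P0c8ca5.Se
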