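import Mathlib
import Pool.Agent.Lib.P0c8ca5V.TFin
import Pool.Agent.Lib.P0c8ca5V.TOsi
import Pool.Agent.Lib.P0c8ca5Bw.NilB

/-!
# Sup: the support of high p-powers of central elements

PROOF. `z = ∑ b, z * b` over the blocks (as in `Lam_of_blk`, V.TFin), `z * b = c_b • b + w_b` (`blk_scalar`), `w_b` nilpotent. For `p ^ n` large: `z ^ (p ^ n) = ∑ b, (z * b) ^ (p ^ n) = ∑ b, c_b ^ (p ^ n) • b` (finitely many blocks, `w_b ^ (p ^ n) = 0`). So if the coefficient at `x` is not zero, there is a block `b` with `b.coeff x ≠ 0`, `c_b ≠ 0`. `x` is p-regular: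
`osima` (V.TOsi). `z * b` is not nilpotent (`b ≠ 0` idempotent), so `z * w * b = b` for some central `w` (`blk_nilp_or_unit`, V.TDefs). `HasBr Q b` (`x ∈ centralizer Q`), so `proj Q b ≠ 0` (`proj_ne_zero`, P0c8ca5Bw.NilB), and `proj Q b = proj Q z * proj Q (w * b)` (`proj_mul`), so `proj Q z ≠ 0`.
-/

namespace Pool.Agent.Lib.P0c8ca5.Se

open MonoidAlgebra
open Pool.Agent.Lib.P0c8ca5 TFinAux

namespace SupAux

/-- a central element times a block: a high p-power is a scalar multiple of the block -/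
theorem mul_blk_pow {p : ℕ} [Fact p.Prime] {k : Type*} [Field k] [IsAlgClosed k] [CharP k p]
    {A : Type*} [Group A] [Fintype A] {z b : MonoidAlgebra k A}
    (hz : z ∈ fixAlg k (⊤ : Subgroup A) ⊤) (hb : IsBlock (⊤ : Subgroup A) b) :
    ∃ (c : k) (m : ℕ), ∀ n, m ≤ n → z ^ (p ^ n) * b = c ^ (p ^ n) • b := by
  have hpp : p.Prime := Fact.out
  have hchar : CharP (MonoidAlgebra k A) p :=
    charP_of_injective_algebraMap (algebraMap k (MonoidAlgebra k A)).injective p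
  obtain ⟨c, w, hw1, ⟨m, hm⟩, hw3⟩ := blk_scalar hb hz
  refine ⟨c, m, fun n hn => ?_⟩
  have hcomm : ∀ a ∈ fixAlg k (⊤ : Subgroup A) ⊤, ∀ a' ∈ fixAlg k (⊤ : Subgroup A) ⊤,
      Commute a a' := fun a ha a' ha' => commute_of (mem_fixAlg.1 ha).1 (mem_fixAlg.1 ha').2
  have h1 : (z * b) ^ (p ^ n) = z ^ (p ^ n) * b := by
    obtain ⟨r, hr⟩ := Nat.exists_eq_succ_of_ne_zero (pow_ne_zero n hpp.ne_zero)
    rw [(hcomm z hz b hb.mem).mul_pow, hr, IsIdempotentElem.pow_succ_eq r hb.idem]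
  have h2 : Commute (c • b) w :=
    hcomm _ ((fixAlg k (⊤ : Subgroup A) ⊤).smul_mem hb.mem c) w hw1
  rw [← h1, hw3, add_pow_char_pow_of_commute p n h2]
  have h3 : m ≤ p ^ n := hn.trans (Nat.lt_pow_self hpp.one_lt).le
  have h4 : w ^ (p ^ n) = 0 := by
    obtain ⟨r, hr⟩ := Nat.exists_eq_add_of_le h3
    rw [hr, pow_add, hm, zero_mul]
  obtain ⟨r, hr⟩ := Nat.exists_eq_succ_of_ne_zero (pow_ne_zero n hpp.ne_zero)
  rw [h4, add_zero, smul_pow]
  congr 1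
  rw [hr, IsIdempotentElem.pow_succ_eq r hb.idem]

theorem cf_sum {k : Type*} [Field k] {A : Type*} [Group A] {ι : Type*} (S : Finset ι)
    (f : ι → MonoidAlgebra k A) (x : A) :
    (∑ i ∈ S, f i).coeff x = ∑ i ∈ S, (f i).coeff x := by
  classical
  induction S using Finset.induction_on with
  | empty => rfl
  | insert a S ha ih =>
    rw [Finset.sum_insert ha, Finset.sum_insert ha, ← ih]
    rfl

end SupAux

open SupAux in
theorem sup_pow {p : ℕ} [Fact p.Prime] {k : Type*} [Field k] [IsAlgClosed k] [CharP k p]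
    {A : Type*} [Group A] [Fintype A] {z : MonoidAlgebra k A}
    (hz : z ∈ fixAlg k (⊤ : Subgroup A) ⊤) :
    ∃ n : ℕ, ∀ x : A, (z ^ (p ^ n)).coeff x ≠ 0 → Preg p x ∧
      ∀ Q : Subgroup A, IsPGroup p Q → (∀ g ∈ Q, g * x = x * g) → proj Q z ≠ 0 := by
  classical
  have hpp : p.Prime := Fact.out
  let Bl : Finset (MonoidAlgebra k A) := (finite_isBlock (k := k) (⊤ : Subgroup A)).toFinset
  have hBl : ∀ b, b ∈ Bl ↔ IsBlock (⊤ : Subgroup A) b ∧ b * 1 ≠ 0 := by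
    intro b
    rw [Set.Finite.mem_toFinset, mul_one]
    exact ⟨fun hb => ⟨hb, IsBlock.ne_zero hb⟩, fun hb => hb.1⟩
  have h1 := WSumAux.sum_blocks (p := p) (fixAlg k (⊤ : Subgroup A) ⊤).one_mem (one_mul 1) Bl hBl
  have hC : ∀ b : MonoidAlgebra k A, ∃ (c : k) (m : ℕ), IsBlock (⊤ : Subgroup A) b →
      ∀ n, m ≤ n → z ^ (p ^ n) * b = c ^ (p ^ n) • b := by
    intro b
    by_cases hb : IsBlock (⊤ : Subgroup A) b
    · obtain ⟨c, m, h⟩ := mul_blk_pow hz hb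
      exact ⟨c, m, fun _ => h⟩
    · exact ⟨0, 0, fun h => absurd h hb⟩
  choose c m hcm using hC
  refine ⟨∑ b ∈ Bl, m b, fun x hx => ?_⟩
  have hle : ∀ b ∈ Bl, m b ≤ ∑ b ∈ Bl, m b :=
    fun b hb => Finset.single_le_sum (f := m) (fun _ _ => Nat.zero_le _) hb
  generalize (∑ b ∈ Bl, m b) = n at hx hle
  have h2 : z ^ (p ^ n) = ∑ b ∈ Bl, c b ^ (p ^ n) • b := by
    rw [← mul_one (z ^ (p ^ n)), ← h1, Finset.mul_sum]
    exact Finset.sum_congr rfl (fun b hb => hcm b ((hBl b).1 hb).1 n (hle b hb))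
  rw [h2, cf_sum] at hx
  obtain ⟨b, hb, hbx⟩ := Finset.exists_ne_zero_of_sum_ne_zero hx
  have hb' := ((hBl b).1 hb).1
  have h3 : (c b ^ (p ^ n) • b).coeff x = c b ^ (p ^ n) * b.coeff x := rfl
  rw [h3] at hbx
  have hbx1 : c b ^ (p ^ n) ≠ 0 := left_ne_zero_of_mul hbx
  have hbx2 : b.coeff x ≠ 0 := right_ne_zero_of_mul hbx
  refine ⟨osima hb'.mem hb'.idem hbx2, fun Q hQ hQx h0 => ?_⟩
  have hBr : HasBr Q b := ⟨x, Subgroup.mem_centralizer_iff.2 hQx, hbx2⟩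
  have hinv : ∀ a ∈ fixAlg k (⊤ : Subgroup A) ⊤, InvBy Q a :=
    fun a ha => ((mem_fixAlg.1 ha).2).mono le_top
  have hpb := Bw.NilBAux.proj_ne_zero (p := p) hQ (hinv b hb'.mem) hb'.idem hBr
  have hcomm : ∀ a ∈ fixAlg k (⊤ : Subgroup A) ⊤, ∀ a' ∈ fixAlg k (⊤ : Subgroup A) ⊤,
      Commute a a' := fun a ha a' ha' => commute_of (mem_fixAlg.1 ha).1 (mem_fixAlg.1 ha').2
  rcases blk_nilp_or_unit hb' hz with ⟨r, hr⟩ | ⟨w, hw, hzw⟩
  · -- `z * b` is not nilpotent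
    have h4 : (z ^ (p ^ n) * b) ^ (r + 1) = 0 := by
      have h5 : (z ^ (p ^ n) * b) = (z * b) ^ (p ^ n) := by
        obtain ⟨t, ht⟩ := Nat.exists_eq_succ_of_ne_zero (pow_ne_zero n hpp.ne_zero)
        rw [(hcomm z hz b hb'.mem).mul_pow, ht, IsIdempotentElem.pow_succ_eq t hb'.idem]
      rw [h5, ← pow_mul, mul_comm, pow_mul, pow_succ, hr, zero_mul,
        zero_pow (pow_ne_zero n hpp.ne_zero)]
    rw [hcm b hb' n (hle b hb), smul_pow, IsIdempotentElem.pow_succ_eq r hb'.idem] at h4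
    rcases smul_eq_zero.1 h4 with h6 | h6
    · exact hbx1 (pow_eq_zero_iff (Nat.succ_ne_zero r) |>.1 h6)
    · exact hb'.ne_zero h6
  · apply hpb
    rw [← hzw, mul_assoc, proj_mul hQ (hinv z hz)
      (hinv _ ((fixAlg k (⊤ : Subgroup A) ⊤).mul_mem hw hb'.mem)), h0, zero_mul]

end Pool.Agent.Lib.P0c8ca5.Se
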