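import Mathlib
import Pool.Agent.Lib.P0c8ca5Se.Psi
import Pool.Agent.Lib.P0c8ca5Se.Lin
import Pool.Agent.Lib.P0c8ca5Se.Sing
import Pool.Agent.Lib.P0c8ca5Se.PrB
import Pool.Agent.Lib.P0c8ca5Se.Sup
import Pool.Agent.Lib.P0c8ca5Ab.Sum
import Pool.Agent.Lib.P0c8ca5Ab.Fam
import Pool.Agent.Lib.P0c8ca5Gs.RelS
import Pool.Agent.Lib.P0c8ca5Gs.PrT

/-!
# Ind: the induction over the defect groups of the classes

PROOF. Strong induction on the order of a Sylow p-subgroup `D` of `C(d)` (`exists_isSyl`).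
Case `D = ⊥`: `m = ic d` satisfies `IsWt p ⊤ m` (`CF_ic`; an element conjugate to `d` is p-regular) and `AbC p d'` for all `d'` with `m d' ≠ 0` (`C(d')` has no nontrivial p-subgroup), so `Gs.eA_of_bT (Gs.TW_Pt p)` with `Ab.Pt_ab` in all subgroups `U` (restriction `IsWt_dn`, `FamAux.abC_sub` of P0c8ca5Ab.Fam; `Gs.bT_dn`, `(Gs.TW_Pt p).rs`) gives `p |G| ∣ eA - eE`; with `nA_eA` (V.CB) `p |G| ∣ psi p m`.
Case `D ≠ ⊥`: `u` from `h`; `w = u * d`, `Kil p w`; `u ≠ 1` or `u = 1` both work: `psi p (ic w)`: if `w` is not p-regular (`u ≠ 1`), `nA_sing` for `ic w` and `Kil` give `p |G| ∣ psi p (ic w)`. (`u ≠ 1` is given.) `proj_prop`: `proj D (zel (ic w)) = c • proj D (zel (ic d))`, `p ∤ c`. Let `k = AlgebraicClosure (ZMod p)`, `m x = ic w x - c * ic d x`, `z = zel k m`, central, `proj D z = 0`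
(`proj` linear). `sup_pow` for `z`: `n`; `psi_pow`: `m'` with `zel k m' = z ^ (p ^ n)`, `psi m' = psi m` modulo `p |G|`. If `p ∤ m' x`, the coefficient of `z ^ (p ^ n)` at `x` is not zero, so `x` is p-regular and `proj Q z ≠ 0` for all p-subgroups `Q` centralizing `x`. For such a `Q`: `HasBr Q z` (`hasBr_of_proj`), so `Q` centralizes an element conjugate to `w` or `d`, hence (`C(w) ≤ C(d)`)
`cg g Q ≤ C(d)` for some `g`; by `hT`, `T x`; and `cg g Q ≤ cg h D` for some `h` (`IsSyl.conj`), and `Q` is not conjugate to `D` by `proj_cj`, so `|Q| < |D|`. With `Q` a Sylow p-subgroup of `C(x)`: the induction hypothesis gives `p |G| ∣ psi p (ic x)`. `psi_lin`: `p |G| ∣ psi p m'`, so `p |G| ∣ psi p m = psi p (ic w) - c * psi p (ic d)` (`psi_comb`), so `p |G| ∣ c * psi p (ic d)`; `|G| ∣ psi p (ic d)` (`eE_dvd_cf`, `nA_dvd_cf`) and `p ∤ c` give the claim.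
-/

namespace Pool.Agent.Lib.P0c8ca5.Se

open MonoidAlgebra Bx

universe u

namespace IndAux

section
variable {p : ℕ} [Fact p.Prime] {G : Type u} [Group G] [Finite G]

theorem pr_ud {u d : G} (hc : Commute u d) (hu : Pel p u) (hd : Preg p d) :
    pr p (u * d) = d := by
  obtain ⟨n, hn⟩ := hu
  rw [pr_mul hc, pr_of_pow hn, one_mul, pr_eq_self hd]

/-- elements commuting with `u * d` commute with `d` -/
theorem comm_d {u d x : G} (hc : Commute u d) (hu : Pel p u) (hd : Preg p d)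
    (hx : x * (u * d) = (u * d) * x) : x * d = d * x := by
  have h1 : Commute x (pr p (u * d)) := by
    unfold pr
    exact (show Commute x (u * d) from hx).pow_right _
  rw [pr_ud hc hu hd] at h1
  exact h1

theorem isWt_ic {d : G} (hd : Preg p d) : IsWt p (⊤ : Subgroup G) (ic d) := by
  classical
  constructor
  · intro h _ x
    exact CF_ic d h x
  · intro x hx
    unfold ic at hx
    have h1 : IsConj d x := by
      by_contra h
      exact hx (if_neg h)
    obtain ⟨g, rfl⟩ := isConj_iff.1 h1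
    exact (preg_conj g d).2 hd

/-- the classes of defect zero -/
theorem base {d : G} (hd : Preg p d)
    (hD : ∀ Q : Subgroup G, IsPGroup p Q → (∀ g ∈ Q, g * d = d * g) → Q = ⊥) :
    (p : ℤ) * (Nat.card G : ℤ) ∣ psi p (ic d) := by
  classical
  have hm := isWt_ic (p := p) hd
  have hab : ∀ x, ic d x ≠ 0 → Ab.AbC p x := by
    intro x hx P hP hPx y hy z hz
    unfold ic at hx
    have h1 : IsConj d x := by
      by_contra h
      exact hx (if_neg h)
    obtain ⟨g, rfl⟩ := isConj_iff.1 h1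
    have h2 : cg g⁻¹ P = ⊥ := by
      refine hD _ (hP.map _) ?_
      intro v hv
      rw [mem_cg, inv_inv] at hv
      have h3 := hPx _ hv
      have h4 : g * (v * d) * g⁻¹ = g * (d * v) * g⁻¹ := by
        calc g * (v * d) * g⁻¹ = (g * v * g⁻¹) * (g * d * g⁻¹) := by group
          _ = (g * d * g⁻¹) * (g * v * g⁻¹) := h3
          _ = g * (d * v) * g⁻¹ := by group
      exact mul_left_cancel (mul_right_cancel h4)
    have h5 : ∀ v ∈ P, v = 1 := by
      intro v hv
      have h6 : g⁻¹ * v * g ∈ cg g⁻¹ P := by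
        rw [mem_cg]
        have : (g⁻¹)⁻¹ * (g⁻¹ * v * g) * g⁻¹ = v := by group
        rwa [this]
      rw [h2, Subgroup.mem_bot] at h6
      calc v = g * (g⁻¹ * v * g) * g⁻¹ := by group
        _ = 1 := by rw [h6]; group
    rw [h5 y hy, h5 z hz]
  have h1 : (p : ℤ) * (Nat.card G : ℤ) ∣ eA p (ic d) - eE p (ic d) := by
    refine Gs.eA_of_bT (Gs.TW_Pt p) hm (fun U hU => ?_)
    rw [← Gs.bT_dn, (Gs.TW_Pt p).rs]
    exact Ab.Pt_ab ((NoP_dn U).2 hU) (IsWt_dn U hm)
      (fun y hy => Ab.FamAux.abC_sub (hab (y : G) hy))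
  have h2 := nA_eA (p := p) hm
  have e : psi p (ic d) = -((nA p (⊤ : Subgroup G) (ic d) - eA p (ic d))
      + (eA p (ic d) - eE p (ic d))) := by
    unfold psi
    ring
  rw [e, dvd_neg]
  exact dvd_add h2 h1

/-- the classes of p-singular elements -/
theorem psi_sing {u d : G} (hc : Commute u d) (hu : Pel p u) (hu1 : u ≠ 1) (hd : Preg p d)
    (hk : Kil p (u * d)) : (p : ℤ) * (Nat.card G : ℤ) ∣ psi p (ic (u * d)) := by
  classical
  unfold psi
  refine dvd_sub hk (nA_sing (CF_ic _) ?_)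
  intro x hx
  unfold ic
  rw [if_neg]
  intro h
  obtain ⟨g, rfl⟩ := isConj_iff.1 h
  rw [preg_conj] at hx
  have h1 := pr_ud hc hu hd
  rw [pr_eq_self hx] at h1
  exact hu1 (mul_eq_right.1 h1)

/-- a linear combination -/
theorem zel_comb {k : Type*} [Field k] (f g : G → ℤ) (c : ℕ) :
    zel k f = zel k (fun x => f x - (c : ℤ) * g x) + (c : k) • zel k g := by
  ext x
  rw [coeff_add, Finsupp.add_apply, coeff_smul, Finsupp.smul_apply, zel_coeff, zel_coeff,
    zel_coeff, smul_eq_mul]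
  push_cast
  ring

end

end IndAux

open IndAux

theorem ind {p : ℕ} [Fact p.Prime] {G : Type u} [Group G] [Finite G] {T : G → Prop}
    (hT : ∀ d x : G, T d → Preg p x → (∀ Q : Subgroup G, IsPGroup p Q →
      (∀ g ∈ Q, g * x = x * g) → ∃ g : G, ∀ y ∈ cg g Q, y * d = d * y) → T x)
    (h : ∀ d : G, Preg p d → T d → ∀ D : Subgroup G,
      IsSyl p (Subgroup.centralizer ({d} : Set G)) D → D ≠ ⊥ →
      ∃ u ∈ D, u ≠ 1 ∧ (∀ x ∈ D, x * u = u * x) ∧ Kil p (u * d)) {d : G} (hd : Preg p d)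
    (hTd : T d) : (p : ℤ) * (Nat.card G : ℤ) ∣ psi p (ic d) := by
  classical
  letI : Fintype G := Fintype.ofFinite G
  suffices H : ∀ n : ℕ, ∀ d : G, Preg p d → T d → ∀ D : Subgroup G,
      IsSyl p (Subgroup.centralizer ({d} : Set G)) D → Nat.card D = n →
      (p : ℤ) * (Nat.card G : ℤ) ∣ psi p (ic d) by
    obtain ⟨D, hD⟩ := exists_isSyl (p := p) (Subgroup.centralizer ({d} : Set G))
    exact H _ d hd hTd D hD rfl
  intro n
  induction n using Nat.strong_induction_on with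
  | _ n ih =>
  intro d hd hTd D hD hn
  have hcen : ∀ Q : Subgroup G, (∀ g ∈ Q, g * d = d * g) ↔
      Q ≤ Subgroup.centralizer ({d} : Set G) := by
    intro Q
    constructor
    · intro h1 g hg
      exact Subgroup.mem_centralizer_singleton_iff.2 (h1 g hg)
    · intro h1 g hg
      exact Subgroup.mem_centralizer_singleton_iff.1 (h1 hg)
  by_cases hD0 : D = ⊥
  · refine base hd (fun Q hQ hQd => ?_)
    obtain ⟨g, _, hg⟩ := hD.conj Q ((hcen Q).1 hQd) hQ
    rw [hD0] at hg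
    rw [eq_bot_iff]
    intro x hx
    have h1 := hg hx
    rw [mem_cg, Subgroup.mem_bot] at h1
    rw [Subgroup.mem_bot]
    calc x = g * (g⁻¹ * x * g) * g⁻¹ := by group
      _ = 1 := by rw [h1]; group
  obtain ⟨u, huD, hu1, huc, hk⟩ := h d hd hTd D hD hD0
  have hup : Pel p u := by
    obtain ⟨a, ha⟩ := hD.isPGroup ⟨u, huD⟩
    refine ⟨a, ?_⟩
    have := congrArg Subtype.val ha
    simpa using this
  have hcud : Commute u d := Subgroup.mem_centralizer_singleton_iff.1 (hD.le huD)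
  let k := AlgebraicClosure (ZMod p)
  obtain ⟨c, hc, hproj⟩ := proj_prop (k := k) hd hD huD huc
  let m : G → ℤ := fun x => ic (u * d) x - (c : ℤ) * ic d x
  have hm : CF m := by
    intro g x
    change ic (u * d) (g * x * g⁻¹) - (c : ℤ) * ic d (g * x * g⁻¹) = _
    rw [CF_ic, CF_ic]
  have hz : zel k m ∈ fixAlg k (⊤ : Subgroup G) ⊤ := zel_mem hm
  have hz0 : proj D (zel k m) = 0 := by
    have e1 : zel k (ic (u * d)) = zel k m + (c : k) • zel k (ic d) := zel_comb _ _ c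
    rw [e1, proj_add, proj_smul] at hproj
    exact add_eq_right.1 hproj
  obtain ⟨n', hn'⟩ := sup_pow (p := p) hz
  obtain ⟨m', hm', hmz, hmp⟩ := psi_pow (p := p) (k := k) hm n'
  -- the classes in the support
  have hkey : ∀ x : G, ¬ (p : ℤ) ∣ m' x → Preg p x ∧ ∀ Q : Subgroup G, IsPGroup p Q →
      (∀ g ∈ Q, g * x = x * g) → ∃ g : G, cg g Q ≤ D ∧ cg g Q ≠ D := by
    intro x hx
    have h1 : (zel k m ^ (p ^ n')).coeff x ≠ 0 := by
      rw [← hmz, zel_coeff]
      intro h0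
      exact hx ((CharP.intCast_eq_zero_iff k p _).1 h0)
    obtain ⟨hpx, hq⟩ := hn' x h1
    refine ⟨hpx, fun Q hQ hQx => ?_⟩
    have h2 := hq Q hQ hQx
    have hinv : InvBy Q (zel k m) := ((mem_fixAlg.1 hz).2).mono le_top
    obtain ⟨y, hyQ, hy⟩ := hasBr_of_proj (p := p) hQ hinv h2
    have h3 : ∃ g : G, g * y * g⁻¹ = u * d ∨ g * y * g⁻¹ = d := by
      rw [zel_coeff] at hy
      by_cases h4 : IsConj (u * d) y
      · obtain ⟨g, hg⟩ := isConj_iff.1 h4.symm
        exact ⟨g, Or.inl hg⟩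
      · by_cases h5 : IsConj d y
        · obtain ⟨g, hg⟩ := isConj_iff.1 h5.symm
          exact ⟨g, Or.inr hg⟩
        · exfalso
          apply hy
          have h6 : m y = 0 := by
            change ic (u * d) y - (c : ℤ) * ic d y = 0
            unfold ic
            rw [if_neg h4, if_neg h5, mul_zero, sub_zero]
          rw [h6, Int.cast_zero]
    obtain ⟨g, hg⟩ := h3
    have h7 : cg g Q ≤ Subgroup.centralizer ({d} : Set G) := by
      intro v hv
      rw [mem_cg] at hv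
      have h8 : (g⁻¹ * v * g) * y = y * (g⁻¹ * v * g) :=
        Subgroup.mem_centralizer_iff.1 hyQ _ hv
      have h9 : v * (g * y * g⁻¹) = (g * y * g⁻¹) * v := by
        calc v * (g * y * g⁻¹) = g * ((g⁻¹ * v * g) * y) * g⁻¹ := by group
          _ = g * (y * (g⁻¹ * v * g)) * g⁻¹ := by rw [h8]
          _ = (g * y * g⁻¹) * v := by group
      rw [Subgroup.mem_centralizer_singleton_iff]
      rcases hg with hg | hg
      · rw [hg] at h9
        exact comm_d hcud hup hd h9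
      · rw [hg] at h9
        exact h9
    obtain ⟨h', _, hh'⟩ := hD.conj (cg g Q) h7 (hQ.map _)
    have h10 : cg (h'⁻¹ * g) Q ≤ D := by
      have := cg_le_cg (g := h'⁻¹) hh'
      rwa [cg_cg, cg_cg, inv_mul_cancel, cg_one] at this
    refine ⟨h'⁻¹ * g, h10, fun h11 => h2 ?_⟩
    have h12 : Q = cg (h'⁻¹ * g)⁻¹ D := by
      rw [← h11, cg_cg, inv_mul_cancel, cg_one]
    rw [h12]
    exact proj_cj hz _ hz0
  have hlin : (p : ℤ) * (Nat.card G : ℤ) ∣ psi p m' := by
    refine psi_lin hm' (fun x hx => ?_)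
    obtain ⟨hpx, hq⟩ := hkey x hx
    have hTx : T x := by
      refine hT d x hTd hpx (fun Q hQ hQx => ?_)
      obtain ⟨g, hg, _⟩ := hq Q hQ hQx
      exact ⟨g, fun y hy => Subgroup.mem_centralizer_singleton_iff.1 (hD.le (hg hy))⟩
    obtain ⟨Q, hQ⟩ := exists_isSyl (p := p) (Subgroup.centralizer ({x} : Set G))
    obtain ⟨g, hg1, hg2⟩ := hq Q hQ.isPGroup
      (fun y hy => Subgroup.mem_centralizer_singleton_iff.1 (hQ.le hy))
    refine ih (Nat.card Q) ?_ x hpx hTx Q hQ rfl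
    rw [← hn, ← card_cg g Q]
    refine lt_of_le_of_ne (Subgroup.card_le_of_le hg1) (fun h1 => hg2 ?_)
    exact Subgroup.eq_of_le_of_card_ge hg1 h1.ge
  have h1 : (p : ℤ) * (Nat.card G : ℤ) ∣ psi p m := (dvd_sub_right hlin).1 hmp
  have h2 : psi p m = psi p (ic (u * d)) - (c : ℤ) * psi p (ic d) :=
    psi_comb (ic (u * d)) (ic d) (c : ℤ)
  have h3 := psi_sing hcud hup hu1 hd hk
  rw [h2] at h1
  have h4 : (p : ℤ) * (Nat.card G : ℤ) ∣ (c : ℤ) * psi p (ic d) := (dvd_sub_right h3).1 h1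
  have h5 : (Nat.card G : ℤ) ∣ psi p (ic d) :=
    dvd_sub (eE_dvd_cf (CF_ic d)) (nA_dvd_cf (CF_ic d))
  obtain ⟨t, ht⟩ := h5
  have hG : (Nat.card G : ℤ) ≠ 0 := by exact_mod_cast (Nat.card_pos (α := G)).ne'
  have h6 : (p : ℤ) ∣ (c : ℤ) * t := by
    rw [ht] at h4
    obtain ⟨s, hs⟩ := h4
    refine ⟨s, mul_left_cancel₀ hG ?_⟩
    linear_combination hs
  have h7 : (p : ℤ) ∣ t := by
    rcases Int.Prime.dvd_mul' (Fact.out : p.Prime) h6 with h8 | h8
    · exact absurd (by exact_mod_cast h8) hc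
    · exact h8
  obtain ⟨s, hs⟩ := h7
  exact ⟨s, by rw [ht, hs]; ring⟩

end Pool.Agent.Lib.P0c8ca5.Se
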