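import Mathlib
import Pool.Agent.Lib.P0c8ca5Fo.Key

/-!
# Foc: `KF` and `focal` (P0c8ca5Fo.Key) for p-elements `u` of any order

PROOF. In `KF` the hypothesis `orderOf u = p` is used only to get `orderOf (lam u) = p`. With `Pel p u` the order of `lam u` is a power of `p`, not `1` (`hlam`), so `p` divides it (`orderOf_dvd_of_pow_eq_one`, `Nat.dvd_prime_pow`), and it divides `r * n' * k`. In `focal` it is used for the coprimality of `orderOf u` and `orderOf d` and for `IsPGroup p (zpowers u)`. Copy the proofs.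
-/

namespace Pool.Agent.Lib.P0c8ca5.Se

open MulAction Ab Fo

namespace FocAux


/-- the key statement with a homomorphism `lam` from `S` to a commutative group -/
theorem KF {G : Type*} [Group G] [Finite G] {p k : ℕ} [Fact p.Prime] {S : Subgroup G} {w u d : G}
    (hy : HyF p k S w) (hk : ¬ p ∣ k) (hu : u ∈ S) (huo : Pel p u) (hw : w = u * d)
    (hc : Commute u d) (hd : Preg p d) {A : Type*} [CommGroup A] (lam : ↥S →* A)
    (hlam : lam ⟨u, hu⟩ ≠ 1) : p * Nat.card S ∣ Nat.card (XW p w) := by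
  have hp : p.Prime := Fact.out
  letI : MulAction ↥S (XW p w) := actF hy
  have hsv : ∀ (s : ↥S) (x : XW p w),
      (s • x).1 = ((s : G) * x.1.1 * (s : G)⁻¹, (s : G) * x.1.2 * (s : G)⁻¹) := fun _ _ => rfl
  have hfree : ∀ (s : ↥S) (x : XW p w), s • x = x → s = 1 := by
    intro s x h
    have h1 := congrArg Subtype.val h
    rw [hsv] at h1
    have h2 : (s : G) * x.1.1 * (s : G)⁻¹ = x.1.1 := congrArg Prod.fst h1
    have h3 : (s : G) * x.1.2 * (s : G)⁻¹ = x.1.2 := congrArg Prod.snd h1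
    refine Subtype.ext (fix_one hy x.2 s.2 ?_ ?_)
    · conv_rhs => rw [← h2]
      group
    · conv_rhs => rw [← h3]
      group
  obtain ⟨κ, hκ⟩ := exists_kap (X := XW p w) lam hfree
  have hs1 : ∀ (s : ↥S) (x : XW p w), s1 (s • x) = s • s1 x := fun s x => s1_cj _ _ x
  have hs2 : ∀ (s : ↥S) (x : XW p w), s2 (s • x) = s • s2 x := fun s x => s2_cj _ _ x
  have hb1 : Function.Bijective (s1 : XW p w → XW p w) := s1_bij
  have hb2 : Function.Bijective (s2 : XW p w → XW p w) := s2_bij
  set l1 : A := trL (↥S) κ (s1 : XW p w → XW p w) with hl1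
  set l2 : A := trL (↥S) κ (s2 : XW p w → XW p w) with hl2
  -- the products
  have e12 : trL (↥S) κ (fun x : XW p w => s1 (s2 x)) = l1 * l2 := trL_comp hκ hs1 hs2 hb2
  have e21 : trL (↥S) κ (fun x : XW p w => s2 (s1 x)) = l2 * l1 := trL_comp hκ hs2 hs1 hb1
  have h12 : ∀ (s : ↥S) (x : XW p w), s1 (s2 (s • x)) = s • s1 (s2 x) := by
    intro s x
    rw [hs2, hs1]
  have h21 : ∀ (s : ↥S) (x : XW p w), s2 (s1 (s • x)) = s • s2 (s1 x) := by
    intro s x
    rw [hs1, hs2]
  have e121 : trL (↥S) κ (fun x : XW p w => s1 (s2 (s1 x))) = l1 * l2 * l1 := by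
    have h := trL_comp (T := fun x : XW p w => s1 (s2 x)) hκ h12 hs1 hb1
    rw [e12] at h
    exact h
  have e212 : trL (↥S) κ (fun x : XW p w => s2 (s1 (s2 x))) = l2 * l1 * l2 := by
    have h := trL_comp (T := fun x : XW p w => s2 (s1 x)) hκ h21 hs2 hb2
    rw [e21] at h
    exact h
  have hbr : l1 * l2 * l1 = l2 * l1 * l2 := by
    rw [← e121, ← e212]
    congr 1
    funext x
    exact braid x
  have hl : l1 = l2 := by
    have h1 : l1 * l2 * l1 = l1 * l2 * l2 := by
      rw [hbr, mul_comm l2 l1]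
    exact mul_left_cancel h1
  have hdel : trL (↥S) κ (fun x : XW p w => s1 (s2 (s1 x))) = l1 ^ 3 := by
    rw [e121, ← hl]
    rw [pow_succ, pow_succ, pow_one]
  have h121 : ∀ (s : ↥S) (x : XW p w), s1 (s2 (s1 (s • x))) = s • s1 (s2 (s1 x)) := by
    intro s x
    rw [hs1, hs2, hs1]
  have hb121 : Function.Bijective (fun x : XW p w => s1 (s2 (s1 x))) := hb1.comp (hb2.comp hb1)
  -- the `4 r`-th iterate
  set r := orderOf d with hr
  have hwr : w ^ r = u ^ r := by
    rw [hw, hc.mul_pow, hr, pow_orderOf_eq_one, mul_one]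
  have hit : ((fun x : XW p w => s1 (s2 (s1 x)))^[4 * r]) =
      fun x : XW p w => ((⟨u, hu⟩ : ↥S) ^ r)⁻¹ • x := by
    funext x
    apply Subtype.ext
    rw [braid4r, hsv, hwr]
    simp
  have hL := trL_iter hκ h121 hb121 (4 * r)
  rw [hit, trL_smul hκ, hdel] at hL
  have hT : l1 ^ k = 1 := by
    have h1 := trL_iter hκ hs1 hb1 k
    have h2 : trL (↥S) κ (s1^[k] : XW p w → XW p w) = 1 := trL_T hy lam hκ
    rw [h2] at h1
    exact h1.symm
  set n' := Nat.card (orbitRel.Quotient ↥S (XW p w)) with hn'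
  have hfin : lam ⟨u, hu⟩ ^ (r * n' * k) = 1 := by
    have h1 : (lam ((⟨u, hu⟩ : ↥S) ^ r)⁻¹ ^ n') ^ k = 1 := by
      rw [hL]
      have h2 : ((l1 ^ 3) ^ (4 * r)) ^ k = (l1 ^ k) ^ (3 * (4 * r)) := by
        rw [← pow_mul, ← pow_mul, ← pow_mul]
        congr 1
        ring
      rw [h2, hT, one_pow]
    rw [map_inv, map_pow, inv_pow, inv_pow, inv_eq_one] at h1
    rw [← h1, pow_mul, pow_mul]
  -- the order of `lam u`
  have hord : p ∣ orderOf (lam ⟨u, hu⟩) := by
    obtain ⟨n, hn⟩ := huo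
    have h1 : (lam ⟨u, hu⟩) ^ p ^ n = 1 := by
      rw [← map_pow]
      have h2 : (⟨u, hu⟩ : ↥S) ^ p ^ n = 1 := by
        apply Subtype.ext
        change u ^ p ^ n = 1
        exact hn
      rw [h2, map_one]
    obtain ⟨m, _, hm⟩ := (Nat.dvd_prime_pow hp).1 (orderOf_dvd_of_pow_eq_one h1)
    rw [hm]
    refine dvd_pow_self p ?_
    rintro rfl
    rw [pow_zero, orderOf_eq_one_iff] at hm
    exact hlam hm
  have hdvd : p ∣ r * n' * k := hord.trans (orderOf_dvd_of_pow_eq_one hfin)
  have hpn : p ∣ n' := by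
    rcases (Nat.Prime.dvd_mul hp).1 hdvd with h1 | h1
    · rcases (Nat.Prime.dvd_mul hp).1 h1 with h2 | h2
      · exact absurd h2 hd
      · exact h2
    · exact absurd h1 hk
  rw [card_free hfree, mul_comm p]
  exact Nat.mul_dvd_mul_left _ hpn

end FocAux

open FocAux

theorem focal_pel {p : ℕ} [Fact p.Prime] {G : Type*} [Group G] [Finite G]
    (hO : NoP p (⊤ : Subgroup G)) {u d : G} (hud : Commute u d) (hu : Pel p u)
    (hd : Preg p d)
    (hn : u ∉ ⁅Subgroup.centralizer ({u * d} : Set G), Subgroup.centralizer ({u * d} : Set G)⁆) :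
    p * ordProj[p] (Nat.card (Subgroup.centralizer ({u * d} : Set G))) ∣
      Nat.card {t : G × G // cmt t.1 t.2 = u * d ∧
        ∀ g : G, Preg p g → g ∈ Subgroup.closure ({t.1, t.2} : Set G)} := by
  obtain ⟨nu, hnu⟩ := hu
  classical
  have hp : p.Prime := Fact.out
  set w := u * d with hw
  set C : Subgroup G := Subgroup.centralizer ({w} : Set G) with hC
  -- `u` in the centralizer
  have hmemC : ∀ x : G, x ∈ C ↔ x * w = w * x := by
    intro x
    rw [hC, Subgroup.mem_centralizer_iff]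
    constructor
    · intro h
      exact (h w rfl).symm
    · intro h y hy
      rw [Set.mem_singleton_iff] at hy
      rw [hy]
      exact h.symm
  have huw : Commute u w := (Commute.refl u).mul_right hud
  have huC : u ∈ C := (hmemC u).2 huw.eq
  -- elements of the centralizer commute with `u` (a power of `w`)
  have hcu : ∀ x ∈ C, Commute x u := by
    intro x hx
    have h1 : Commute x w := (hmemC x).1 hx
    -- `u` is a power of `w`
    have hcop : Nat.Coprime (orderOf u) (orderOf d) := by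
      have h0 : Nat.Coprime (p ^ nu) (orderOf d) :=
        Nat.Coprime.pow_left nu ((Nat.Prime.coprime_iff_not_dvd hp).2 hd)
      exact Nat.Coprime.coprime_dvd_left (orderOf_dvd_of_pow_eq_one hnu) h0
    obtain ⟨t, ht1, ht2⟩ := Nat.chineseRemainder hcop 1 0
    have h2 : w ^ t = u := by
      rw [hw, hud.mul_pow]
      have h3 : u ^ t = u ^ 1 := by
        rw [pow_eq_pow_iff_modEq]
        exact ht1
      have h4 : d ^ t = d ^ 0 := by
        rw [pow_eq_pow_iff_modEq]
        exact ht2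
      rw [h3, h4, pow_one, pow_zero, mul_one]
    rw [← h2]
    exact h1.pow_right t
  -- a Sylow subgroup
  obtain ⟨P⟩ : Nonempty (Sylow p ↥C) := inferInstance
  have huP : (⟨u, huC⟩ : ↥C) ∈ (P : Subgroup ↥C) := by
    have hnorm : (Subgroup.zpowers (⟨u, huC⟩ : ↥C)).Normal := by
      constructor
      intro n hn' g
      obtain ⟨i, rfl⟩ := Subgroup.mem_zpowers_iff.1 hn'
      have h1 : Commute g ((⟨u, huC⟩ : ↥C) ^ i) := by
        have h2 : Commute g (⟨u, huC⟩ : ↥C) := by
          apply Subtype.ext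
          exact (hcu g g.2).eq
        exact h2.zpow_right i
      rw [h1.eq, mul_inv_cancel_right]
      exact hn'
    have hpg : IsPGroup p (Subgroup.zpowers (⟨u, huC⟩ : ↥C)) := by
      rintro ⟨x, hx⟩
      obtain ⟨i, rfl⟩ := Subgroup.mem_zpowers_iff.1 hx
      refine ⟨nu, Subtype.ext (Subtype.ext ?_)⟩
      change (u ^ i) ^ p ^ nu = 1
      rw [← zpow_natCast (u ^ i), ← zpow_mul, mul_comm i, zpow_mul, zpow_natCast, hnu, one_zpow]
    have h1 : Subgroup.zpowers (⟨u, huC⟩ : ↥C) ≤ (P : Subgroup ↥C) := by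
      have h3 := hpg.exists_le_sylow
      obtain ⟨Q, hQ⟩ := h3
      obtain ⟨g, hg⟩ := MulAction.exists_smul_eq ↥C Q P
      have h4 : Subgroup.zpowers (⟨u, huC⟩ : ↥C) ≤ ((g • Q : Sylow p ↥C) : Subgroup ↥C) := by
        intro x hx
        have h5 : g⁻¹ * x * g⁻¹⁻¹ ∈ Subgroup.zpowers (⟨u, huC⟩ : ↥C) := hnorm.conj_mem x hx g⁻¹
        have h6 := hQ h5
        rw [inv_inv] at h6
        rw [Sylow.coe_subgroup_smul, Subgroup.mem_pointwise_smul_iff_inv_smul_mem]
        change (MulAut.conj g)⁻¹ x ∈ (Q : Subgroup ↥C)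
        rw [← map_inv, MulAut.conj_apply, inv_inv]
        exact h6
      rw [hg] at h4
      exact h4
    exact h1 (Subgroup.mem_zpowers _)
  set S : Subgroup G := (P : Subgroup ↥C).map C.subtype with hS
  have huS : u ∈ S := ⟨⟨u, huC⟩, huP, rfl⟩
  have hSC : S ≤ C := by
    rintro x ⟨y, _, rfl⟩
    exact y.2
  -- the exponent
  set k := ordCompl[p] (Nat.card G) with hk
  have hG0 : Nat.card G ≠ 0 := Nat.card_pos.ne'
  have hkp : ¬ p ∣ k := Nat.not_dvd_ordCompl hp hG0
  have hyF : HyF p k S w := by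
    refine ⟨hO, P.2.map C.subtype, ?_, ?_⟩
    · intro x hx
      exact (hmemC x).1 (hSC hx)
    · intro g
      refine ⟨(Nat.card G).factorization p, ?_⟩
      rw [← pow_mul, hk, mul_comm, Nat.ordProj_mul_ordCompl_eq_self]
      exact pow_card_eq_one'
  -- the homomorphism
  let lam : ↥S →* Abelianization ↥C := Abelianization.of.comp (Subgroup.inclusion hSC)
  have hlam : lam ⟨u, huS⟩ ≠ 1 := by
    intro h
    have h1 : (Abelianization.of (⟨u, huC⟩ : ↥C)) = 1 := h
    have h2 : (⟨u, huC⟩ : ↥C) ∈ commutator ↥C := by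
      rw [← Abelianization.ker_of]
      exact h1
    apply hn
    have h3 : (commutator ↥C).map C.subtype = ⁅C, C⁆ := by
      rw [commutator_def, Subgroup.map_commutator, ← MonoidHom.range_eq_map, Subgroup.range_subtype]
    rw [← h3]
    exact ⟨_, h2, rfl⟩
  have hmain := KF hyF hkp huS ⟨nu, hnu⟩ rfl hud hd lam hlam
  have hcS : Nat.card S = ordProj[p] (Nat.card C) := by
    rw [hS, Nat.card_congr ((P : Subgroup ↥C).equivMapOfInjective C.subtype
      C.subtype_injective).symm.toEquiv]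
    exact Sylow.card_eq_multiplicity P
  rw [hcS] at hmain
  have hX : Nat.card (XW p w) = Nat.card {t : G × G // cmt t.1 t.2 = w ∧
        ∀ g : G, Preg p g → g ∈ Subgroup.closure ({t.1, t.2} : Set G)} := by
    refine Nat.card_congr (Equiv.subtypeEquivRight ?_)
    intro t
    exact ⟨fun h => ⟨h.cm, h.ge⟩, fun h => ⟨h.1, h.2⟩⟩
  rw [hX] at hmain
  exact hmain

end Pool.Agent.Lib.P0c8ca5.Se
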