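import Mathlib
import Pool.Agent.Lib.P0c8ca5Se.Foc
import Pool.Agent.Lib.P0c8ca5Se.Defs
import Pool.Agent.Lib.P0c8ca5Ab.Sum
import Pool.Agent.Lib.P0c8ca5Gs.RelS

/-!
# Kf: `Kil` from the focal condition

PROOF. Let `w' = w⁻¹ = u⁻¹ * d⁻¹` and `f : (Fin 2 → G) → ℤ`, `f t = ic w ((cmt (t 0) (t 1))⁻¹)`, so `f t = 1` iff `cmt (t 0) (t 1)` is conjugate to `w'`. `CT f` (`CF_ic`, `cmt` of conjugates). `Gs.eT p f = eE p (ic w)` (`finTwoArrowEquiv`, as in `Ab.SumAux.bT_eq`; `gT t ≤ U` iff `t 0, t 1 ∈ U`). By `Gs.eT_of_bT`, `Gs.fullS` and `eE_dvd_cf` (Bx.ABa) it is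
enough to show `p * ordProj[p] |U| ∣ Gs.bT p U f` for every `U` with `NoP p U`; by `Gs.bT_dn` (Gs.TC) this is `Gs.bT p (⊤ : Subgroup ↥U) (rsT U f)`, and (as in `Ab.SumAux.bT_eq`) it is the sum over `z : ↥U` of `[z conjugate in G to w'] * (number of the pairs in ↥U with commutator z generating all p-regular elements)`; `Ab.cls_sum` (P0c8ca5Ab.Cls) in `↥U`, and for `z` conjugate in `G` to `w'`: `z = u₁ * d₁`, `u₁ = z * (pr p z)⁻¹` conjugate to `u⁻¹`
(`pr_conj`, `pr p w' = d⁻¹`), `u₁ ∉ [C_U(z), C_U(z)]`, since the image in `G` of this subgroup is contained in `[C_G(z), C_G(z)]`, a conjugate of `[C_G(w), C_G(w)]` (`C_G(w') = C_G(w)`). `focal_pel` in `↥U` (`NoP_dn`).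
-/

namespace Pool.Agent.Lib.P0c8ca5.Se

namespace KfAux

section
variable {H : Type*} [Group H] {p : ℕ}

/-- the sum over the pairs, sorted by the commutator -/
theorem bT_sum [Finite H] (F : H → ℤ) :
    Gs.bT p (⊤ : Subgroup H) (fun t : Fin 2 → H => F (cmt (t 0) (t 1)))
      = ∑ᶠ w : H, F w * (Nat.card (Ab.XW p w) : ℤ) := by
  classical
  have : Fintype H := Fintype.ofFinite H
  unfold Gs.bT
  rw [← finsum_comp_equiv (finTwoArrowEquiv H).symm, finsum_eq_sum_of_fintype,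
    finsum_eq_sum_of_fintype]
  have h1 : ∀ w : H, F w * (Nat.card (Ab.XW p w) : ℤ)
      = ∑ y : H × H, if Ab.Pw p w y.1 y.2 then F w else 0 := by
    intro w
    have h2 : Nat.card (Ab.XW p w) =
        (Finset.univ.filter fun y : H × H => Ab.Pw p w y.1 y.2).card := by
      unfold Ab.XW
      rw [Nat.card_eq_fintype_card, Fintype.card_subtype]
    rw [h2, Finset.card_filter, Nat.cast_sum, Finset.mul_sum]
    refine Finset.sum_congr rfl fun y _ => ?_
    by_cases h3 : Ab.Pw p w y.1 y.2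
    · rw [if_pos h3, if_pos h3, Nat.cast_one, mul_one]
    · rw [if_neg h3, if_neg h3, Nat.cast_zero, mul_zero]
  rw [Finset.sum_congr rfl fun w _ => h1 w, Finset.sum_comm]
  refine Finset.sum_congr rfl fun y _ => ?_
  rw [Gs.PrTAux.gT_two,
    Finset.sum_eq_single (cmt y.1 y.2) (fun w _ hw => if_neg fun h => hw h.cm.symm)
      (fun h => absurd (Finset.mem_univ _) h)]
  refine if_congr ?_ rfl rfl
  rw [ClsFAux.opr_le_iff]
  exact ⟨fun h => ⟨rfl, h.2⟩, fun h => ⟨le_top, h.ge⟩⟩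

/-- uniqueness of the two parts -/
theorem parts [Fact p.Prime] [Finite H] {u d u' d' : H} (hc : Commute u d) (hu : Pel p u)
    (hd : Preg p d) (hc' : Commute u' d') (hu' : Pel p u') (hd' : Preg p d')
    (h : u * d = u' * d') : u = u' := by
  have key : ∀ {a b : H}, Commute a b → Pel p a → Preg p b → pr p (a * b) = b := by
    intro a b hab ha hb
    obtain ⟨n, hn⟩ := ha
    rw [pr_mul hab, pr_of_pow hn, pr_eq_self hb, one_mul]
  have h1 : d = d' := by
    rw [← key hc hu hd, h, key hc' hu' hd']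
  rw [h1] at h
  exact mul_right_cancel h

/-- the fibre -/
theorem fib [Fact p.Prime] {G : Type*} [Group G] [Finite G] {u d : G}
    (hud : Commute u d) (hu : Pel p u) (hd : Preg p d)
    (hn : u ∉ ⁅Subgroup.centralizer ({u * d} : Set G), Subgroup.centralizer ({u * d} : Set G)⁆)
    {U : Subgroup G} (hU : NoP p U) (z : ↥U) {g : G} (hz : (z : G)⁻¹ = g * (u * d) * g⁻¹) :
    p * ordProj[p] (Nat.card (Subgroup.centralizer ({z} : Set ↥U))) ∣
      Nat.card (Ab.XW p z) := by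
  have hcz : Commute z (pr p z) := (Commute.refl z).pow_right _
  have c1 : Commute (z * (pr p z)⁻¹) (pr p z) :=
    hcz.mul_left ((Commute.refl (pr p z)).inv_left)
  have e1 : z * (pr p z)⁻¹ * pr p z = z := inv_mul_cancel_right z _
  have p1 : Pel p (z * (pr p z)⁻¹) := exists_pow_mul_inv_pr z
  have p2 : Preg p (pr p z) := preg_pr z
  -- in `G`
  have q1 : Pel p (((z * (pr p z)⁻¹ : ↥U)) : G) := by
    obtain ⟨n, hn⟩ := p1
    exact ⟨n, by rw [← Subgroup.coe_pow, hn, Subgroup.coe_one]⟩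
  have q2 : Preg p ((pr p z : ↥U) : G) := by
    unfold Preg at p2 ⊢
    rwa [Subgroup.orderOf_coe]
  have q3 : Commute (((z * (pr p z)⁻¹ : ↥U)) : G) ((pr p z : ↥U) : G) := by
    have := congrArg Subtype.val c1.eq
    exact this
  have r1 : Pel p (g * u⁻¹ * g⁻¹) := by
    obtain ⟨n, hn⟩ := hu
    refine ⟨n, ?_⟩
    rw [conj_pow, inv_pow, hn, inv_one, mul_one, mul_inv_cancel]
  have r2 : Preg p (g * d⁻¹ * g⁻¹) := by
    rw [preg_conj]
    unfold Preg at hd ⊢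
    rwa [orderOf_inv]
  have r3 : Commute (g * u⁻¹ * g⁻¹) (g * d⁻¹ * g⁻¹) := by
    have h1 : Commute u⁻¹ d⁻¹ := hud.inv_inv
    change g * u⁻¹ * g⁻¹ * (g * d⁻¹ * g⁻¹) = g * d⁻¹ * g⁻¹ * (g * u⁻¹ * g⁻¹)
    have h2 : g * u⁻¹ * g⁻¹ * (g * d⁻¹ * g⁻¹) = g * (u⁻¹ * d⁻¹) * g⁻¹ := by group
    have h3 : g * d⁻¹ * g⁻¹ * (g * u⁻¹ * g⁻¹) = g * (d⁻¹ * u⁻¹) * g⁻¹ := by group
    rw [h2, h3, h1.eq]
  have e2 : (z : G) = g * u⁻¹ * g⁻¹ * (g * d⁻¹ * g⁻¹) := by
    have h1 : (z : G) = ((z : G)⁻¹)⁻¹ := (inv_inv _).symm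
    rw [h1, hz, hud.eq]
    group
  have e3 : (((z * (pr p z)⁻¹ : ↥U)) : G) * ((pr p z : ↥U) : G) = (z : G) :=
    congrArg Subtype.val e1
  have key : (((z * (pr p z)⁻¹ : ↥U)) : G) = g * u⁻¹ * g⁻¹ :=
    parts q3 q1 q2 r3 r1 r2 (e3.trans e2)
  -- the focal condition in `U`
  have hn' : z * (pr p z)⁻¹ ∉ ⁅Subgroup.centralizer ({z} : Set ↥U),
      Subgroup.centralizer ({z} : Set ↥U)⁆ := by
    intro hmem
    apply hn
    have h1 := Subgroup.mem_map_of_mem U.subtype hmem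
    rw [Subgroup.map_commutator] at h1
    have h2 : (Subgroup.centralizer ({z} : Set ↥U)).map U.subtype ≤
        (Subgroup.centralizer ({u * d} : Set G)).map (MulAut.conj g).toMonoidHom := by
      rintro x ⟨y, hy, rfl⟩
      have h3 : y * z = z * y := Subgroup.mem_centralizer_singleton_iff.1 hy
      have h4 : (y : G) * z = z * y := congrArg Subtype.val h3
      have h5 : (y : G) * (z : G)⁻¹ = (z : G)⁻¹ * y :=
        (show Commute (y : G) z from h4).inv_right.eq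
      refine ⟨g⁻¹ * y * g, ?_, ?_⟩
      · refine Subgroup.mem_centralizer_singleton_iff.2 ?_
        have h6 : u * d = g⁻¹ * (z : G)⁻¹ * g := by
          rw [hz]
          group
        rw [h6]
        have h7 : g⁻¹ * (y : G) * g * (g⁻¹ * (z : G)⁻¹ * g) = g⁻¹ * ((y : G) * (z : G)⁻¹) * g := by
          group
        have h8 : g⁻¹ * (z : G)⁻¹ * g * (g⁻¹ * (y : G) * g) = g⁻¹ * ((z : G)⁻¹ * (y : G)) * g := by
          group
        rw [h7, h8, h5]
      · change g * (g⁻¹ * (y : G) * g) * g⁻¹ = (y : G)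
        group
    have h3 := Subgroup.commutator_mono h2 h2 h1
    rw [← Subgroup.map_commutator] at h3
    obtain ⟨x, hx, hx2⟩ := h3
    have h4 : g * x * g⁻¹ = g * u⁻¹ * g⁻¹ := by
      change g * x * g⁻¹ = (((z * (pr p z)⁻¹ : ↥U)) : G) at hx2
      rw [hx2, key]
    have h5 : x = u⁻¹ := mul_left_cancel (mul_right_cancel h4)
    rw [h5] at hx
    have h6 := inv_mem hx
    rwa [inv_inv] at h6
  have h := focal_pel (p := p) ((NoP_dn U).2 hU) c1 p1 p2 (by rw [e1]; exact hn')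
  rw [e1] at h
  refine dvd_trans h (dvd_of_eq ?_)
  exact Nat.card_congr (Equiv.subtypeEquivRight fun t =>
    ⟨fun h => ⟨h.1, h.2⟩, fun h => ⟨h.cm, h.ge⟩⟩)

end

end KfAux

open KfAux

theorem kil_focal {p : ℕ} [Fact p.Prime] {G : Type*} [Group G] [Finite G] {u d : G}
    (hud : Commute u d) (hu : Pel p u) (hd : Preg p d)
    (hn : u ∉ ⁅Subgroup.centralizer ({u * d} : Set G), Subgroup.centralizer ({u * d} : Set G)⁆) :
    Kil p (u * d) := by
  classical
  set w : G := u * d with hw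
  let f : (Fin 2 → G) → ℤ := fun t => ic w ((cmt (t 0) (t 1))⁻¹)
  have hCT : Gs.CT f := by
    intro g t
    have h1 : cmt (Gs.cjt g t 0) (Gs.cjt g t 1) = g * cmt (t 0) (t 1) * g⁻¹ :=
      ChOrbAux.cmt_conj g (t 0) (t 1)
    have h2 : (cmt (Gs.cjt g t 0) (Gs.cjt g t 1))⁻¹ = g * (cmt (t 0) (t 1))⁻¹ * g⁻¹ := by
      rw [h1]
      group
    change ic w ((cmt (Gs.cjt g t 0) (Gs.cjt g t 1))⁻¹) = ic w ((cmt (t 0) (t 1))⁻¹)
    rw [h2]
    exact CF_ic w g _
  have hnT : ∀ U : Subgroup G, Gs.nT U f = nE U (ic w) := by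
    intro U
    unfold Gs.nT nE
    rw [← finsum_comp_equiv (finTwoArrowEquiv G).symm]
    refine finsum_congr fun y => ?_
    rw [Gs.PrTAux.gT_two]
    exact if_congr Gs.PrTAux.clo_le rfl rfl
  have heT : Gs.eT p f = eE p (ic w) := by
    unfold Gs.eT eE
    exact congrArg (chS p) (funext hnT)
  unfold Kil
  refine Gs.fullS ?_ (Bx.eE_dvd_cf (CF_ic w))
  rw [← heT]
  refine Gs.eT_of_bT hCT fun U hU => ?_
  rw [← Gs.bT_dn]
  have hrs : Gs.rsT U f = fun t : Fin 2 → ↥U =>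
      (fun z : ↥U => ic w ((z : G)⁻¹)) (cmt (t 0) (t 1)) := rfl
  have hbs := bT_sum (H := ↥U) (p := p) (fun z : ↥U => ic w ((z : G)⁻¹))
  rw [hrs]
  beta_reduce at hbs ⊢
  rw [hbs]
  refine Ab.cls_sum ?_ ?_
  · intro g z
    have h1 : (((g * z * g⁻¹ : ↥U)) : G)⁻¹ = (g : G) * (z : G)⁻¹ * (g : G)⁻¹ := by
      rw [Subgroup.coe_mul, Subgroup.coe_mul, Subgroup.coe_inv]
      group
    beta_reduce
    rw [h1, CF_ic w (g : G), Ab.SumAux.card_cj]
  · intro z
    by_cases h : IsConj w ((z : G)⁻¹)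
    · refine Dvd.dvd.mul_left ?_ _
      obtain ⟨g, hg⟩ := isConj_iff.1 h
      exact_mod_cast fib hud hu hd hn hU z hg.symm
    · have h1 : ic w ((z : G)⁻¹) = 0 := if_neg h
      rw [h1, zero_mul]
      exact dvd_zero _

end Pool.Agent.Lib.P0c8ca5.Se
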