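import Mathlib
import Pool.Agent.Lib.P0c8ca5Se.Gen
import Pool.Agent.Lib.P0c8ca5V.RelW
import Pool.Agent.Lib.P0c8ca5Rc.Bi

/-!
# Rel: from `psi` to the gap

PROOF. `rel_of_psi`: the second half of the proof of `relW` (V.RelW) with `Loc` replaced: `CCAux.diff_eq`, `sub_dvd`, `CCAux.FF_dvd`, and for a p-subgroup `Q`, `G' = NQ Q`, `m' = mb Q m` (`hW.mb`): `eL p m' - nA p ⊤ m' = psi p m' - (eE p m' - eL p m')` (`eE_eL`, V.CA). `gap_of_T`: copy `gap_of_fam` (P0c8ca5Ab.Fam) with `T d` instead of `AbC p d`.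
-/

namespace Pool.Agent.Lib.P0c8ca5.Se

open MonoidAlgebra

universe u

theorem rel_of_psi {p : ℕ} [Fact p.Prime] {W : ∀ (G : Type u) [Group G], (G → ℤ) → Prop}
    (hW : WFam p W)
    (h : ∀ (G : Type u) [Group G] [Finite G] (m : G → ℤ), W G m →
      (p : ℤ) * (Nat.card G : ℤ) ∣ psi p m)
    (G : Type u) [Group G] [Finite G] {m : G → ℤ} (hm : W G m) :
    (p : ℤ) * (Nat.card G : ℤ) ∣ nL p (⊤ : Subgroup G) m - wS p m := by
  have hm' := hW.wt G m hm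
  rw [CCAux.diff_eq hm']
  refine sub_dvd (CCAux.FF p m) (fun g U => CCAux.FF_cg hm' g U) (p : ℤ) fun Q => ?_
  refine CCAux.FF_dvd Q fun hQ => ?_
  have hWQ := hW.mb G m hm Q hQ
  have h1 : IsWt p (⊤ : Subgroup (NQ Q)) (mb Q m) := hW.wt _ _ hWQ
  have h2 := h (NQ Q) (mb Q m) hWQ
  have h3 := eE_eL (p := p) h1
  have h4 : eL p (mb Q m) - nA p (⊤ : Subgroup (NQ Q)) (mb Q m)
      = psi p (mb Q m) - (eE p (mb Q m) - eL p (mb Q m)) := by
    unfold psi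
    ring
  rw [h4]
  exact dvd_sub h2 h3

open TFinAux Rc.BiAux in
theorem gap_of_T {p : ℕ} [Fact p.Prime] {k : Type*} [Field k] [IsAlgClosed k] [CharP k p]
    {A : Type*} [Group A] [Finite A] {b : MonoidAlgebra k A} (hb : IsBlock (⊤ : Subgroup A) b)
    {T : A → Prop} (hT : ∀ d, b.coeff d ≠ 0 → T d)
    (h : ∀ m : A → ℤ, IsWt p ⊤ m → (∀ d, m d ≠ 0 → T d) →
      (p : ℤ) * (Nat.card A : ℤ) ∣ nL p (⊤ : Subgroup A) m - wS p m) :
    ∃ t : ℤ, gap p (⊤ : Subgroup A) ⊤ b = (p : ℚ) * t := by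
  classical
  let _ : Fintype A := Fintype.ofFinite A
  have hA : (Nat.card A : ℤ) ≠ 0 := by exact_mod_cast (Nat.card_pos (α := A)).ne'
  have hwt : ∀ c : k, c ≠ 0 → IsWt p (⊤ : Subgroup A) (lev b c) := by
    intro c hc
    constructor
    · intro g hg x
      have h1 : b.coeff (g * x * g⁻¹) = b.coeff x := hb.invBy g hg x
      unfold lev
      rw [h1]
    · intro x hx
      refine osima hb.mem hb.idem (x := x) (fun h0 => hx ?_)
      exact if_neg (fun h1 => hc (by rw [← h1, h0]))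
  have hAb : ∀ c : k, c ≠ 0 → ∀ d, lev b c d ≠ 0 → T d := by
    intro c hc d hd
    refine hT d (fun h0 => hd ?_)
    exact if_neg (fun h1 => hc (by rw [← h1, h0]))
  have h1 : Lam p b = 0 := by
    rw [eq_sum_lev b, Lam_sum]
    refine Finset.sum_eq_zero (fun c hc => ?_)
    rw [Finset.mem_filter] at hc
    rw [Lam_smul]
    obtain ⟨t, ht, ht'⟩ := Lam_zel (k := k) (hwt c hc.2)
    have h2 := h _ (hwt c hc.2) (hAb c hc.2)
    rw [ht, mul_comm (p : ℤ)] at h2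
    have h3 : (p : ℤ) ∣ t := Int.dvd_of_mul_dvd_mul_left hA h2
    have h4 : (t : k) = 0 := (CharP.intCast_eq_zero_iff k p t).2 h3
    rw [← ht', h4, mul_zero]
  rw [Lam_blk hb] at h1
  obtain ⟨s, hs⟩ := (CharP.intCast_eq_zero_iff k p _).1 h1
  refine ⟨s, ?_⟩
  rw [gap_gp hb, hs]
  push_cast
  rfl

end Pool.Agent.Lib.P0c8ca5.Se
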