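import Mathlib
import Pool.Agent.Lib.P0c8ca5.GroupLem

/-!
# Tra: a central p-element outside the commutator subgroup of a Sylow p-subgroup

PROOF. Transfer. Let `C` be the group `↥C`, `D' = D.subgroupOf C`, `ϕ : ↥D' →* Abelianization ↥D'`. Suppose `u ∈ [C, C]`; then `MonoidHom.transfer ϕ u = 1` (the target is commutative), and by `MonoidHom.transfer_eq_pow` (`u` central) it is `ϕ (u ^ index)`. So `u ^ j ∈ [D', D']`, `j = index` prime to `p` (`IsSyl.ndvd`), `u` is a p-element, so `u ∈ [D', D']`, whose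
image in `A` is `[D, D]`.
-/

namespace Pool.Agent.Lib.P0c8ca5.Se

theorem not_mem_comm {p : ℕ} [Fact p.Prime] {A : Type*} [Group A] [Finite A] {C D : Subgroup A}
    (hD : IsSyl p C D) {u : A} (hu : u ∈ D) (hc : ∀ x ∈ C, x * u = u * x) (hn : u ∉ ⁅D, D⁆) :
    u ∉ ⁅C, C⁆ := by
  classical
  intro huC
  apply hn
  obtain ⟨D', hD'⟩ : ∃ D' : Subgroup C, D' = D.subgroupOf C := ⟨_, rfl⟩
  have hmapD : D'.map C.subtype = D := by
    rw [hD']
    exact Subgroup.map_subgroupOf_eq_of_le hD.le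
  have huC' : u ∈ C := hD.le hu
  have h1 : (⟨u, huC'⟩ : C) ∈ commutator C := by
    rw [← Subgroup.map_subtype_commutator] at huC
    obtain ⟨y, hy, hyu⟩ := huC
    have : y = ⟨u, huC'⟩ := Subtype.ext hyu
    rw [← this]
    exact hy
  have h2 : (Abelianization.of : D' →* Abelianization D').transfer ⟨u, huC'⟩ = 1 :=
    Abelianization.commutator_subset_ker _ h1
  have key : ∀ (k : ℕ) (g₀ : C), g₀⁻¹ * (⟨u, huC'⟩ : C) ^ k * g₀ ∈ D' →
      g₀⁻¹ * (⟨u, huC'⟩ : C) ^ k * g₀ = (⟨u, huC'⟩ : C) ^ k := by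
    intro k g₀ _
    have hcomm : Commute g₀ (⟨u, huC'⟩ : C) := Subtype.ext (hc g₀ g₀.2)
    rw [mul_assoc, ← (hcomm.pow_right k).eq, inv_mul_cancel_left]
  rw [MonoidHom.transfer_eq_pow _ _ key] at h2
  have h3 : (⟨(⟨u, huC'⟩ : C) ^ D'.index, MonoidHom.transfer_eq_pow_aux _ key⟩ : D') ∈
      commutator D' := by
    rw [← Abelianization.ker_of]
    exact h2
  have h4 : ((⟨u, huC'⟩ : C) ^ D'.index) ∈ ⁅D', D'⁆ := by
    rw [← Subgroup.map_subtype_commutator]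
    exact ⟨_, h3, rfl⟩
  have h5 : u ^ D'.index ∈ ⁅D, D⁆ := by
    rw [← hmapD, ← Subgroup.map_commutator]
    exact ⟨_, h4, by simp⟩
  have hidx : ¬ p ∣ D'.index := by
    rw [hD']
    exact hD.ndvd
  obtain ⟨k, hk⟩ := hD.isPGroup ⟨u, hu⟩
  have hk' : u ^ p ^ k = 1 := by
    have := congrArg Subtype.val hk
    simpa using this
  have hcop : Nat.Coprime D'.index (p ^ k) :=
    (((Fact.out : p.Prime).coprime_iff_not_dvd.mpr hidx).symm).pow_right k
  have hbez := Nat.gcd_eq_gcd_ab D'.index (p ^ k)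
  rw [hcop] at hbez
  have h6 : u = (u ^ D'.index) ^ (D'.index.gcdA (p ^ k)) := by
    calc u = u ^ ((1 : ℕ) : ℤ) := by simp
      _ = u ^ ((D'.index : ℤ) * D'.index.gcdA (p ^ k) +
          ((p ^ k : ℕ) : ℤ) * D'.index.gcdB (p ^ k)) := by rw [hbez]
      _ = (u ^ D'.index) ^ (D'.index.gcdA (p ^ k)) := by
        rw [zpow_add, zpow_mul, zpow_mul, zpow_natCast, zpow_natCast, hk', one_zpow, mul_one]
  rw [h6]
  exact Subgroup.zpow_mem _ h5 _

end Pool.Agent.Lib.P0c8ca5.Se
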