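import Mathlib
import Pool.Agent.Lib.P0c8ca5Se.Ind
import Pool.Agent.Lib.P0c8ca5Se.Rel
import Pool.Agent.Lib.P0c8ca5Se.Fam
import Pool.Agent.Lib.P0c8ca5Se.Kf
import Pool.Agent.Lib.P0c8ca5Se.Tra
import Pool.Agent.Lib.P0c8ca5Ab.Fin
import Pool.Agent.Lib.P0c8ca5N.Crep

/-!
# Fin: Navarro's equality modulo p for blocks with section-good defect groups

PROOF. `psi_sg`: `psi_lin` and `ind` with `T = SgC p` (`SgC_conj`); for `d` p-regular, `SgC p d`, `D ≠ ⊥` a Sylow p-subgroup of `C(d)`: `Sg D` with `R = ⊥`, `E = D` gives `u ∈ D` central in `D`, `u ∉ ⁅D, D⁆` (so `u ≠ 1`), `u` is a p-element commuting with `d`; `C(u * d) ≤ C(d)`, `D` is a Sylow p-subgroup of `C(u * d)`, whose elements commute with `u` (a power of `u * d`); `not_mem_comm` and `kil_focal`.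
`gap_cent`: copy `gap_abel` (P0c8ca5Ab.Fin) with `gap_of_T`, `rel_of_psi (WFam_sg p)`; `Sg` passes from `D` to its conjugates and subgroups and to `Subgroup.map G.subtype`.
-/

namespace Pool.Agent.Lib.P0c8ca5.Se

open MonoidAlgebra

universe u v

namespace FinAux

section
variable {A : Type*} [Group A]

theorem sg_mono {D P : Subgroup A} (h : Sg D) (hP : P ≤ D) : Sg P :=
  fun R E hRE hEP hn hne => h R E hRE (hEP.trans hP) hn hne

/-- a section-good group and its conjugates -/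
theorem sg_cg {D : Subgroup A} (h : Sg D) (g : A) : Sg (cg g D) := by
  intro R E hRE hED hn hne
  have e0 : ∀ X : Subgroup A, cg g (cg g⁻¹ X) = X := fun X => by
    rw [cg_cg, mul_inv_cancel, cg_one]
  have hcomm : cg g ⁅cg g⁻¹ E, cg g⁻¹ E⁆ = ⁅E, E⁆ := by
    unfold Pool.Agent.Lib.P0c8ca5.cg
    rw [Subgroup.map_commutator]
    have e1 := e0 E
    unfold Pool.Agent.Lib.P0c8ca5.cg at e1
    rw [e1]
  obtain ⟨z, hz, hz1, hz2⟩ := h (cg g⁻¹ R) (cg g⁻¹ E) (cg_le_cg hRE) (by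
      have := cg_le_cg (g := g⁻¹) hED
      rwa [cg_cg, inv_mul_cancel, cg_one] at this) (by
      intro x hx
      rw [Subgroup.mem_normalizer_iff]
      intro y
      rw [mem_cg, inv_inv] at hx
      have h1 := Subgroup.mem_normalizer_iff.1 (hn hx) (g * y * g⁻¹)
      have e : (g * x * g⁻¹) * (g * y * g⁻¹) * (g * x * g⁻¹)⁻¹ = g * (x * y * x⁻¹) * g⁻¹ := by
        group
      rw [e] at h1
      change y ∈ Pool.Agent.Lib.P0c8ca5.cg g⁻¹ R ↔ x * y * x⁻¹ ∈ Pool.Agent.Lib.P0c8ca5.cg g⁻¹ R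
      rw [mem_cg, mem_cg, inv_inv]
      exact h1) (by
      intro h1
      apply hne
      rw [← e0 R, ← e0 E, h1])
  refine ⟨g * z * g⁻¹, ?_, ?_, ?_⟩
  · rw [mem_cg, inv_inv] at hz
    exact hz
  · intro x hx
    have h1 := hz1 (g⁻¹ * x * g) (by
      rw [mem_cg, inv_inv]
      have e : g * (g⁻¹ * x * g) * g⁻¹ = x := by group
      rwa [e])
    rw [mem_cg, inv_inv] at h1
    have e : g * (z * (g⁻¹ * x * g) * z⁻¹ * (g⁻¹ * x * g)⁻¹) * g⁻¹
        = g * z * g⁻¹ * x * (g * z * g⁻¹)⁻¹ * x⁻¹ := by group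
    rwa [e] at h1
  · intro h1
    apply hz2
    have h2 : cg g (cg g⁻¹ R ⊔ ⁅cg g⁻¹ E, cg g⁻¹ E⁆) = R ⊔ ⁅E, E⁆ := by
      have h3 : cg g (cg g⁻¹ R ⊔ ⁅cg g⁻¹ E, cg g⁻¹ E⁆)
          = cg g (cg g⁻¹ R) ⊔ cg g ⁅cg g⁻¹ E, cg g⁻¹ E⁆ := Subgroup.map_sup _ _ _
      rw [h3, hcomm, e0]
    rw [← h2, mem_cg] at h1
    have e : g⁻¹ * (g * z * g⁻¹) * g = z := by group
    rwa [e] at h1

end

section
variable {Γ : Type*} [Group Γ]

/-- a section-good image -/
theorem sg_of_map {G : Subgroup Γ} {P : Subgroup ↥G} (h : Sg (P.map G.subtype)) : Sg P := by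
  intro R E hRE hEP hn hne
  have hinj : Function.Injective G.subtype := G.subtype_injective
  obtain ⟨z, hz, hz1, hz2⟩ := h (R.map G.subtype) (E.map G.subtype) (Subgroup.map_mono hRE)
    (Subgroup.map_mono hEP) (by
      rintro _ ⟨x, hx, rfl⟩
      rw [Subgroup.mem_normalizer_iff]
      intro y
      have hxn := Subgroup.mem_normalizer_iff.1 (hn hx)
      constructor
      · rintro ⟨y', hy', rfl⟩
        exact ⟨x * y' * x⁻¹, (hxn y').1 hy', by simp⟩
      · rintro ⟨y', hy', he⟩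
        have h1 : y = G.subtype (x⁻¹ * y' * x) := by
          have h2 : G.subtype y' = G.subtype x * y * (G.subtype x)⁻¹ := he
          rw [map_mul, map_mul, map_inv, h2]
          group
        refine ⟨x⁻¹ * y' * x, ?_, h1.symm⟩
        refine (hxn _).2 ?_
        have e : x * (x⁻¹ * y' * x) * x⁻¹ = y' := by group
        rw [e]
        exact hy') (by
      intro h1
      exact hne (Subgroup.map_injective hinj h1))
  obtain ⟨z', hz', rfl⟩ := hz
  refine ⟨z', hz', ?_, ?_⟩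
  · intro x hx
    obtain ⟨r, hr, he⟩ := hz1 (G.subtype x) ⟨x, hx, rfl⟩
    have h1 : r = z' * x * z'⁻¹ * x⁻¹ := hinj (by rw [he]; simp)
    rwa [← h1]
  · intro h1
    apply hz2
    have h2 : G.subtype z' ∈ (R ⊔ ⁅E, E⁆).map G.subtype := ⟨z', h1, rfl⟩
    rwa [Subgroup.map_sup, Subgroup.map_commutator] at h2

end

end FinAux

open FinAux

theorem psi_sg {p : ℕ} [Fact p.Prime] (G : Type u) [Group G] [Finite G] {m : G → ℤ}
    (hm : IsWt p (⊤ : Subgroup G) m) (hs : ∀ d, m d ≠ 0 → SgC p d) :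
    (p : ℤ) * (Nat.card G : ℤ) ∣ psi p m := by
  refine psi_lin (Bx.CF_of_wt hm) (fun d hd => ?_)
  have hd0 : m d ≠ 0 := fun h0 => hd (h0 ▸ dvd_zero _)
  refine ind (T := SgC p) (fun d x hd hx h => SgC_conj d x hd hx h) ?_ (hm.reg d hd0) (hs d hd0)
  intro d hpd hd D hD hD0
  have hcd : ∀ x ∈ D, x * d = d * x := fun x hx =>
    Subgroup.mem_centralizer_singleton_iff.1 (hD.le hx)
  obtain ⟨u, hu, huc, hun⟩ := hd D hD.isPGroup hcd ⊥ D bot_le le_rfl (by
    intro x _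
    rw [Subgroup.mem_normalizer_iff]
    intro y
    change y ∈ (⊥ : Subgroup G) ↔ x * y * x⁻¹ ∈ (⊥ : Subgroup G)
    rw [Subgroup.mem_bot, Subgroup.mem_bot, conj_eq_one_iff]) (Ne.symm hD0)
  have hun' : u ∉ ⁅D, D⁆ := fun h => hun (by rw [bot_sup_eq]; exact h)
  have hcu : ∀ x ∈ D, x * u = u * x := by
    intro x hx
    have h1 := huc x hx
    rw [Subgroup.mem_bot, mul_inv_eq_one, mul_inv_eq_iff_eq_mul] at h1
    exact h1.symm
  have hup : Pel p u := by
    obtain ⟨a, ha⟩ := hD.isPGroup ⟨u, hu⟩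
    refine ⟨a, ?_⟩
    have := congrArg Subtype.val ha
    simpa using this
  have hud : Commute u d := hcd u hu
  refine ⟨u, hu, fun h1 => hun' (h1 ▸ Subgroup.one_mem _), hcu, ?_⟩
  refine kil_focal hud hup hpd ?_
  have hle : Subgroup.centralizer ({u * d} : Set G) ≤ Subgroup.centralizer ({d} : Set G) := by
    intro x hx
    rw [Subgroup.mem_centralizer_singleton_iff] at hx ⊢
    exact IndAux.comm_d hud hup hpd hx
  have hDle : D ≤ Subgroup.centralizer ({u * d} : Set G) := by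
    intro x hx
    rw [Subgroup.mem_centralizer_singleton_iff]
    exact ((show Commute x u from hcu x hx).mul_right (show Commute x d from hcd x hx)).eq
  obtain ⟨P, hP⟩ := exists_isSyl (p := p) (Subgroup.centralizer ({u * d} : Set G))
  have hD' : IsSyl p (Subgroup.centralizer ({u * d} : Set G)) D :=
    hP.of_card hDle hD.isPGroup (hD.card_le (hP.le.trans hle) hP.isPGroup)
  refine not_mem_comm hD' hu (fun x hx => ?_) hun'
  have h1 := Subgroup.mem_centralizer_singleton_iff.1 hx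
  have h2 := Subgroup.mem_centralizer_singleton_iff.1 (hle hx)
  have h3 : Commute x ((u * d) * d⁻¹) :=
    (show Commute x (u * d) from h1).mul_right (show Commute x d from h2).inv_right
  rw [mul_inv_cancel_right] at h3
  exact h3

theorem gap_cent {p : ℕ} [Fact p.Prime] {k : Type v} [Field k] [IsAlgClosed k] [CharP k p]
    {Γ : Type u} [Group Γ] [Finite Γ] (G : Subgroup Γ) [G.Normal] (hΓ : IsPGroup p (Γ ⧸ G))
    {e : MonoidAlgebra k Γ} (he : IsBlock G e) (hinv : InvBy ⊤ e) {D : Subgroup Γ}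
    (hD : IsDefectGroup p G e D) (hs : Sg D) :
    ∃ t : ℤ, gap p G ⊤ e = (p : ℚ) * t := by
  have : Fintype Γ := Fintype.ofFinite Γ
  obtain ⟨t, ht⟩ := gap_mod hΓ he hinv
  have he' := dn_isBlock he
  have key : ∃ t : ℤ, gap p (⊤ : Subgroup ↥G) ⊤ (dn G e) = (p : ℚ) * t := by
    refine gap_of_T he' (T := SgC p) ?_ (fun m hm h =>
      rel_of_psi (WFam_sg.{u} p) (fun G _ _ m h => psi_sg G h.2.1 h.2.2) (↥G)
        ⟨inferInstance, hm, h⟩)
    intro d hd P hP hPd
    have hbr : HasBr (P.map G.subtype) e := by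
      refine ⟨(d : Γ), ?_, hd⟩
      rw [Subgroup.mem_centralizer_iff]
      rintro _ ⟨z, hz, rfl⟩
      exact congrArg Subtype.val (hPd z hz)
    obtain ⟨D', hD', hle⟩ := exists_defect (p := p) (N := G) (e := e) (by
      rintro _ ⟨z, _, rfl⟩
      exact z.2) (hP.map G.subtype) hbr
    obtain ⟨g, _, rfl⟩ := Hy.defect_conj_sub he hD hD'
    exact sg_of_map (sg_mono (sg_cg hs g) hle)
  obtain ⟨t', ht'⟩ := key
  rw [gap_transport he] at ht'
  refine ⟨t + t', ?_⟩
  rw [ht, ht']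
  push_cast
  ring

end Pool.Agent.Lib.P0c8ca5.Se
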