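import Mathlib
import Pool.Agent.Lib.P0c8ca5Se.Defs

/-!
# Pow: extensions of abelian groups by cyclic groups acting by power maps

A finite group `D` with an abelian normal subgroup `A` such that `D / A` is generated by `b A`,
`b` acts on `A` as `a ↦ a ^ (1 + p ^ s)` and `a ^ (p ^ (2 * s - 1)) = 1` for all `a ∈ A` satisfies
`Sg`.
-/

namespace Pool.Agent.Lib.P0c8ca5.Se

namespace PowAux

section
variable {Γ : Type*} [Group Γ]

/-- the elements acting on every cyclic subgroup of `A` by a power congruent to 1 modulo `q` -/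
def Pa (A : Subgroup Γ) (q : ℕ) (g : Γ) : Prop :=
  ∀ a ∈ A, ∃ t : ℤ, g * a * g⁻¹ = a ^ (1 + (q : ℤ) * t)

theorem Pa.mul {A : Subgroup Γ} {q : ℕ} {g h : Γ} (hg : Pa A q g) (hh : Pa A q h) :
    Pa A q (g * h) := by
  intro a ha
  obtain ⟨t, ht⟩ := hh a ha
  obtain ⟨t', ht'⟩ := hg a ha
  refine ⟨t + t' + (q : ℤ) * (t' * t), ?_⟩
  have e : g * h * a * (g * h)⁻¹ = g * (h * a * h⁻¹) * g⁻¹ := by group
  rw [e, ht, ← conj_zpow, ht', ← zpow_mul]
  congr 1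
  ring

theorem Pa.one {A : Subgroup Γ} {q : ℕ} : Pa A q (1 : Γ) := fun a _ => ⟨0, by simp⟩

theorem Pa.inv [Finite Γ] {A : Subgroup Γ} {q : ℕ} {g : Γ} (hg : Pa A q g) : Pa A q g⁻¹ := by
  have h1 : ∀ n : ℕ, Pa A q (g ^ n) := by
    intro n
    induction n with
    | zero => rw [pow_zero]; exact Pa.one
    | succ n ih => rw [pow_succ]; exact ih.mul hg
  have h2 : g⁻¹ = g ^ (orderOf g - 1) := by
    rw [inv_eq_iff_mul_eq_one, ← pow_succ', Nat.sub_add_cancel (orderOf_pos g), pow_orderOf_eq_one]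
  rw [h2]
  exact h1 _

/-- the elements acting on every cyclic subgroup of `A` by a power congruent to 1 modulo `q` -/
def paS [Finite Γ] (A : Subgroup Γ) (q : ℕ) : Subgroup Γ where
  carrier := {g | Pa A q g}
  mul_mem' := fun h h' => Pa.mul h h'
  one_mem' := Pa.one
  inv_mem' := fun h => Pa.inv h

/-- the powers of the elements of an abelian subgroup -/
def powS (N : Subgroup Γ) (hc : ∀ x ∈ N, ∀ y ∈ N, x * y = y * x) (q : ℕ) : Subgroup Γ where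
  carrier := {g | ∃ c ∈ N, g = c ^ q}
  mul_mem' := by
    rintro _ _ ⟨c, hc1, rfl⟩ ⟨d, hd1, rfl⟩
    exact ⟨c * d, N.mul_mem hc1 hd1, (Commute.mul_pow (hc c hc1 d hd1) q).symm⟩
  one_mem' := ⟨1, N.one_mem, by simp⟩
  inv_mem' := by
    rintro _ ⟨c, hc1, rfl⟩
    exact ⟨c⁻¹, N.inv_mem hc1, by simp⟩

/-- products of an element of `R` and a power of an element of `N` -/
def prS (R N : Subgroup Γ) (hn : N ≤ Subgroup.normalizer (R : Set Γ))
    (hc : ∀ x ∈ N, ∀ y ∈ N, x * y = y * x) (q : ℕ) : Subgroup Γ where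
  carrier := {g | ∃ r ∈ R, ∃ c ∈ N, g = r * c ^ q}
  mul_mem' := by
    rintro _ _ ⟨r, hr, c, hc1, rfl⟩ ⟨r', hr', d, hd1, rfl⟩
    refine ⟨r * (c ^ q * r' * (c ^ q)⁻¹), R.mul_mem hr
      ((Subgroup.mem_normalizer_iff.1 (hn (N.pow_mem hc1 q)) r').1 hr'), c * d,
      N.mul_mem hc1 hd1, ?_⟩
    rw [Commute.mul_pow (hc c hc1 d hd1) q]
    group
  one_mem' := ⟨1, R.one_mem, 1, N.one_mem, by simp⟩
  inv_mem' := by
    rintro _ ⟨r, hr, c, hc1, rfl⟩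
    refine ⟨(c⁻¹) ^ q * r⁻¹ * ((c⁻¹) ^ q)⁻¹,
      (Subgroup.mem_normalizer_iff.1 (hn (N.pow_mem (N.inv_mem hc1) q)) r⁻¹).1 (R.inv_mem hr),
      c⁻¹, N.inv_mem hc1, ?_⟩
    rw [inv_pow]
    group

/-- powers of a product modulo a normalized subgroup -/
theorem mul_pow_mem {R : Subgroup Γ} {r k : Γ} (hr : r ∈ R)
    (hk : k ∈ Subgroup.normalizer (R : Set Γ)) (n : ℕ) : ∃ r' ∈ R, (r * k) ^ n = r' * k ^ n := by
  induction n with
  | zero => exact ⟨1, R.one_mem, by simp⟩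
  | succ n ih =>
    obtain ⟨r', hr', h⟩ := ih
    refine ⟨r' * (k ^ n * r * (k ^ n)⁻¹), R.mul_mem hr'
      ((Subgroup.mem_normalizer_iff.1 ((Subgroup.normalizer (R : Set Γ)).pow_mem hk n) r).1 hr),
      ?_⟩
    rw [pow_succ, h, pow_succ]
    group

end

end PowAux

open PowAux

/-- the commutators of an extension of an abelian group by a cyclic group acting by powers -/
theorem comm_pow {Γ : Type*} [Group Γ] [Finite Γ] {D A : Subgroup Γ} (hA : A ≤ D)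
    (hc : ∀ x ∈ A, ∀ y ∈ A, x * y = y * x) {b : Γ} (hbD : b ∈ D)
    (hgen : D ≤ A ⊔ Subgroup.zpowers b) {q : ℕ} (hpa : ∀ g ∈ D, Pa A q g) {E : Subgroup Γ}
    (hE : E ≤ D) {x y : Γ} (hx : x ∈ E) (hy : y ∈ E) :
    ∃ c ∈ A ⊓ E, x * y * x⁻¹ * y⁻¹ = c ^ q := by
  classical
  -- the quotient of `D` by `A`
  have hnA : ∀ g ∈ D, ∀ a ∈ A, g * a * g⁻¹ ∈ A := by
    intro g hg a ha
    obtain ⟨t, ht⟩ := hpa g hg a ha
    rw [ht]
    exact A.zpow_mem ha _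
  haveI : (A.subgroupOf D).Normal := ⟨fun n hn g => by
    rw [Subgroup.mem_subgroupOf] at hn ⊢
    exact hnA _ g.2 _ hn⟩
  have hcN : ∀ x ∈ A ⊓ E, ∀ y ∈ A ⊓ E, x * y = y * x := fun x hx y hy => hc x hx.1 y hy.1
  set K := powS (A ⊓ E) hcN q with hK
  haveI : (K.subgroupOf E).Normal := ⟨fun n hn g => by
    rw [Subgroup.mem_subgroupOf] at hn ⊢
    obtain ⟨c, hc1, hc2⟩ := hn
    refine ⟨(g : Γ) * c * (g : Γ)⁻¹, ⟨hnA _ (hE g.2) _ hc1.1,
      E.mul_mem (E.mul_mem g.2 hc1.2) (E.inv_mem g.2)⟩, ?_⟩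
    change (g : Γ) * (n : Γ) * (g : Γ)⁻¹ = _
    rw [hc2, conj_pow]⟩
  let f0 : ↥E →* ↥D ⧸ A.subgroupOf D :=
    (QuotientGroup.mk' (A.subgroupOf D)).comp (Subgroup.inclusion hE)
  have hker : ∀ g : ↥E, f0 g = 1 ↔ (g : Γ) ∈ A := by
    intro g
    change (QuotientGroup.mk (Subgroup.inclusion hE g) : ↥D ⧸ A.subgroupOf D) = 1 ↔ _
    rw [QuotientGroup.eq_one_iff, Subgroup.mem_subgroupOf]
    rfl
  let f : ↥E ⧸ K.subgroupOf E →* ↥D ⧸ A.subgroupOf D :=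
    QuotientGroup.lift (K.subgroupOf E) f0 (by
      intro g hg
      rw [Subgroup.mem_subgroupOf] at hg
      obtain ⟨c, hc1, hc2⟩ := hg
      exact (hker g).2 (hc2 ▸ A.pow_mem hc1.1 q))
  haveI : IsCyclic (↥D ⧸ A.subgroupOf D) := by
    refine ⟨⟨QuotientGroup.mk ⟨b, hbD⟩, ?_⟩⟩
    have h1 : D ≤ ((Subgroup.zpowers (QuotientGroup.mk ⟨b, hbD⟩ :
        ↥D ⧸ A.subgroupOf D)).comap (QuotientGroup.mk' (A.subgroupOf D))).map D.subtype := by
      refine hgen.trans (sup_le ?_ ?_)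
      · intro a ha
        refine ⟨⟨a, hA ha⟩, ?_, rfl⟩
        have h2 : (QuotientGroup.mk (⟨a, hA ha⟩ : ↥D) : ↥D ⧸ A.subgroupOf D) = 1 := by
          rw [QuotientGroup.eq_one_iff, Subgroup.mem_subgroupOf]
          exact ha
        change (QuotientGroup.mk (⟨a, hA ha⟩ : ↥D) : ↥D ⧸ A.subgroupOf D) ∈ Subgroup.zpowers _
        rw [h2]
        exact Subgroup.one_mem _
      · rw [Subgroup.zpowers_le]
        exact ⟨⟨b, hbD⟩, Subgroup.mem_zpowers _, rfl⟩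
    intro z
    obtain ⟨g, rfl⟩ := QuotientGroup.mk_surjective z
    obtain ⟨g', hg', he⟩ := h1 g.2
    have : g' = g := Subtype.ext he
    rw [← this]
    exact hg'
  have hcen : f.ker ≤ Subgroup.center (↥E ⧸ K.subgroupOf E) := by
    intro z hz
    obtain ⟨g, rfl⟩ := QuotientGroup.mk_surjective z
    have hgA : (g : Γ) ∈ A := (hker g).1 hz
    rw [Subgroup.mem_center_iff]
    intro w
    obtain ⟨h, rfl⟩ := QuotientGroup.mk_surjective w
    rw [← QuotientGroup.mk_mul, ← QuotientGroup.mk_mul]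
    symm
    rw [QuotientGroup.eq, Subgroup.mem_subgroupOf]
    obtain ⟨t, ht⟩ := hpa _ (D.inv_mem (hE h.2)) _ hgA
    rw [inv_inv] at ht
    refine ⟨(g : Γ) ^ (-t), ⟨A.zpow_mem hgA _, E.zpow_mem g.2 _⟩, ?_⟩
    change ((g : Γ) * (h : Γ))⁻¹ * ((h : Γ) * (g : Γ)) = _
    have e : ((g : Γ) * (h : Γ))⁻¹ * ((h : Γ) * (g : Γ))
        = ((h : Γ)⁻¹ * (g : Γ) * (h : Γ))⁻¹ * (g : Γ) := by group
    rw [e, ht, ← zpow_natCast, ← zpow_mul, ← zpow_neg]
    nth_rewrite 2 [← zpow_one (g : Γ)]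
    rw [← zpow_add]
    congr 1
    ring
  have hcomm := MonoidHom.isMulCommutative_of_isCyclic_of_ker_le_center f hcen
  have hxy := hcomm.is_comm.comm (QuotientGroup.mk ⟨x⁻¹, E.inv_mem hx⟩ : ↥E ⧸ K.subgroupOf E)
    (QuotientGroup.mk ⟨y⁻¹, E.inv_mem hy⟩)
  rw [← QuotientGroup.mk_mul, ← QuotientGroup.mk_mul, QuotientGroup.eq,
    Subgroup.mem_subgroupOf] at hxy
  obtain ⟨c, hc1, hc2⟩ := hxy
  refine ⟨c⁻¹, Subgroup.inv_mem _ hc1, ?_⟩
  have h3 : (x⁻¹ * y⁻¹)⁻¹ * (y⁻¹ * x⁻¹) = c ^ q := hc2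
  rw [inv_pow, ← h3]
  group

/-- extensions of an abelian group by a cyclic group acting by powers congruent to 1 -/
theorem sg_pow {p : ℕ} {Γ : Type*} [Group Γ] [Finite Γ] {D A : Subgroup Γ} (hA : A ≤ D)
    (hc : ∀ x ∈ A, ∀ y ∈ A, x * y = y * x) {b : Γ} (hbD : b ∈ D)
    (hgen : D ≤ A ⊔ Subgroup.zpowers b) {s : ℕ}
    (hact : ∀ a ∈ A, b * a * b⁻¹ = a ^ (1 + p ^ s))
    (hexp : ∀ a ∈ A, a ^ (p ^ (2 * s - 1)) = 1) : Sg D := by
  classical
  have hpa : ∀ g ∈ D, Pa A (p ^ s) g := by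
    have h1 : A ⊔ Subgroup.zpowers b ≤ paS A (p ^ s) := by
      refine sup_le (fun g hg a ha => ⟨0, ?_⟩) ?_
      · rw [hc g hg a ha]
        simp
      · rw [Subgroup.zpowers_le]
        intro a ha
        refine ⟨1, ?_⟩
        rw [hact a ha, ← zpow_natCast]
        congr 1
        push_cast
        ring
    exact fun g hg => h1 (hgen hg)
  intro R E hRE hED hn hne
  have hcomm : ∀ x ∈ E, ∀ y ∈ E, ∃ c ∈ A ⊓ E, x * y * x⁻¹ * y⁻¹ = c ^ (p ^ s) :=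
    fun x hx y hy => comm_pow hA hc hbD hgen hpa hED hx hy
  have hcN : ∀ x ∈ A ⊓ E, ∀ y ∈ A ⊓ E, x * y = y * x := fun x hx y hy => hc x hx.1 y hy.1
  have hnN : A ⊓ E ≤ Subgroup.normalizer (R : Set Γ) := inf_le_right.trans hn
  have hle : R ⊔ ⁅E, E⁆ ≤ prS R (A ⊓ E) hnN hcN (p ^ s) := by
    refine sup_le (fun r hr => ⟨r, hr, 1, Subgroup.one_mem _, by simp⟩) ?_
    rw [Subgroup.commutator_le]
    intro x hx y hy
    obtain ⟨c, hc1, hc2⟩ := hcomm x hx y hy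
    exact ⟨1, R.one_mem, c, hc1, by rw [commutatorElement_def, hc2, one_mul]⟩
  by_cases hNR : A ⊓ E ≤ R
  · -- the section is abelian
    obtain ⟨z, hzE, hzR⟩ : ∃ z ∈ E, z ∉ R := by
      by_contra hcon
      push Not at hcon
      exact hne (le_antisymm hRE hcon)
    refine ⟨z, hzE, fun x hx => ?_, fun hz => hzR ?_⟩
    · obtain ⟨c, hc1, hc2⟩ := hcomm z hzE x hx
      rw [hc2]
      exact R.pow_mem (hNR hc1) _
    · obtain ⟨r, hr, c, hc1, rfl⟩ := hle hz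
      exact R.mul_mem hr (R.pow_mem (hNR hc1) _)
  have hex : ∃ m : ℕ, ∀ a ∈ A ⊓ E, a ^ (p ^ m) ∈ R :=
    ⟨2 * s - 1, fun a ha => by rw [hexp a ha.1]; exact R.one_mem⟩
  obtain ⟨m, hm, hmin⟩ : ∃ m : ℕ, (∀ a ∈ A ⊓ E, a ^ (p ^ m) ∈ R) ∧
      ∀ n < m, ¬ ∀ a ∈ A ⊓ E, a ^ (p ^ n) ∈ R :=
    ⟨Nat.find hex, Nat.find_spec hex, fun n hn' => Nat.find_min hex hn'⟩
  have hm2 : m ≤ 2 * s - 1 := by
    by_contra h
    exact hmin (2 * s - 1) (by omega) (fun a ha => by rw [hexp a ha.1]; exact R.one_mem)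
  have hm0 : 1 ≤ m := by
    by_contra h
    have h0 : m = 0 := by omega
    subst h0
    apply hNR
    intro a ha
    have := hm a ha
    rwa [pow_zero, pow_one] at this
  obtain ⟨a, ha, haR⟩ : ∃ a ∈ A ⊓ E, a ^ (p ^ (m - 1)) ∉ R := by
    have := hmin (m - 1) (by omega)
    push Not at this
    exact this
  refine ⟨a ^ (p ^ (m - s)), E.pow_mem ha.2 _, fun x hx => ?_, fun hz => ?_⟩
  · obtain ⟨t, ht⟩ := hpa x (hED hx) (a ^ (p ^ (m - s))) (A.pow_mem ha.1 _)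
    have e : a ^ (p ^ (m - s)) * x * (a ^ (p ^ (m - s)))⁻¹ * x⁻¹
        = a ^ (p ^ (m - s)) * (x * a ^ (p ^ (m - s)) * x⁻¹)⁻¹ := by group
    rw [e, ht, ← zpow_neg]
    nth_rewrite 1 [← zpow_one (a ^ (p ^ (m - s)))]
    rw [← zpow_add]
    have e2 : (1 : ℤ) + -(1 + ((p ^ s : ℕ) : ℤ) * t) = ((p ^ s : ℕ) : ℤ) * (-t) := by ring
    rw [e2, zpow_mul, zpow_natCast, ← pow_mul, ← pow_add]
    refine R.zpow_mem ?_ _
    have e3 : m - s + s = m + (m - s + s - m) := by omega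
    rw [e3, pow_add, pow_mul]
    exact R.pow_mem (hm a ha) _
  · obtain ⟨r, hr, c, hc1, he⟩ := hle hz
    rcases Nat.lt_or_ge s m with hsm | hsm
    · obtain ⟨r', hr', h1⟩ := mul_pow_mem (k := c ^ (p ^ s)) hr
        (hn (E.pow_mem hc1.2 _)) (p ^ (s - 1))
      rw [← he, ← pow_mul, ← pow_mul, ← pow_add, ← pow_add] at h1
      have e4 : s + (s - 1) = 2 * s - 1 := by omega
      have e5 : m - s + (s - 1) = m - 1 := by omega
      rw [e4, e5, hexp c hc1.1, mul_one] at h1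
      exact haR (h1 ▸ hr')
    · have e6 : m - s = 0 := by omega
      rw [e6, pow_zero, pow_one] at he
      have h2 : c ^ (p ^ s) ∈ R := by
        have e7 : s = m + (s - m) := by omega
        rw [e7, pow_add, pow_mul]
        exact R.pow_mem (hm c hc1) _
      have h3 : a ∈ R := he ▸ R.mul_mem hr h2
      exact haR (R.pow_mem h3 _)

/-- abelian groups -/
theorem sg_comm {Γ : Type*} [Group Γ] {D : Subgroup Γ} (hc : ∀ x ∈ D, ∀ y ∈ D, x * y = y * x) :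
    Sg D := by
  intro R E hRE hED hn hne
  obtain ⟨z, hzE, hzR⟩ : ∃ z ∈ E, z ∉ R := by
    by_contra hcon
    push Not at hcon
    exact hne (le_antisymm hRE hcon)
  have h1 : ∀ x ∈ E, ∀ y ∈ E, x * y * x⁻¹ * y⁻¹ = 1 := by
    intro x hx y hy
    rw [hc x (hED hx) y (hED hy)]
    group
  refine ⟨z, hzE, fun x hx => ?_, fun hz => hzR ?_⟩
  · rw [h1 z hzE x hx]
    exact R.one_mem
  · have h2 : R ⊔ ⁅E, E⁆ ≤ R := by
      refine sup_le le_rfl ?_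
      rw [Subgroup.commutator_le]
      intro x hx y hy
      rw [commutatorElement_def, h1 x hx y hy]
      exact R.one_mem
    exact h2 hz

end Pool.Agent.Lib.P0c8ca5.Se
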