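import Mathlib
import Pool.Agent.Lib.P0c8ca5Se.Gen
import Pool.Agent.Lib.P0c8ca5Id.Krs
import Pool.Agent.Lib.P0c8ca5V.GapM
import Pool.Agent.Lib.P0c8ca5V.GapT

/-!
# Lb: the gap is the sum of the alternating sums of the local blocks

`trL_TE`: for `z` in the center of `kA`, `trL z` is the sum over representatives `Q` of the
p-subgroups of the alternating sum `TE` of the image of `z` in `k[N(Q)/Q]`. For a block `b` the
left side is `l(b)`; the blocks of defect zero of `N(Q)/Q` have `TE = 1`, and the blocks `f` with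
defect group `S ≠ 1` and `Z(S)` not contained in `[S, S]` have `TE f = 0` (`Id.TE_center`).
-/

namespace Pool.Agent.Lib.P0c8ca5.Se

open MonoidAlgebra Bx TFinAux Rc.BiAux

set_option linter.unusedSectionVars false

section
variable {p : ℕ} {k : Type*} [Field k] {A : Type*} [Group A] [Fintype A]

/-- the alternating sum for `N(Q)/Q` -/
noncomputable def TEQ (p : ℕ) (Q : Subgroup A) (z : MonoidAlgebra k A) : k :=
  letI : Fintype (NQ Q) := Fintype.ofFinite _
  Id.TE p (proj Q z)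

theorem TEQ_add (Q : Subgroup A) (y z : MonoidAlgebra k A) :
    TEQ p Q (y + z) = TEQ p Q y + TEQ p Q z := by
  unfold TEQ
  letI : Fintype (NQ Q) := Fintype.ofFinite _
  rw [← Id.TE_add, proj_add]

theorem TEQ_smul (Q : Subgroup A) (c : k) (z : MonoidAlgebra k A) :
    TEQ p Q (c • z) = c * TEQ p Q z := by
  unfold TEQ
  letI : Fintype (NQ Q) := Fintype.ofFinite _
  rw [← Id.TE_smul, proj_smul]

theorem TEQ_zero (Q : Subgroup A) : TEQ p Q (0 : MonoidAlgebra k A) = 0 := by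
  have h := TEQ_smul (p := p) Q (0 : k) (0 : MonoidAlgebra k A)
  rwa [zero_smul, zero_mul] at h

theorem TEQ_sum (Q : Subgroup A) {ι : Type*} (S : Finset ι) (z : ι → MonoidAlgebra k A) :
    TEQ p Q (∑ i ∈ S, z i) = ∑ i ∈ S, TEQ p Q (z i) := by
  classical
  induction S using Finset.induction_on with
  | empty => rw [Finset.sum_empty, Finset.sum_empty, TEQ_zero]
  | insert a S ha ih => rw [Finset.sum_insert ha, Finset.sum_insert ha, TEQ_add, ih]

theorem trL_zero : trL k p (⊤ : Subgroup A) (fun x => (0 : MonoidAlgebra k A).coeff x) = 0 := by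
  have h := trL_smul (p := p) (⊤ : Subgroup A) (0 : k) (fun x => (0 : MonoidAlgebra k A).coeff x)
  rw [zero_mul] at h
  rw [← h]
  congr 1
  funext x
  change (0 : k) = 0 * _
  rw [zero_mul]

theorem trL_sum {ι : Type*} (S : Finset ι) (z : ι → MonoidAlgebra k A) :
    trL k p (⊤ : Subgroup A) (fun x => (∑ i ∈ S, z i).coeff x)
      = ∑ i ∈ S, trL k p (⊤ : Subgroup A) (fun x => (z i).coeff x) := by
  classical
  induction S using Finset.induction_on with
  | empty => rw [Finset.sum_empty, Finset.sum_empty, trL_zero]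
  | insert a S ha ih =>
    rw [Finset.sum_insert ha, Finset.sum_insert ha, ← ih, ← trL_add]
    rfl

variable [Fact p.Prime] [CharP k p] [IsAlgClosed k]

theorem eL_TEQ (Q : Subgroup A) {m : A → ℤ} (hm : CF m) :
    ∃ s : ℤ, eL p (mb Q m) = (Nat.card (NQ Q) : ℤ) * s ∧ (s : k) = TEQ p Q (zel k m) := by
  letI : Fintype (NQ Q) := Fintype.ofFinite _
  obtain ⟨t, h1, h2⟩ := Id.eE_TE (k := k) (p := p) (CF_mb Q hm)
  obtain ⟨c, hc⟩ := eE_eL_cf (p := p) (CF_mb Q hm)
  refine ⟨t - p * c, ?_, ?_⟩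
  · have h3 : eL p (mb Q m) = eE p (mb Q m) - (p : ℤ) * (Nat.card (NQ Q) : ℤ) * c := by
      rw [← hc]
      ring
    rw [h3, h1]
    ring
  · push_cast
    rw [CharP.cast_eq_zero, zero_mul, sub_zero, h2]
    unfold TEQ
    rw [proj_zel]

theorem trL_TE_zel {m : A → ℤ} (hm : CF m) :
    trL k p (⊤ : Subgroup A) (fun x => (zel k m).coeff x) = ∑ Q ∈ TT p A, TEQ p Q (zel k m) := by
  classical
  letI : Fintype (Subgroup A) := Fintype.ofFinite _
  let D : Finset (Subgroup A) := Finset.univ.filter (fun Q : Subgroup A => IsPGroup p Q)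
  obtain ⟨t₀, ht₀, ht₀'⟩ := nL_trL (p := p) (k := k) (⊤ : Subgroup A) (fun h _ x => hm h x)
  choose w hw1 hw2 using fun Q : Subgroup A => eL_TEQ (p := p) (k := k) Q hm
  have hwc : ∀ T ∈ D, ∀ h ∈ (⊤ : Subgroup A), w (cg h T) = w T := by
    intro T _ h _
    have h1 := CCAux.eL_cg (p := p) h T (m := m) (fun x => hm h x)
    rw [hw1, hw1] at h1
    have h2 : Nat.card (NQ (cg h T)) = Nat.card (NQ T) := by
      have e1 := CCAux.card_NQ (cg h T)
      have e2 := CCAux.card_NQ T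
      rw [← cg_normalizer, card_cg, card_cg, ← e2] at e1
      exact Nat.eq_of_mul_eq_mul_right Nat.card_pos e1
    rw [h2] at h1
    have hpos : (Nat.card (NQ T) : ℤ) ≠ 0 := by
      exact_mod_cast (Nat.card_pos (α := NQ T)).ne'
    exact mul_left_cancel₀ hpos h1
  have h3 := sum_crepZ (⊤ : Subgroup A) D
    (fun T hT h _ => by
      rw [Finset.mem_filter] at hT ⊢
      exact ⟨Finset.mem_univ _, isPGroup_cg hT.2⟩) w hwc
  have hcard : (Nat.card (⊤ : Subgroup A)) = Nat.card A :=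
    Nat.card_congr Subgroup.topEquiv.toEquiv
  have h4 : nL p (⊤ : Subgroup A) m = (Nat.card A : ℤ) * ∑ T ∈ TT p A, w T := by
    have h5 : TT p A = D.filter (fun Q => crep ⊤ Q = Q) := rfl
    rw [h5, ← hcard, ← h3, GenAux.nL_decomp_cf (p := p) (m := m), finsum_eq_sum_of_fintype,
      ← Finset.sum_filter]
    refine Finset.sum_congr rfl (fun Q _ => ?_)
    rw [hw1, top_inf_eq, ← CCAux.card_NQ Q]
    push_cast
    ring
  rw [ht₀, hcard] at h4
  have hA : (Nat.card A : ℤ) ≠ 0 := by exact_mod_cast (Nat.card_pos (α := A)).ne'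
  have h6 : t₀ = ∑ T ∈ TT p A, w T := mul_left_cancel₀ hA h4
  have h7 : (t₀ : k) = ∑ Q ∈ TT p A, TEQ p Q (zel k m) := by
    rw [h6]
    push_cast
    exact Finset.sum_congr rfl (fun Q _ => hw2 Q)
  rw [← h7, ht₀']
  rfl

/-- the trace on the class functions constant on p-sections is the sum of the alternating sums -/
theorem trL_TE {z : MonoidAlgebra k A} (hz : z ∈ fixAlg k (⊤ : Subgroup A) ⊤) :
    trL k p (⊤ : Subgroup A) (fun x => z.coeff x) = ∑ Q ∈ TT p A, TEQ p Q z := by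
  classical
  have hz' := (mem_fixAlg.1 hz).2
  have h1 : ∀ c : k, CF (lev z c) := by
    intro c g x
    have h2 : z.coeff (g * x * g⁻¹) = z.coeff x := hz' g (Subgroup.mem_top g) x
    unfold lev
    rw [h2]
  have h3 : trL k p (⊤ : Subgroup A) (fun x => (∑ c ∈ (Finset.univ.image fun x => z.coeff x).filter
      (fun c => c ≠ 0), c • zel k (lev z c)).coeff x) = ∑ Q ∈ TT p A, TEQ p Q
      (∑ c ∈ (Finset.univ.image fun x => z.coeff x).filter (fun c => c ≠ 0),
        c • zel k (lev z c)) := by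
    rw [trL_sum]
    have h4 : ∀ Q : Subgroup A, TEQ p Q
      (∑ c ∈ (Finset.univ.image fun x => z.coeff x).filter (fun c => c ≠ 0),
        c • zel k (lev z c)) = ∑ c ∈ (Finset.univ.image fun x => z.coeff x).filter
          (fun c => c ≠ 0), c * TEQ p Q (zel k (lev z c)) := by
      intro Q
      rw [TEQ_sum]
      exact Finset.sum_congr rfl fun c _ => TEQ_smul Q c _
    rw [Finset.sum_congr rfl (fun Q _ => h4 Q), Finset.sum_comm]
    refine Finset.sum_congr rfl fun c _ => ?_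
    rw [← Finset.mul_sum, ← trL_TE_zel (h1 c), ← trL_smul]
    rfl
  have h5 := eq_sum_lev z
  rw [← h5] at h3
  exact h3

theorem empty_mem_chRE : (∅ : Finset (Subgroup A)) ∈ Id.chRE p A := by
  classical
  rw [Id.mem_chRE]
  refine ⟨?_, fun Q hQ => absurd hQ (Finset.notMem_empty Q)⟩
  let _ := ChOrbAux.actS (A := A)
  unfold Bw.chR
  rw [Set.Finite.mem_toFinset]
  refine ⟨⟨fun x hx => absurd hx (Finset.notMem_empty x),
    fun Q hQ => absurd hQ (Finset.notMem_empty Q)⟩, ?_⟩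
  have h1 : (MulAction.orbitRel A (Finset (Subgroup A)))
      (Quotient.mk (MulAction.orbitRel A (Finset (Subgroup A))) ∅).out ∅ :=
    Quotient.exact (Quotient.out_eq _)
  rw [MulAction.orbitRel_apply] at h1
  obtain ⟨g, hg⟩ := h1
  rw [← hg]
  change ChOrbAux.cgS g ∅ = ∅
  rw [← Finset.card_eq_zero, ChOrbAux.card_cgS, Finset.card_empty]

/-- blocks of defect zero -/
theorem TE_dz {f : MonoidAlgebra k A} (hf : IsDZ p (⊤ : Subgroup A) f) : Id.TE p f = 1 := by
  classical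
  unfold Id.TE
  rw [Finset.sum_eq_single (∅ : Finset (Subgroup A))]
  · rw [Finset.card_empty, pow_zero, one_mul, Id.trE_rz]
    have h2 : sN (∅ : Finset (Subgroup A)) = ⊤ := by
      unfold sN
      simp
    rw [h2]
    exact trE_dz hf
  · intro σ hσ hne
    rw [Id.trE_kB (Id.isChE_of_mem hσ) hf.blk.mem hf.blk.idem]
    have hc := (Id.isChE_of_mem hσ).1
    obtain ⟨Q, hQ⟩ := Finset.nonempty_iff_ne_empty.2 hne
    have h1 : resS (Id.sC σ : Set A) f = 0 := by
      ext x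
      rw [coeff_resS]
      by_cases hx : x ∈ (Id.sC σ : Set A)
      · rw [if_pos hx]
        by_contra h0
        refine (hc.2 Q hQ).2 (hf.dz Q le_top (hc.2 Q hQ).1 ⟨x, ?_, h0⟩)
        exact Id.mem_sC.1 hx Q hQ
      · rw [if_neg hx]
        rfl
    have h2 : Id.kB σ f = 0 := by
      unfold Id.kB
      rw [h1]
      have h3 : Id.ctr k (sN σ) (0 : MonoidAlgebra k A) = ⊥ := by
        rw [eq_bot_iff]
        rintro z ⟨_, hz⟩
        rw [mul_zero] at hz
        exact (Submodule.mem_bot k).2 hz.symm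
      rw [h3]
      exact finrank_bot k _
    rw [h2, Nat.cast_zero, mul_zero]
  · intro h
    exact absurd (empty_mem_chRE (p := p) (A := A)) h

/-- the blocks below a central idempotent, nontrivial defect groups `S` with `Z(S)` not contained
in `[S, S]` -/
theorem TE_idem {c : MonoidAlgebra k A} (hc : c ∈ fixAlg k (⊤ : Subgroup A) ⊤) (hcc : c * c = c)
    (hl : ∀ f, IsBlock (⊤ : Subgroup A) f → f * c = f → ∀ S : Subgroup A,
      IsDefectGroup p (⊤ : Subgroup A) f S → S ≠ ⊥ →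
        ∃ u ∈ S, (∀ x ∈ S, u * x = x * u) ∧ u ∉ ⁅S, S⁆) :
    Id.TE p c = (Nat.card {f : MonoidAlgebra k A | IsDZ p (⊤ : Subgroup A) f ∧ f * c = f} : k) := by
  classical
  let Bl : Finset (MonoidAlgebra k A) :=
    ((finite_isBlock (k := k) (⊤ : Subgroup A)).toFinset).filter (fun f => f * c ≠ 0)
  have hBl : ∀ b, b ∈ Bl ↔ IsBlock (⊤ : Subgroup A) b ∧ b * c ≠ 0 := by
    intro b
    rw [Finset.mem_filter, Set.Finite.mem_toFinset]
    rfl
  have hmul : ∀ b ∈ Bl, b * c = b := by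
    intro b hb
    obtain ⟨h1, h2⟩ := (hBl b).1 hb
    have hcm : b * c = c * b := commute_of h1.suppIn (mem_fixAlg.1 hc).2
    rcases h1.mul_eq hc hcc with h | h
    · exact absurd (by rw [hcm, h]) h2
    · rw [hcm, h]
  have h1 := WSumAux.sum_blocks (p := p) hc hcc Bl hBl
  have h2 : Id.TE p c = ∑ b ∈ Bl, Id.TE p b := by
    rw [← Id.TE_sum, h1]
  have h3 : ∀ b ∈ Bl, Id.TE p b = if IsDZ p (⊤ : Subgroup A) b then (1 : k) else 0 := by
    intro b hb
    by_cases hz : IsDZ p (⊤ : Subgroup A) b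
    · rw [if_pos hz, TE_dz hz]
    · rw [if_neg hz]
      have hb' := ((hBl b).1 hb).1
      obtain ⟨S, hS, _⟩ := exists_defect (p := p) (N := (⊤ : Subgroup A)) (e := b)
        (bot_le) IsPGroup.of_bot hb'.hasBr_bot
      have hne : S ≠ ⊥ := by
        rintro rfl
        exact hz (isDZ_iff.2 ⟨hb', hS⟩)
      obtain ⟨u, hu, huc, hun⟩ := hl b hb' (hmul b hb) S hS hne
      exact Id.TE_center hb' hS hu huc hun
  rw [h2, Finset.sum_congr rfl h3, ← Finset.sum_filter, Finset.sum_const, nsmul_eq_mul, mul_one]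
  congr 1
  have h4 : {f : MonoidAlgebra k A | IsDZ p (⊤ : Subgroup A) f ∧ f * c = f}
      = ↑(Bl.filter fun b => IsDZ p (⊤ : Subgroup A) b) := by
    ext f
    rw [Finset.mem_coe, Finset.mem_filter, Set.mem_setOf_eq]
    constructor
    · rintro ⟨h5, h6⟩
      refine ⟨(hBl f).2 ⟨h5.blk, ?_⟩, h5⟩
      rw [h6]
      exact h5.blk.ne_zero
    · rintro ⟨h5, h6⟩
      exact ⟨h6, hmul f h5⟩
  rw [h4, Nat.card_coe_set_eq, Set.ncard_coe_finset]

/-- the difference of the two sides for a block of the whole group -/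
theorem gap_lb_top {b : MonoidAlgebra k A} (hb : IsBlock (⊤ : Subgroup A) b)
    (hl : ∀ Q : Subgroup A, IsPGroup p Q → ∀ f, IsBlock (⊤ : Subgroup (NQ Q)) f →
      f * proj Q b = f → ∀ S : Subgroup (NQ Q), IsDefectGroup p (⊤ : Subgroup (NQ Q)) f S →
        S ≠ ⊥ → ∃ u ∈ S, (∀ x ∈ S, u * x = x * u) ∧ u ∉ ⁅S, S⁆) :
    ∃ t : ℤ, gap p (⊤ : Subgroup A) ⊤ b = (p : ℚ) * t := by
  classical
  have h1 : ((gp p b : ℤ) : k) = 0 := by
    unfold gp
    push_cast
    rw [← trL_blk hb.mem hb.idem, trL_TE (p := p) hb.mem, ← Finset.sum_sub_distrib]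
    refine Finset.sum_eq_zero fun Q hQ => ?_
    have hQp := mem_TT hQ
    unfold TEQ
    letI : Fintype (NQ Q) := Fintype.ofFinite _
    have h2 : proj Q b * proj Q b = proj Q b := by
      rw [← proj_mul hQp (hb.invBy.mono le_top) (hb.invBy.mono le_top), hb.idem]
    rw [TE_idem (proj_mem hb.mem) h2 (hl Q hQp), sec_top Q, sub_self]
  obtain ⟨s, hs⟩ := (CharP.intCast_eq_zero_iff k p _).1 h1
  refine ⟨s, ?_⟩
  rw [gap_gp hb, hs]
  push_cast
  rfl

end

section transport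
variable {p : ℕ} {k : Type*} [Field k] {A₁ A₂ : Type*} [Group A₁] [Group A₂]
variable {C₁ : Subgroup A₁} {C₂ : Subgroup A₂} (ψ : C₁ ≃* C₂)

/-- the image of a subgroup -/
def im (S : Subgroup A₁) : Subgroup A₂ := ((S.subgroupOf C₁).map ψ.toMonoidHom).map C₂.subtype

theorem mem_im {S : Subgroup A₁} (x : C₁) : ((ψ x : C₂) : A₂) ∈ im ψ S ↔ (x : A₁) ∈ S := by
  constructor
  · rintro ⟨_, ⟨z, hz, rfl⟩, h⟩
    have h1 : ψ z = ψ x := Subtype.ext h
    rw [← ψ.injective h1]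
    exact hz
  · intro h
    exact ⟨ψ x, ⟨x, h, rfl⟩, rfl⟩

theorem im_le (S : Subgroup A₁) : im ψ S ≤ C₂ := by
  rintro _ ⟨z, _, rfl⟩
  exact z.2

theorem im_symm {S : Subgroup A₁} (hS : S ≤ C₁) : im ψ.symm (im ψ S) = S := by
  ext x
  constructor
  · intro hx
    have h1 := im_le ψ.symm _ hx
    have h2 := mem_im ψ.symm (S := im ψ S) (ψ ⟨x, h1⟩)
    rw [MulEquiv.symm_apply_apply] at h2
    exact (mem_im ψ ⟨x, h1⟩).1 (h2.1 hx)
  · intro hx
    have h2 := mem_im ψ.symm (S := im ψ S) (ψ ⟨x, hS hx⟩)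
    rw [MulEquiv.symm_apply_apply] at h2
    exact h2.2 ((mem_im ψ ⟨x, hS hx⟩).2 hx)

theorem im_symm' {S : Subgroup A₂} (hS : S ≤ C₂) : im ψ (im ψ.symm S) = S := by
  have h := im_symm ψ.symm hS
  rwa [MulEquiv.symm_symm] at h

theorem im_mono {S T : Subgroup A₁} (h : S ≤ T) : im ψ S ≤ im ψ T := by
  unfold im
  exact Subgroup.map_mono (Subgroup.map_mono (fun x hx => h hx))

theorem im_isPGroup {S : Subgroup A₁} (h : IsPGroup p S) : IsPGroup p (im ψ S) := by
  unfold im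
  exact ((h.comap_of_injective C₁.subtype C₁.subtype_injective).map _).map _

theorem hasBr_im {S : Subgroup A₁} (hS : S ≤ C₁) {e : MonoidAlgebra k A₁} (he : SuppIn C₁ e)
    (h : HasBr S e) : HasBr (im ψ S) (tr ψ e) := by
  obtain ⟨x, hx, hxe⟩ := h
  have hxC := he x hxe
  refine ⟨((ψ ⟨x, hxC⟩ : C₂) : A₂), ?_, by rw [coeff_tr]; exact hxe⟩
  rw [Subgroup.mem_centralizer_iff]
  intro y hy
  have h1 := im_le ψ S hy
  have h2 : ψ (ψ.symm ⟨y, h1⟩) = ⟨y, h1⟩ := MulEquiv.apply_symm_apply _ _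
  have h3 : ((ψ.symm ⟨y, h1⟩ : C₁) : A₁) ∈ S := by
    rw [← mem_im ψ, h2]
    exact hy
  have h4 := Subgroup.mem_centralizer_iff.1 hx _ h3
  have h5 : (ψ.symm ⟨y, h1⟩ : C₁) * ⟨x, hxC⟩ = ⟨x, hxC⟩ * ψ.symm ⟨y, h1⟩ := Subtype.ext h4
  have h6 := congrArg (fun z : C₁ => ((ψ z : C₂) : A₂)) h5
  simp only [map_mul, h2] at h6
  exact h6

theorem defect_im {S : Subgroup A₁} {e : MonoidAlgebra k A₁} (he : SuppIn C₁ e)
    (h : IsDefectGroup p C₁ e S) : IsDefectGroup p C₂ (tr ψ e) (im ψ S) where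
  le := im_le ψ S
  isPGroup := im_isPGroup ψ h.isPGroup
  br := hasBr_im ψ h.le he h.br
  max := fun P hP hpP hbr hSP => by
    have h1 : HasBr (im ψ.symm P) e := by
      have h2 := hasBr_im ψ.symm hP (tr_suppIn ψ e) hbr
      rwa [tr_symm_tr ψ he] at h2
    have h3 : S ≤ im ψ.symm P := by
      rw [← im_symm ψ h.le]
      exact im_mono ψ.symm hSP
    have h4 := h.max _ (im_le ψ.symm P) (im_isPGroup ψ.symm hpP) h1 h3
    rw [← h4, im_symm' ψ hP]

theorem im_comm {S : Subgroup A₁} (hS : S ≤ C₁) (x : C₁) (hx : (x : A₁) ∈ ⁅S, S⁆) :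
    ((ψ x : C₂) : A₂) ∈ ⁅im ψ S, im ψ S⁆ := by
  have h1 : ⁅im ψ S, im ψ S⁆
      = ((⁅S.subgroupOf C₁, S.subgroupOf C₁⁆).map ψ.toMonoidHom).map C₂.subtype := by
    unfold im
    rw [Subgroup.map_commutator, Subgroup.map_commutator]
  have h2 : (⁅S.subgroupOf C₁, S.subgroupOf C₁⁆).map C₁.subtype = ⁅S, S⁆ := by
    rw [Subgroup.map_commutator, Subgroup.subgroupOf_map_subtype, inf_eq_left.2 hS]
  rw [← h2] at hx
  obtain ⟨y, hy, hyx⟩ := hx
  have h3 : y = x := Subtype.ext hyx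
  rw [h1, ← h3]
  exact ⟨ψ y, ⟨y, hy, rfl⟩, rfl⟩

end transport

/-- for every p-subgroup `Q` of `G`, every nontrivial defect group `S` of a block of `N_G(Q)/Q`
below the image of `e` has a central element outside `[S, S]` -/
def LocGood (p : ℕ) {k : Type*} [Field k] {A : Type*} [Group A] (G : Subgroup A)
    (e : MonoidAlgebra k A) : Prop :=
  ∀ Q : Subgroup A, Q ≤ G → IsPGroup p Q → ∀ f : MonoidAlgebra k (NQ Q), IsBlock (sec G Q) f →
    f * proj Q e = f → ∀ S : Subgroup (NQ Q), IsDefectGroup p (sec G Q) f S → S ≠ ⊥ →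
      ∃ u ∈ S, (∀ x ∈ S, u * x = x * u) ∧ u ∉ ⁅S, S⁆

/-- Navarro's equality modulo `p` for the blocks all of whose local blocks have defect groups `S`
with `S = 1` or `Z(S)` not contained in `[S, S]` -/
theorem gap_lb {p : ℕ} [Fact p.Prime] {k : Type*} [Field k] [IsAlgClosed k] [CharP k p]
    {Γ : Type*} [Group Γ] [Finite Γ] (G : Subgroup Γ) [G.Normal] (hΓ : IsPGroup p (Γ ⧸ G))
    {e : MonoidAlgebra k Γ} (he : IsBlock G e) (hinv : InvBy ⊤ e) (hl : LocGood p G e) :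
    ∃ t : ℤ, gap p G ⊤ e = (p : ℚ) * t := by
  have : Fintype Γ := Fintype.ofFinite Γ
  have : Fintype ↥G := Fintype.ofFinite _
  obtain ⟨t, ht⟩ := gap_mod hΓ he hinv
  have he' := dn_isBlock he
  have hb' : SuppIn (⊤ : Subgroup ↥G) (dn G e) := fun x _ => Subgroup.mem_top x
  have key : ∃ t : ℤ, gap p (⊤ : Subgroup ↥G) ⊤ (dn G e) = (p : ℚ) * t := by
    refine gap_lb_top he' ?_
    intro Q hQ f hf hfe S hS hne
    obtain ⟨ψ, hψ⟩ := TrBAux.exists_iso_sec G Q
    have htr := TrBAux.tr_proj G he.suppIn Q hψ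
    rw [← sec_top Q] at hf hS
    have hs1 : SuppIn (sec (⊤ : Subgroup ↥G) Q) (proj Q (dn G e)) := proj_suppIn hb' _
    have h1 := tr_isBlock ψ hf
    have h2 : tr ψ f * proj (Q.map G.subtype) e = tr ψ f := by
      rw [← htr, ← tr_mul ψ hf.suppIn hs1, hfe]
    have h3 := defect_im ψ hf.suppIn hS
    have h4 : im ψ S ≠ ⊥ := by
      intro h5
      apply hne
      rw [eq_bot_iff]
      intro x hx
      have h6 := (mem_im ψ ⟨x, hS.le hx⟩).2 hx
      rw [h5, Subgroup.mem_bot] at h6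
      have h7 : ψ ⟨x, hS.le hx⟩ = 1 := Subtype.ext h6
      rw [map_eq_one_iff ψ ψ.injective] at h7
      exact Subgroup.mem_bot.2 (congrArg Subtype.val h7)
    obtain ⟨u, hu, huc, hun⟩ := hl (Q.map G.subtype) (by
      rintro _ ⟨x, _, rfl⟩
      exact x.2) (hQ.map _) _ h1 h2 _ h3 h4
    have huC := im_le ψ S hu
    have h8 : ψ (ψ.symm ⟨u, huC⟩) = ⟨u, huC⟩ := MulEquiv.apply_symm_apply _ _
    refine ⟨ψ.symm ⟨u, huC⟩, ?_, ?_, ?_⟩
    · rw [← mem_im ψ, h8]
      exact hu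
    · intro x hx
      have h9 := huc _ ((mem_im ψ ⟨x, hS.le hx⟩).2 hx)
      have h10 : ψ.symm ⟨u, huC⟩ * ⟨x, hS.le hx⟩ = ⟨x, hS.le hx⟩ * ψ.symm ⟨u, huC⟩ := by
        apply ψ.injective
        rw [map_mul, map_mul, h8]
        exact Subtype.ext h9
      exact congrArg Subtype.val h10
    · intro h9
      apply hun
      have h10 := im_comm ψ hS.le _ h9
      rw [h8] at h10
      exact h10
  obtain ⟨t', ht'⟩ := key
  rw [gap_transport he] at ht'
  refine ⟨t + t', ?_⟩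
  rw [ht, ht']
  push_cast
  ring

end Pool.Agent.Lib.P0c8ca5.Se
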